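import Pool.Agent.Helper2.LN2.Units

/-!
# LN2-U5 (MP_730da0_ag): STEP 2 of the header of Units.lean, and the conclusion

See the header of `Units.lean` (STEP 2) for the paper proof.
-/

namespace Pool.Agent.Helper2.LN2

open Pool.Agent.Helper2.LN

namespace Aff

variable {k : ℕ} {X : (Fin k → ℂ) → (Fin k → ℂ)}

theorem comp_mem {q : Fin k → ℂ} (hq : q ∈ Conf k) (π : Equiv.Perm (Fin k)) : q ∘ π ∈ Conf k :=
  Function.Injective.comp hq π.injective

theorem VV_eqv (hX : Eqv X) (a b c : Fin k) (π : Equiv.Perm (Fin k)) {q : Fin k → ℂ} (hq : q ∈ Conf k) :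
    VV X a b c (q ∘ π) = VV X (π a) (π b) (π c) q := by
  unfold VV
  rw [hX.eqv q hq π]
  rfl

theorem sub_ne (hX : Eqv X) {a b : Fin k} (hab : a ≠ b) {q : Fin k → ℂ} (hq : q ∈ Conf k) :
    X q a - X q b ≠ 0 := by
  intro h
  exact hab (hX.inj q hq (sub_eq_zero.mp h))

theorem VV_ne_zero (hX : Eqv X) {a b c : Fin k} (hab : a ≠ b) (hac : a ≠ c) {q : Fin k → ℂ}
    (hq : q ∈ Conf k) : VV X a b c q ≠ 0 :=
  div_ne_zero (sub_ne hX hab hq) (sub_ne hX hac hq)

theorem VV_inv (hX : Eqv X) {a b c : Fin k} (hab : a ≠ b) (hac : a ≠ c) {q : Fin k → ℂ}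
    (hq : q ∈ Conf k) : VV X a b c q * VV X a c b q = 1 := by
  unfold VV
  have h1 := sub_ne hX hab hq
  have h2 := sub_ne hX hac hq
  field_simp

theorem VV_one_sub (hX : Eqv X) {a b c : Fin k} (hac : a ≠ c) {q : Fin k → ℂ}
    (hq : q ∈ Conf k) : VV X a b c q + VV X c b a q = 1 := by
  unfold VV
  have h2 := sub_ne hX hac hq
  have h3 := sub_ne hX hac.symm hq
  have h4 : X q c - X q a = -(X q a - X q c) := by ring
  rw [h4, div_neg]
  field_simp
  ring

theorem isOpen_line {q : Fin k → ℂ} (d : Fin k) : IsOpen {x | Function.update q d x ∈ Conf k} :=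
  (isOpen_Conf k).preimage (update_diff q d).continuous

theorem preconn_line {q : Fin k → ℂ} (hq : q ∈ Conf k) (d : Fin k) :
    IsPreconnected {x | Function.update q d x ∈ Conf k} := by
  have h1 : {x | Function.update q d x ∈ Conf k} = (((Finset.univ.erase d).image q : Finset ℂ) : Set ℂ)ᶜ := by
    ext x
    simp only [Set.mem_ofPred_eq, update_mem hq, Set.mem_compl_iff, Finset.coe_image, Set.mem_image,
      Finset.mem_coe, Finset.mem_erase, Finset.mem_univ, and_true, not_exists, not_and]
    constructor
    · intro h i hi hix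
      exact h i hi hix.symm
    · intro h i hi hix
      exact h i hi hix.symm
  rw [h1]
  have h2 : 1 < Module.rank ℝ ℂ := by
    rw [Complex.rank_real_complex]
    norm_num
  exact ((Finset.countable_toSet _).isPathConnected_compl_of_one_lt_rank h2).isConnected.isPreconnected

theorem diff_line (hX : Eqv X) {a b c : Fin k} (hac : a ≠ c) {q : Fin k → ℂ} (hq : q ∈ Conf k)
    (d : Fin k) :
    DifferentiableOn ℂ (fun x => VV X a b c (Function.update q d x)) {x | Function.update q d x ∈ Conf k} := by
  unfold VV
  exact ((hX.hol q hq d a).sub (hX.hol q hq d b)).div ((hX.hol q hq d a).sub (hX.hol q hq d c))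
    (fun x hx => sub_ne hX hac hx)

theorem self_mem {q : Fin k → ℂ} (hq : q ∈ Conf k) (d : Fin k) : q d ∈ {x | Function.update q d x ∈ Conf k} := by
  simp only [Set.mem_ofPred_eq, Function.update_eq_self]
  exact hq

/-- derivative of the sum `V_abc + V_cba = 1`. -/
theorem deriv_addV (hX : Eqv X) {a b c : Fin k} (hac : a ≠ c) {q : Fin k → ℂ} (hq : q ∈ Conf k)
    (d : Fin k) :
    deriv (fun x => VV X a b c (Function.update q d x)) (q d) +
      deriv (fun x => VV X c b a (Function.update q d x)) (q d) = 0 := by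
  have hn : {x | Function.update q d x ∈ Conf k} ∈ nhds (q d) :=
    (isOpen_line d).mem_nhds (self_mem hq d)
  have h1 := (diff_line hX (b := b) hac hq d).differentiableAt hn
  have h2 := (diff_line hX (b := b) hac.symm hq d).differentiableAt hn
  rw [← _root_.deriv_add h1 h2]
  have h3 : (fun x => VV X a b c (Function.update q d x)) + (fun x => VV X c b a (Function.update q d x))
      =ᶠ[nhds (q d)] fun _ => (1 : ℂ) := by
    filter_upwards [hn] with x hx
    exact VV_one_sub hX hac hx
  rw [h3.deriv_eq]
  simp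

theorem sum_two (m : Fin k → ℂ) {a b c : Fin k} (hab : a ≠ b) (hbc : b ≠ c) (hac : a ≠ c)
    (hm : ∀ i, i ≠ a → i ≠ b → i ≠ c → m i = 0) (q : Fin k → ℂ) :
    ∑ i ∈ Finset.univ.erase a, m i / (q a - q i) = m b / (q a - q b) + m c / (q a - q c) := by
  refine Finset.sum_eq_add b c hbc ?_ ?_ ?_
  · intro i hi h
    rw [hm i (Finset.ne_of_mem_erase hi) h.1 h.2, zero_div]
  · intro h
    exact absurd (Finset.mem_erase.mpr ⟨hab.symm, Finset.mem_univ _⟩) h
  · intro h
    exact absurd (Finset.mem_erase.mpr ⟨hac.symm, Finset.mem_univ _⟩) h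

theorem exists_conf {a b c : Fin k} (hab : a ≠ b) (hbc : b ≠ c) (hac : a ≠ c) {x β γ : ℂ}
    (h1 : x ≠ β) (h2 : β ≠ γ) (h3 : x ≠ γ) : ∃ q ∈ Conf k, q a = x ∧ q b = β ∧ q c = γ := by
  have hfin : ({x, β, γ} : Set ℂ).Finite := by simp
  have hinf : (({x, β, γ} : Set ℂ)ᶜ).Infinite := hfin.infinite_compl
  have e : ℕ ↪ (({x, β, γ} : Set ℂ)ᶜ : Set ℂ) := hinf.natEmbedding
  have he : ∀ n, (e n : ℂ) ≠ x ∧ (e n : ℂ) ≠ β ∧ (e n : ℂ) ≠ γ := by
    intro n
    have := (e n).2
    simp only [Set.mem_compl_iff, Set.mem_insert_iff, Set.mem_singleton_iff, not_or] at this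
    exact this
  have hei : ∀ i j : Fin k, (e i : ℂ) = (e j : ℂ) → i = j := by
    intro i j h
    exact Fin.ext (e.injective (Subtype.ext h))
  refine ⟨fun i => if i = a then x else if i = b then β else if i = c then γ else (e i : ℂ), ?_, ?_, ?_, ?_⟩
  · intro i j hij
    have hi := he i
    have hj := he j
    have hh := hei i j
    simp only at hij
    split_ifs at hij with h4 h5 h6 h7 h8 h9 h10 h11 h12 h13 h14 h15 <;>
      first
      | (subst_vars; rfl)
      | exact absurd hij h1
      | exact absurd hij h2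
      | exact absurd hij h3
      | exact absurd hij.symm h1
      | exact absurd hij.symm h2
      | exact absurd hij.symm h3
      | exact absurd hij hi.1
      | exact absurd hij hi.2.1
      | exact absurd hij hi.2.2
      | exact absurd hij.symm hj.1
      | exact absurd hij.symm hj.2.1
      | exact absurd hij.symm hj.2.2
      | exact hh hij
  · simp
  · simp [hab.symm]
  · simp [hbc.symm, hac.symm]

theorem conf_ne {q : Fin k → ℂ} (hq : q ∈ Conf k) {a b : Fin k} (hab : a ≠ b) : q a - q b ≠ 0 := by
  intro h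
  exact hab (hq (sub_eq_zero.mp h))

theorem exists_perm {a b c a' b' c' : Fin k} (hab : a ≠ b) (hbc : b ≠ c) (hac : a ≠ c)
    (hab' : a' ≠ b') (hbc' : b' ≠ c') (hac' : a' ≠ c') :
    ∃ π : Equiv.Perm (Fin k), π a = a' ∧ π b = b' ∧ π c = c' := by
  let π₁ := Equiv.swap a a'
  have h1 : π₁ a = a' := Equiv.swap_apply_left _ _
  let b₁ := π₁ b
  have hb₁ : b₁ ≠ a' := by
    intro h
    exact hab (π₁.injective (h1.trans h.symm))
  let π₂ := Equiv.swap b₁ b'
  have h2 : π₂ b₁ = b' := Equiv.swap_apply_left _ _
  have h2a : π₂ a' = a' := Equiv.swap_apply_of_ne_of_ne hb₁.symm hab'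
  let c₁ := π₂ (π₁ c)
  have hc₁a : c₁ ≠ a' := by
    intro h
    have h5 : π₂ (π₁ c) = π₂ (π₁ a) := by rw [h1, h2a]; exact h
    exact hac (π₁.injective (π₂.injective h5)).symm
  have hc₁b : c₁ ≠ b' := by
    intro h
    have h5 : π₂ (π₁ c) = π₂ (π₁ b) := by
      change c₁ = π₂ b₁
      rw [h2, h]
    exact hbc (π₁.injective (π₂.injective h5)).symm
  let π₃ := Equiv.swap c₁ c'
  have h3 : π₃ c₁ = c' := Equiv.swap_apply_left _ _
  have h3a : π₃ a' = a' := Equiv.swap_apply_of_ne_of_ne hc₁a.symm hac'
  have h3b : π₃ b' = b' := Equiv.swap_apply_of_ne_of_ne hc₁b.symm hbc'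
  refine ⟨(π₁.trans π₂).trans π₃, ?_, ?_, ?_⟩
  · simp only [Equiv.trans_apply]
    rw [h1, h2a, h3a]
  · simp only [Equiv.trans_apply]
    change π₃ (π₂ b₁) = b'
    rw [h2, h3b]
  · simp only [Equiv.trans_apply]
    exact h3

/-- the package of constants (conclusion of `units_M`). -/
structure MM (X : (Fin k → ℂ) → (Fin k → ℂ)) (M : Fin k → Fin k → Fin k → Fin k → Fin k → ℂ) : Prop where
  der : ∀ a b c, a ≠ b → b ≠ c → a ≠ c → ∀ q ∈ Conf k, ∀ d,
        deriv (fun x => VV X a b c (Function.update q d x)) (q d) =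
          VV X a b c q * ∑ i ∈ Finset.univ.erase d, M a b c d i / (q d - q i)
  inv : ∀ a b c, a ≠ b → b ≠ c → a ≠ c → ∀ d i, d ≠ i → M a c b d i = - M a b c d i
  eqv : ∀ a b c, a ≠ b → b ≠ c → a ≠ c → ∀ (π : Equiv.Perm (Fin k)) d i, d ≠ i →
        M (π a) (π b) (π c) (π d) (π i) = M a b c d i

/-- `M(abc; a, i) = 0` for `i` outside. -/
theorem M_first_out {M : Fin k → Fin k → Fin k → Fin k → Fin k → ℂ} (hM : MM X M) {a b c i : Fin k}
    (hab : a ≠ b) (hbc : b ≠ c) (hac : a ≠ c) (hia : i ≠ a) (hib : i ≠ b) (hic : i ≠ c) :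
    M a b c a i = 0 := by
  have h1 := hM.eqv a b c hab hbc hac (Equiv.swap b c) a i hia.symm
  rw [Equiv.swap_apply_of_ne_of_ne hab hac, Equiv.swap_apply_left, Equiv.swap_apply_right,
    Equiv.swap_apply_of_ne_of_ne hib hic] at h1
  have h2 := hM.inv a b c hab hbc hac a i hia.symm
  rw [h1] at h2
  have h3 : (2 : ℂ) * M a b c a i = 0 := by linear_combination h2
  simpa using h3

/-- `M(abc; a, c) = - M(abc; a, b)`. -/
theorem M_first_bc {M : Fin k → Fin k → Fin k → Fin k → Fin k → ℂ} (hM : MM X M) {a b c : Fin k}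
    (hab : a ≠ b) (hbc : b ≠ c) (hac : a ≠ c) :
    M a b c a c = - M a b c a b := by
  have h1 := hM.eqv a b c hab hbc hac (Equiv.swap b c) a b hab
  rw [Equiv.swap_apply_of_ne_of_ne hab hac, Equiv.swap_apply_left, Equiv.swap_apply_right] at h1
  have h2 := hM.inv a b c hab hbc hac a c hac
  rw [h1] at h2
  linear_combination h2

/-- `M(cba; a, i) = 0` for `i` outside. -/
theorem M_last_out (hk : 5 ≤ k) (hX : Eqv X) {M : Fin k → Fin k → Fin k → Fin k → Fin k → ℂ} (hM : MM X M)
    {a b c i : Fin k} (hab : a ≠ b) (hbc : b ≠ c) (hac : a ≠ c) (hia : i ≠ a) (hib : i ≠ b) (hic : i ≠ c) :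
    M c b a a i = 0 := by
  obtain ⟨q, hq⟩ : ∃ q : Fin k → ℂ, q ∈ Conf k := (conf_connected k).nonempty
  have hinf : ((Set.range q)ᶜ).Infinite := (Set.finite_range q).infinite_compl
  obtain ⟨y, hy⟩ := hinf.nonempty
  have hyq : ∀ j, y ≠ q j := by
    intro j h
    exact hy ⟨j, h.symm⟩
  have hq' : Function.update q i y ∈ Conf k := (update_mem hq i y).mpr fun j _ => hyq j
  -- values agree
  have hval : VV X c b a (Function.update q i y) = VV X c b a q :=
    units_indep hk X hX c b a i hbc.symm hab.symm hac.symm hic hib hia q hq y hq'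
  -- derivatives agree
  have hder : deriv (fun x => VV X c b a (Function.update (Function.update q i y) a x))
      ((Function.update q i y) a) = deriv (fun x => VV X c b a (Function.update q a x)) (q a) := by
    rw [Function.update_of_ne hia.symm]
    apply Filter.EventuallyEq.deriv_eq
    have hn : {x | Function.update q a x ∈ Conf k} ∈ nhds (q a) :=
      (isOpen_line a).mem_nhds (self_mem hq a)
    have hn' : {x | Function.update (Function.update q i y) a x ∈ Conf k} ∈ nhds (q a) := by
      have h := (isOpen_line a).mem_nhds (self_mem hq' a)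
      rwa [Function.update_of_ne hia.symm] at h
    filter_upwards [hn, hn'] with x hx hx'
    have h5 : Function.update (Function.update q i y) a x = Function.update (Function.update q a x) i y :=
      Function.update_comm hia _ _ _
    rw [h5]
    rw [h5] at hx'
    exact units_indep hk X hX c b a i hbc.symm hab.symm hac.symm hic hib hia _ hx y hx'
  rw [hM.der c b a hbc.symm hab.symm hac.symm _ hq' a, hM.der c b a hbc.symm hab.symm hac.symm _ hq a,
    hval] at hder
  have h6 := mul_left_cancel₀ (VV_ne_zero hX hbc.symm hac.symm hq) hder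
  have hi : i ∈ Finset.univ.erase a := Finset.mem_erase.mpr ⟨hia, Finset.mem_univ _⟩
  rw [← Finset.add_sum_erase _ _ hi, ← Finset.add_sum_erase _ _ hi] at h6
  have h7 : ∑ j ∈ (Finset.univ.erase a).erase i,
      M c b a a j / (Function.update q i y a - Function.update q i y j) =
      ∑ j ∈ (Finset.univ.erase a).erase i, M c b a a j / (q a - q j) := by
    apply Finset.sum_congr rfl
    intro j hj
    rw [Function.update_of_ne hia.symm, Function.update_of_ne (Finset.ne_of_mem_erase hj)]
  rw [h7] at h6
  have h8 := add_right_cancel h6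
  rw [Function.update_of_ne hia.symm, Function.update_self] at h8
  have h9 : q a - y ≠ 0 := sub_ne_zero.mpr (hyq a).symm
  have h10 := conf_ne hq hia.symm
  rw [div_eq_div_iff h9 h10] at h8
  have h11 : M c b a a i * (y - q i) = 0 := by linear_combination h8
  rcases mul_eq_zero.mp h11 with h | h
  · exact h
  · exact absurd (sub_eq_zero.mp h) (hyq i)

/-- the main relation. -/
theorem main_rel (hk : 5 ≤ k) (hX : Eqv X) {M : Fin k → Fin k → Fin k → Fin k → Fin k → ℂ} (hM : MM X M)
    {a b c : Fin k} (hab : a ≠ b) (hbc : b ≠ c) (hac : a ≠ c) {q : Fin k → ℂ} (hq : q ∈ Conf k) :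
    VV X a b c q * (M a b c a b * (q b - q c) -
      (M c b a a b * (q a - q c) + M c b a a c * (q a - q b))) =
      - (M c b a a b * (q a - q c) + M c b a a c * (q a - q b)) := by
  have h1 := deriv_addV hX (b := b) hac hq a
  rw [hM.der a b c hab hbc hac q hq a, hM.der c b a hbc.symm hab.symm hac.symm q hq a,
    sum_two (M a b c a) hab hbc hac (fun i h2 h3 h4 => M_first_out hM hab hbc hac h2 h3 h4),
    sum_two (M c b a a) hab hbc hac (fun i h2 h3 h4 => M_last_out hk hX hM hab hbc hac h2 h3 h4),
    M_first_bc hM hab hbc hac] at h1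
  have h2 : VV X c b a q = 1 - VV X a b c q := by
    linear_combination VV_one_sub hX (b := b) hac hq
  rw [h2] at h1
  have h3 := conf_ne hq hab
  have h4 := conf_ne hq hac
  field_simp at h1
  linear_combination h1

/-- the three cases. -/
theorem cases3 (hk : 5 ≤ k) (hX : Eqv X) {M : Fin k → Fin k → Fin k → Fin k → Fin k → ℂ} (hM : MM X M)
    {a b c : Fin k} (hab : a ≠ b) (hbc : b ≠ c) (hac : a ≠ c) :
    (∀ q ∈ Conf k, VV X a b c q = (q a - q b) / (q a - q c)) ∨
    (∀ q ∈ Conf k, VV X a b c q = (q a - q c) / (q a - q b)) ∨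
    M a b c a b = 0 := by
  set s := M a b c a b with hs
  set t := M c b a a b with ht
  set u := M c b a a c with hu
  have hE : ∀ q ∈ Conf k, VV X a b c q * (s * (q b - q c) - (t * (q a - q c) + u * (q a - q b))) =
      - (t * (q a - q c) + u * (q a - q b)) := fun q hq => main_rel hk hX hM hab hbc hac hq
  by_cases hs0 : s = 0
  · exact Or.inr (Or.inr hs0)
  have hv0 : ∀ q ∈ Conf k, VV X a b c q ≠ 0 := fun q hq => VV_ne_zero hX hab hac hq
  have hv1 : ∀ q ∈ Conf k, VV X a b c q ≠ 1 := by
    intro q hq h
    have h1 := VV_one_sub hX (b := b) hac hq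
    rw [h] at h1
    exact VV_ne_zero hX hbc.symm hac.symm hq (by linear_combination h1)
  by_cases htu : t + u = 0
  · -- then `V` is constant
    exfalso
    have hu' : u = -t := by linear_combination htu
    have hE' : ∀ q ∈ Conf k, VV X a b c q * (s - t) = - t := by
      intro q hq
      have h1 := hE q hq
      rw [hu'] at h1
      have h2 : (VV X a b c q * (s - t) + t) * (q b - q c) = 0 := by linear_combination h1
      rcases mul_eq_zero.mp h2 with h | h
      · linear_combination h
      · exact absurd h (conf_ne hq hbc)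
    have hst : s - t ≠ 0 := by
      intro h
      obtain ⟨q, hq⟩ : ∃ q : Fin k → ℂ, q ∈ Conf k := (conf_connected k).nonempty
      have h1 := hE' q hq
      rw [h] at h1
      apply hs0
      linear_combination h + h1
    obtain ⟨q, hq, hqa, hqb, hqc⟩ := exists_conf hab hbc hac (x := 2) (β := 1) (γ := 0)
      (by norm_num) (by norm_num) (by norm_num)
    have h1 := hM.der a b c hab hbc hac q hq a
    rw [sum_two (M a b c a) hab hbc hac (fun i h2 h3 h4 => M_first_out hM hab hbc hac h2 h3 h4),
      M_first_bc hM hab hbc hac] at h1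
    have h2 : (fun x => VV X a b c (Function.update q a x)) =ᶠ[nhds (q a)] fun _ => -t / (s - t) := by
      have hn : {x | Function.update q a x ∈ Conf k} ∈ nhds (q a) :=
        (isOpen_line a).mem_nhds (self_mem hq a)
      filter_upwards [hn] with x hx
      rw [eq_div_iff hst]
      exact hE' _ hx
    rw [h2.deriv_eq, deriv_const, hqa, hqb, hqc, ← hs] at h1
    have h3 := hv0 q hq
    apply hs0
    have h4 : VV X a b c q * s = 0 := by
      have h5 : (0 : ℂ) = VV X a b c q * (s / (2 - 1) + -s / (2 - 0)) := h1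
      have h6 : s / (2 - 1) + -s / (2 - 0) = s / 2 := by ring
      rw [h6] at h5
      linear_combination (-2 : ℂ) * h5
    rcases mul_eq_zero.mp h4 with h | h
    · exact absurd h h3
    · exact h
  · -- the zero of `l`
    have key : t = 0 ∨ u = 0 := by
      by_contra hcon
      rw [not_or] at hcon
      obtain ⟨ht0, hu0⟩ := hcon
      -- x₀ = u / (t + u), β = 1, γ = 0
      have hx1 : u / (t + u) ≠ 1 := by
        intro h
        rw [div_eq_one_iff_eq htu] at h
        exact ht0 (by linear_combination -h)
      have hx0 : u / (t + u) ≠ 0 := div_ne_zero hu0 htu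
      obtain ⟨q, hq, hqa, hqb, hqc⟩ := exists_conf hab hbc hac (x := u / (t + u)) (β := 1) (γ := 0)
        hx1 (by norm_num) hx0
      have h1 := hE q hq
      rw [hqa, hqb, hqc] at h1
      have h2 : t * (u / (t + u) - 0) + u * (u / (t + u) - 1) = 0 := by
        field_simp
        ring
      rw [h2] at h1
      have h3 : VV X a b c q * s = 0 := by linear_combination h1
      rcases mul_eq_zero.mp h3 with h | h
      · exact hv0 q hq h
      · exact hs0 h
    rcases key with ht0 | hu0
    · -- t = 0, u ≠ 0
      left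
      have hu0 : u ≠ 0 := by
        intro h
        exact htu (by rw [ht0, h, add_zero])
      -- x₁ = 1 + s / u
      have hus : u = - s := by
        by_contra hne
        have hx1 : 1 + s / u ≠ 1 := by
          intro h
          have : s / u = 0 := by linear_combination h
          exact (div_ne_zero hs0 hu0) this
        have hx0 : 1 + s / u ≠ 0 := by
          intro h
          apply hne
          field_simp at h
          linear_combination h
        obtain ⟨q, hq, hqa, hqb, hqc⟩ := exists_conf hab hbc hac (x := 1 + s / u) (β := 1) (γ := 0)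
          hx1 (by norm_num) hx0
        have h1 := hE q hq
        rw [hqa, hqb, hqc, ht0] at h1
        have h2 : u * (1 + s / u - 1) = s := by
          field_simp
          ring
        rw [h2] at h1
        apply hs0
        linear_combination h1
      intro q hq
      have h1 := hE q hq
      rw [ht0, hus] at h1
      have h2 := conf_ne hq hac
      rw [eq_div_iff h2]
      have h3 : s * (VV X a b c q * (q a - q c) - (q a - q b)) = 0 := by linear_combination h1
      rcases mul_eq_zero.mp h3 with h | h
      · exact absurd h hs0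
      · linear_combination h
    · right; left
      have ht0 : t ≠ 0 := by
        intro h
        exact htu (by rw [hu0, h, add_zero])
      have hts : t = s := by
        by_contra hne
        have hx1 : s / t ≠ 1 := by
          intro h
          rw [div_eq_one_iff_eq ht0] at h
          exact hne h.symm
        have hx0 : s / t ≠ 0 := div_ne_zero hs0 ht0
        obtain ⟨q, hq, hqa, hqb, hqc⟩ := exists_conf hab hbc hac (x := s / t) (β := 1) (γ := 0)
          hx1 (by norm_num) hx0
        have h1 := hE q hq
        rw [hqa, hqb, hqc, hu0] at h1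
        have h2 : t * (s / t - 0) = s := by
          field_simp
          ring
        rw [h2] at h1
        apply hs0
        linear_combination h1
      intro q hq
      have h1 := hE q hq
      rw [hu0, hts] at h1
      have h2 := conf_ne hq hab
      rw [eq_div_iff h2]
      have h3 : s * (VV X a b c q * (q a - q b) - (q a - q c)) = 0 := by linear_combination (-1 : ℂ) * h1
      rcases mul_eq_zero.mp h3 with h | h
      · exact absurd h hs0
      · linear_combination h

/-- sections in the first direction are constant if `s = 0`. -/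
theorem first_const (hX : Eqv X) {M : Fin k → Fin k → Fin k → Fin k → Fin k → ℂ} (hM : MM X M)
    {a b c : Fin k} (hab : a ≠ b) (hbc : b ≠ c) (hac : a ≠ c) (hs : M a b c a b = 0)
    {q : Fin k → ℂ} (hq : q ∈ Conf k) {x : ℂ} (hx : Function.update q a x ∈ Conf k) :
    VV X a b c (Function.update q a x) = VV X a b c q := by
  have h1 : ∀ r ∈ Conf k, deriv (fun x => VV X a b c (Function.update r a x)) (r a) = 0 := by
    intro r hr
    rw [hM.der a b c hab hbc hac r hr a,
      sum_two (M a b c a) hab hbc hac (fun i h2 h3 h4 => M_first_out hM hab hbc hac h2 h3 h4),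
      M_first_bc hM hab hbc hac, hs]
    simp
  have h2 : Set.EqOn (deriv fun x => VV X a b c (Function.update q a x)) 0
      {x | Function.update q a x ∈ Conf k} := by
    intro y hy
    have h3 := h1 _ hy
    rw [Function.update_self] at h3
    simp only [Function.update_idem] at h3
    exact h3
  have h3 := (isOpen_line a).is_const_of_deriv_eq_zero (preconn_line hq a) (diff_line hX (b := b) hac hq a) h2
    hx (self_mem hq a)
  simp only [Function.update_eq_self] at h3
  exact h3

end Aff

open Aff in
theorem units_affine {k : ℕ} (hk : 5 ≤ k) (X : (Fin k → ℂ) → (Fin k → ℂ)) (hX : Eqv X) :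
    ∃ y : (Fin k → ℂ) → ℂ, (∀ q ∈ Conf k, y q ≠ 0) ∧
      ∀ q ∈ Conf k, ∀ a b, X q a - X q b = y q * (q a - q b) := by
  obtain ⟨M, hM1, hM2, hM3⟩ := units_M X hX
  have hM : MM X M := ⟨hM1, hM2, hM3⟩
  let a₀ : Fin k := ⟨0, by omega⟩
  let b₀ : Fin k := ⟨1, by omega⟩
  let c₀ : Fin k := ⟨2, by omega⟩
  have hab₀ : a₀ ≠ b₀ := by simp [a₀, b₀, Fin.ext_iff]
  have hbc₀ : b₀ ≠ c₀ := by simp [b₀, c₀, Fin.ext_iff]
  have hac₀ : a₀ ≠ c₀ := by simp [a₀, c₀, Fin.ext_iff]
  have hall : ∀ a b c : Fin k, a ≠ b → b ≠ c → a ≠ c → ∀ q ∈ Conf k,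
      VV X a b c q = (q a - q b) / (q a - q c) := by
    rcases cases3 hk hX hM hab₀ hbc₀ hac₀ with h | h | h
    · intro a b c hab hbc hac q hq
      obtain ⟨π, h1, h2, h3⟩ := exists_perm hab₀ hbc₀ hac₀ hab hbc hac
      have h4 := VV_eqv hX a₀ b₀ c₀ π hq
      rw [h1, h2, h3] at h4
      rw [← h4, h _ (comp_mem hq π)]
      simp only [Function.comp_apply, h1, h2, h3]
    · exfalso
      have h' : ∀ a b c : Fin k, a ≠ b → b ≠ c → a ≠ c → ∀ q ∈ Conf k,
          VV X a b c q = (q a - q c) / (q a - q b) := by
        intro a b c hab hbc hac q hq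
        obtain ⟨π, h1, h2, h3⟩ := exists_perm hab₀ hbc₀ hac₀ hab hbc hac
        have h4 := VV_eqv hX a₀ b₀ c₀ π hq
        rw [h1, h2, h3] at h4
        rw [← h4, h _ (comp_mem hq π)]
        simp only [Function.comp_apply, h1, h2, h3]
      obtain ⟨q, hq, hqa, hqb, hqc⟩ := exists_conf hab₀ hbc₀ hac₀ (x := 0) (β := 1) (γ := 2)
        (by norm_num) (by norm_num) (by norm_num)
      have h5 := VV_one_sub hX (b := b₀) hac₀ hq
      rw [h' _ _ _ hab₀ hbc₀ hac₀ q hq, h' _ _ _ hbc₀.symm hab₀.symm hac₀.symm q hq, hqa, hqb, hqc] at h5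
      norm_num at h5
    · exfalso
      -- all `s` vanish
      have hs : ∀ a b c : Fin k, a ≠ b → b ≠ c → a ≠ c → M a b c a b = 0 := by
        intro a b c hab hbc hac
        obtain ⟨π, h1, h2, h3⟩ := exists_perm hab₀ hbc₀ hac₀ hab hbc hac
        have h4 := hM.eqv a₀ b₀ c₀ hab₀ hbc₀ hac₀ π a₀ b₀ hab₀
        rw [h1, h2, h3, h] at h4
        exact h4
      -- all sections are constant
      have hd : ∀ a b c : Fin k, a ≠ b → b ≠ c → a ≠ c → ∀ d, (d = a ∨ d = b ∨ d = c) → ∀ q ∈ Conf k,
          ∀ x, Function.update q d x ∈ Conf k → VV X a b c (Function.update q d x) = VV X a b c q := by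
        intro a b c hab hbc hac d hd q hq x hx
        rcases hd with rfl | rfl | rfl
        · exact first_const hX hM hab hbc hac (hs _ _ _ hab hbc hac) hq hx
        · -- direction of the second
          have h1 := first_const hX hM hbc hac.symm hab.symm (hs _ _ _ hbc hac.symm hab.symm) hq hx
          have h2 := VV_one_sub hX (b := c) hab hx
          have h3 := VV_one_sub hX (b := c) hab hq
          have h4 := VV_inv hX hab hac hx
          have h5 := VV_inv hX hab hac hq
          have h6 : VV X a c d (Function.update q d x) = VV X a c d q := by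
            linear_combination h2 - h3 - h1
          rw [h6] at h4
          have h7 := VV_ne_zero hX (c := d) hac hab hq
          exact mul_right_cancel₀ h7 (h4.trans h5.symm)
        · have h1 := first_const hX hM hbc.symm hab.symm hac.symm (hs _ _ _ hbc.symm hab.symm hac.symm) hq hx
          have h2 := VV_one_sub hX (b := b) hac hx
          have h3 := VV_one_sub hX (b := b) hac hq
          linear_combination h2 - h3 - h1
      -- swapping two coordinates
      have hsw : ∀ a b c : Fin k, a ≠ b → b ≠ c → a ≠ c → ∀ d e, (d = a ∨ d = b ∨ d = c) →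
          (e = a ∨ e = b ∨ e = c) → d ≠ e → ∀ q ∈ Conf k,
          VV X a b c (q ∘ Equiv.swap d e) = VV X a b c q := by
        intro a b c hab hbc hac d e hd' he hde q hq
        have hinf : ((Set.range q)ᶜ).Infinite := (Set.finite_range q).infinite_compl
        obtain ⟨z, hz⟩ := hinf.nonempty
        have hzq : ∀ j, z ≠ q j := by
          intro j h
          exact hz ⟨j, h.symm⟩
        have m1 : Function.update q d z ∈ Conf k := (update_mem hq d z).mpr fun j _ => hzq j
        have m2 : Function.update (Function.update q d z) e (q d) ∈ Conf k := by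
          rw [update_mem m1]
          intro j hj
          by_cases hjd : j = d
          · subst hjd
            rw [Function.update_self]
            exact (hzq j).symm
          · rw [Function.update_of_ne hjd]
            exact fun h => hjd (hq h).symm
        have m3' : Function.update (Function.update (Function.update q d z) e (q d)) d (q e) =
            q ∘ Equiv.swap d e := by
          funext j
          by_cases hjd : j = d
          · subst hjd
            simp
          · by_cases hje : j = e
            · subst hje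
              rw [Function.update_of_ne hjd, Function.update_self]
              simp
            · rw [Function.update_of_ne hjd, Function.update_of_ne hje, Function.update_of_ne hjd]
              simp [Equiv.swap_apply_of_ne_of_ne hjd hje]
        have m3 : Function.update (Function.update (Function.update q d z) e (q d)) d (q e) ∈ Conf k := by
          rw [m3']
          exact comp_mem hq _
        rw [← m3', hd a b c hab hbc hac d hd' _ m2 _ m3, hd a b c hab hbc hac e he _ m1 _ m2,
          hd a b c hab hbc hac d hd' _ hq _ m1]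
      obtain ⟨q, hq⟩ : ∃ q : Fin k → ℂ, q ∈ Conf k := (conf_connected k).nonempty
      have e1 := hsw a₀ b₀ c₀ hab₀ hbc₀ hac₀ b₀ c₀ (by simp) (by simp) hbc₀ q hq
      have e2 := hsw a₀ b₀ c₀ hab₀ hbc₀ hac₀ a₀ c₀ (by simp) (by simp) hac₀ q hq
      rw [VV_eqv hX _ _ _ _ hq, Equiv.swap_apply_of_ne_of_ne hab₀ hac₀, Equiv.swap_apply_left,
        Equiv.swap_apply_right] at e1
      rw [VV_eqv hX _ _ _ _ hq, Equiv.swap_apply_left, Equiv.swap_apply_right,
        Equiv.swap_apply_of_ne_of_ne hab₀.symm hbc₀] at e2
      have e3 := VV_inv hX hab₀ hac₀ hq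
      have e4 := VV_one_sub hX (b := b₀) hac₀ hq
      rw [e1] at e3
      rw [e2] at e4
      have e5 : (3 : ℂ) = 0 := by
        linear_combination (-4 : ℂ) * e3 + (2 * VV X a₀ b₀ c₀ q + 1) * e4
      norm_num at e5
  have hr : ∀ q ∈ Conf k, ∀ a b c : Fin k, a ≠ b → a ≠ c →
      (X q a - X q b) / (q a - q b) = (X q a - X q c) / (q a - q c) := by
    intro q hq a b c hab hac
    by_cases hbc : b = c
    · rw [hbc]
    · have h1 := hall a b c hab hbc hac q hq
      unfold VV at h1
      have h2 := sub_ne hX hac hq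
      have h3 := conf_ne hq hab
      have h4 := conf_ne hq hac
      rw [div_eq_div_iff h2 h4] at h1
      rw [div_eq_div_iff h3 h4]
      linear_combination h1
  have hrs : ∀ q ∈ Conf k, ∀ a b : Fin k, a ≠ b →
      (X q a - X q b) / (q a - q b) = (X q b - X q a) / (q b - q a) := by
    intro q hq a b hab
    rw [← neg_sub (X q b), ← neg_sub (q b), neg_div_neg_eq]
  refine ⟨fun q => (X q a₀ - X q b₀) / (q a₀ - q b₀), ?_, ?_⟩
  · intro q hq
    exact div_ne_zero (sub_ne hX hab₀ hq) (conf_ne hq hab₀)
  · intro q hq a b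
    by_cases hab : a = b
    · rw [hab]; simp
    have key : (X q a - X q b) / (q a - q b) = (X q a₀ - X q b₀) / (q a₀ - q b₀) := by
      by_cases ha : a = a₀
      · subst ha
        exact hr q hq _ _ _ hab hab₀
      · rw [hr q hq a b a₀ hab ha, hrs q hq a a₀ ha]
        exact hr q hq a₀ a b₀ (Ne.symm ha) hab₀
    change X q a - X q b = (X q a₀ - X q b₀) / (q a₀ - q b₀) * (q a - q b)
    rw [← key, div_mul_cancel₀ _ (conf_ne hq hab)]

end Pool.Agent.Helper2.LN2
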