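import Pool.Agent.Helper2.LN2.ELat

/-!
# LN2-L6 (MP_730da0_ag): arithmetic

Paper proof.  In real coordinates `z = x + h t` (`rep`, `mem_Lat_iff`).  Every `p = x + h t ∈ EE k t` has `2h ∈ ℤ`; if moreover `h ∉ ℤ` then `2 p ∈ Lat t`.
COSET: let `r` be real and `w₀ + r λ ∈ EE k t` for all `λ ∈ Lat t`.  Write `w₀ = x₀ + h₀ t`.  `λ = 0` and `λ = t`: `2 h₀, 2 (h₀ + r) ∈ ℤ`, so `2 r ∈ ℤ`.  If `r ∉ ℤ`, then one of `h₀, h₀ + r` is not an integer; for the corresponding `λ` (`0` or `t`)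
`2 (w₀ + r λ) ∈ Lat t`, and `2 r λ ∈ Lat t`, so `2 w₀ ∈ Lat t`.
Now suppose the four exclusions hold for all `p ∉ EE k t`.
`c = 0`: `p = κ`: if `κ ∉ EE` then `(κ + c p) - p = 0 ∈ Lat t`, contradiction; if `κ ∈ EE` then `2κ ∈ Lat t` or `κ ∓ 1/j ∈ Lat t`, contradiction to the exclusions at any `p ∉ EE` (`EE` is countable, so there is one).
`c ≠ 0`: for `λ ∈ Lat t` the point `p = (λ/2 - κ)/c` has `2 (κ + c p) = λ ∈ Lat t`, so `p ∈ EE`: COSET with `w₀ = -κ/c`, `r = 1/(2c)`: `1/c = M ∈ ℤ`, `M ≠ 0`.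
`c ≠ 1`: for `λ ∈ Lat t` the point `p = (λ - κ)/(c - 1)` has `(κ + c p) - p = λ`, so `p ∈ EE`: COSET with `w₀ = -κ/(c-1)`, `r = 1/(c-1)`: `2/(c-1) ∈ ℤ`, and `1/(c-1) ∉ ℤ ⇒ 2κ/(c-1) ∈ Lat t`.  `c ≠ -1`: in the same way with `c + 1`.
`c = 1`: `(κ + p) - p = κ ∉ Lat t`; `r = 1/(c+1) = 1/2 ∉ ℤ`, so `2κ/2 = κ ∈ Lat t`: contradiction.  `c = -1`: `(κ - p) + p = κ ∉ Lat t`, `r = 1/(c-1) = -1/2 ∉ ℤ`, `2κ/(-2) ∈ Lat t`: contradiction.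
`c ≠ 0, 1, -1`: `c = 1/M`, `2/(c-1) = 2M/(1-M) ∈ ℤ`, so `(1-M) ∣ 2` (`2M/(1-M) = -2 + 2/(1-M)`), `M ∈ {2, 3, -1, 0}`, `M ∈ {2, 3}`; `2/(c+1) = 2M/(1+M) = 2 - 2/(1+M) ∈ ℤ`, `(1+M) ∣ 2`, `M ∈ {-2, -3, 0, 1}`: contradiction.
-/

namespace Pool.Agent.Helper2.LN2

open Pool.Agent.Helper2.LN

theorem coset (k : ℕ) {t : ℂ} (ht : t ∈ HH) (r : ℝ) (w₀ : ℂ) (h : ∀ l ∈ Lat t, w₀ + r * l ∈ EE k t) :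
    (∃ n : ℤ, 2 * r = n) ∧ ((∀ n : ℤ, r ≠ n) → 2 * w₀ ∈ Lat t) := by
  sorry

theorem arith (k : ℕ) {t : ℂ} (ht : t ∈ HH) (c : ℝ) (κ : ℂ)
    (h1 : ∀ p ∉ EE k t, 2 * (κ + c * p) ∉ Lat t)
    (h2 : ∀ p ∉ EE k t, (κ + c * p) - p ∉ Lat t ∧ (κ + c * p) + p ∉ Lat t)
    (h3 : ∀ p ∉ EE k t, ∀ j : ℕ, 4 ≤ j → j < k →
      (κ + c * p) - 1 / (j : ℂ) ∉ Lat t ∧ (κ + c * p) + 1 / (j : ℂ) ∉ Lat t) : False := by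
  sorry

end Pool.Agent.Helper2.LN2
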