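import Pool.Agent.Helper2.LN.Sys

/-!
# LN2-T3 (MP_730da0_ag): the space `Conf k`

Paper proofs.  `isOpen_Conf`: finite intersection of `{q : q_i ≠ q_j}`.  `conf_connected`: for `q, q' ∈ Conf k` the set of `z ∈ ℂ` with `q + z (q' - q) ∉ Conf k` is finite (for each pair `i ≠ j` a nonzero polynomial of degree `≤ 1` in `z`, its value at `0` is
`q_i - q_j ≠ 0`); its complement in `ℂ` is path connected (`Set.Countable.isPathConnected_compl_of_one_lt_rank`) and contains `0` and `1`; map the path.  Nonempty: `base k`.
`update_mem`: `update q d x ∈ Conf k` iff `x ≠ q_i` for all `i ≠ d` (for `q ∈ Conf k`).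
-/

namespace Pool.Agent.Helper2.LN2

open Pool.Agent.Helper2.LN

private theorem conf_eq (k : ℕ) : Conf k = ⋂ i : Fin k, ⋂ j : Fin k, {q | i ≠ j → q i ≠ q j} := by
  ext q
  simp only [Set.mem_iInter, Set.mem_ofPred_eq]
  constructor
  · intro h i j hij he
    exact hij (h he)
  · intro h i j he
    by_contra hij
    exact h i j hij he

theorem isOpen_Conf (k : ℕ) : IsOpen (Conf k) := by
  rw [conf_eq]
  refine isOpen_iInter_of_finite fun i => isOpen_iInter_of_finite fun j => ?_
  by_cases hij : i = j
  · have : {q : Fin k → ℂ | i ≠ j → q i ≠ q j} = Set.univ := by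
      ext q
      simp [hij]
    rw [this]
    exact isOpen_univ
  · have : {q : Fin k → ℂ | i ≠ j → q i ≠ q j} = {q : Fin k → ℂ | q i = q j}ᶜ := by
      ext q
      simp [hij]
    rw [this]
    exact (isClosed_eq (continuous_apply i) (continuous_apply j)).isOpen_compl

private theorem bad_finite {k : ℕ} {q q' : Fin k → ℂ} (hq : q ∈ Conf k) :
    {z : ℂ | (q + z • (q' - q)) ∉ Conf k}.Finite := by
  have hsub : {z : ℂ | (q + z • (q' - q)) ∉ Conf k} ⊆
      ⋃ i : Fin k, ⋃ j : Fin k, {z : ℂ | i ≠ j ∧ (q i - q j) + z * ((q' i - q i) - (q' j - q j)) = 0} := by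
    intro z hz
    simp only [Set.mem_ofPred_eq] at hz
    have : ∃ i j, (q + z • (q' - q)) i = (q + z • (q' - q)) j ∧ i ≠ j := by
      by_contra hcon
      push Not at hcon
      exact hz fun i j h => hcon i j h
    obtain ⟨i, j, h, hij⟩ := this
    refine Set.mem_iUnion.2 ⟨i, Set.mem_iUnion.2 ⟨j, hij, ?_⟩⟩
    simp only [Pi.add_apply, Pi.smul_apply, Pi.sub_apply, smul_eq_mul] at h
    linear_combination h
  refine Set.Finite.subset (Set.finite_iUnion fun i => Set.finite_iUnion fun j => ?_) hsub
  refine Set.Subsingleton.finite ?_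
  rintro z ⟨hij, hz⟩ w ⟨-, hw⟩
  have hne : q i - q j ≠ 0 := sub_ne_zero.2 fun h => hij (hq h)
  have hd : ((q' i - q i) - (q' j - q j)) ≠ 0 := by
    intro h0
    rw [h0] at hz
    simp at hz
    exact hne hz
  have : z * ((q' i - q i) - (q' j - q j)) = w * ((q' i - q i) - (q' j - q j)) := by
    linear_combination hz - hw
  exact mul_right_cancel₀ hd this

theorem conf_connected (k : ℕ) : IsPathConnected (Conf k) := by
  refine ⟨base k, ?_, ?_⟩
  · intro i j h
    simp only [base] at h
    exact Fin.ext (by exact_mod_cast h)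
  · intro q' hq'
    have hq : base k ∈ Conf k := by
      intro i j h
      simp only [base] at h
      exact Fin.ext (by exact_mod_cast h)
    have hfin := bad_finite (q' := q') hq
    have hpc := hfin.countable.isPathConnected_compl_of_one_lt_rank (by
      rw [Complex.rank_real_complex]
      exact Nat.one_lt_ofNat)
    have h0 : (0 : ℂ) ∈ {z : ℂ | (base k + z • (q' - base k)) ∉ Conf k}ᶜ := by
      simp only [Set.mem_compl_iff, Set.mem_ofPred_eq, not_not]
      simpa using hq
    have h1 : (1 : ℂ) ∈ {z : ℂ | (base k + z • (q' - base k)) ∉ Conf k}ᶜ := by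
      simp only [Set.mem_compl_iff, Set.mem_ofPred_eq, not_not]
      simpa using hq'
    have hj := hpc.joinedIn 0 h0 1 h1
    obtain ⟨γ, hγ⟩ := hj
    refine ⟨⟨⟨fun t => base k + (γ t) • (q' - base k), by fun_prop⟩, ?_, ?_⟩, ?_⟩
    · simp
    · simp
    · intro t
      have := hγ t
      simp only [Set.mem_compl_iff, Set.mem_ofPred_eq, not_not] at this
      exact this

theorem update_mem {k : ℕ} {q : Fin k → ℂ} (hq : q ∈ Conf k) (d : Fin k) (x : ℂ) :
    Function.update q d x ∈ Conf k ↔ ∀ i, i ≠ d → x ≠ q i := by
  constructor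
  · intro h i hi hx
    apply hi
    apply h
    rw [Function.update_of_ne hi, Function.update_self, hx]
  · intro h i j hij
    by_cases hi : i = d
    · by_cases hj : j = d
      · rw [hi, hj]
      · rw [hi, Function.update_self, Function.update_of_ne hj] at hij
        exact absurd hij (h j hj)
    · by_cases hj : j = d
      · rw [hj, Function.update_self, Function.update_of_ne hi] at hij
        exact absurd hij.symm (h i hi)
      · rw [Function.update_of_ne hi, Function.update_of_ne hj] at hij
        exact hq hij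

theorem update_diff {k : ℕ} (q : Fin k → ℂ) (d : Fin k) : Differentiable ℂ (fun x : ℂ => Function.update q d x) := by
  rw [differentiable_pi]
  intro i
  by_cases hi : i = d
  · subst hi
    simp
  · simp only [Function.update_of_ne hi]
    exact differentiable_const _

theorem update_comp {k : ℕ} (q : Fin k → ℂ) (d : Fin k) (x : ℂ) (π : Equiv.Perm (Fin k)) :
    Function.update (q ∘ π) d x = Function.update q (π d) x ∘ π := by
  funext i
  by_cases hi : i = d
  · subst hi
    simp
  · have : π i ≠ π d := fun h => hi (π.injective h)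
    simp [Function.update_of_ne hi, Function.update_of_ne this]

end Pool.Agent.Helper2.LN2
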