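import Pool.Agent.Helper2.LN2.LogDer
import Pool.Agent.Helper2.LN2.ConfTop

/-!
# LN2-U3 (MP_730da0_ag): units on `Conf k`

Paper proof.  For `q ∈ Conf k` and `d` let `v_q(x) = V(update q d x)`, a function on `ℂ ∖ A`, `A = {q_i : i ≠ d}` (`update_mem`).  `logder_sum`: `v_q'/v_q = ∑_(i ≠ d) M_i(q)/(x - q_i)` with unique `M_i(q)` (`partial_unique`).
`M_i` is locally constant on `Conf k`: let `q⁰ ∈ Conf k`, `i ≠ d`, `ρ > 0` with `3ρ < |q⁰_i - q⁰_j|` for all `j ≠ i, d`.  For `q` near `q⁰` (`|q_j - q⁰_j| < ρ/2` for all `j ≠ d`) the circle `|x - q⁰_i| = ρ` lies in the domain of `v_q` and `v_(q⁰)`, and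
`∮ v_q'/v_q dx = 2πi M_i(q)` (`q_i` inside, the other `q_j` outside: partial fractions, `circleIntegral` of `1/(x - q_j)`).  By compactness and continuity of `V`, for `q` near `q⁰`: `|v_q(x)/v_(q⁰)(x) - 1| < 1` for all `x` on the circle, so on a
neighbourhood of the circle `v_q/v_(q⁰)` has the holomorphic logarithm `Complex.log (v_q/v_(q⁰))`, whose derivative is `v_q'/v_q - v_(q⁰)'/v_(q⁰)`: its circle integral is `0` (`circleIntegral.integral_eq_zero_of_hasDerivWithinAt`), so
`M_i(q) = M_i(q⁰)`.
`Conf k` is connected (`conf_connected`), so `M_i(q) = m d i` is constant.  At `x = q_d`: the claim.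
-/

namespace Pool.Agent.Helper2.LN2

open Pool.Agent.Helper2.LN

open Topology

private theorem exists_logder {k : ℕ} (V : (Fin k → ℂ) → ℂ) (h0 : ∀ q ∈ Conf k, V q ≠ 0)
    (h1 : ∀ q ∈ Conf k, V q ≠ 1)
    (hd : ∀ q ∈ Conf k, ∀ d, DifferentiableOn ℂ (fun x => V (Function.update q d x)) {x | Function.update q d x ∈ Conf k})
    {q : Fin k → ℂ} (hq : q ∈ Conf k) (d : Fin k) :
    ∃ M : Fin k → ℂ, ∀ x, Function.update q d x ∈ Conf k →
      deriv (fun x => V (Function.update q d x)) x / V (Function.update q d x) =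
        ∑ i ∈ Finset.univ.erase d, M i / (x - q i) := by
  classical
  have hmem : ∀ x, x ∉ (Finset.univ.erase d).image q ↔ Function.update q d x ∈ Conf k := by
    intro x
    rw [update_mem hq d x]
    simp only [Finset.mem_image, Finset.mem_erase, Finset.mem_univ, and_true, not_exists, not_and]
    exact forall_congr' fun i => imp_congr_right fun _ => by rw [eq_comm]
  obtain ⟨m, hm⟩ := logder_sum ((Finset.univ.erase d).image q) (fun x => V (Function.update q d x))
    ((hd q hq d).mono fun x hx => (hmem x).1 hx) (fun x hx => h0 _ ((hmem x).1 hx))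
    (fun x hx => h1 _ ((hmem x).1 hx))
  refine ⟨fun i => m (q i), fun x hx => ?_⟩
  have h2 := hm x ((hmem x).2 hx)
  rw [Finset.sum_image (fun i _ j _ h => hq h)] at h2
  exact h2

/-- the circle integral of a sum of simple fractions with one pole inside -/
private theorem circle_sum {k : ℕ} (q : Fin k → ℂ) (d i : Fin k) (hi : i ≠ d) (c : ℂ) (ρ : ℝ)
    (hρ : 0 < ρ) (h1 : q i ∈ Metric.ball c ρ)
    (h2 : ∀ j, j ≠ d → j ≠ i → q j ∉ Metric.closedBall c ρ) (M : Fin k → ℂ) :
    (∮ x in C(c, ρ), ∑ j ∈ Finset.univ.erase d, M j / (x - q j)) = 2 * Real.pi * Complex.I * M i ∧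
      CircleIntegrable (fun x => ∑ j ∈ Finset.univ.erase d, M j / (x - q j)) c ρ := by
  classical
  have hne : ∀ z ∈ Metric.closedBall c ρ, ∀ j ∈ (Finset.univ.erase d).erase i, z - q j ≠ 0 := by
    intro z hz j hj h
    have hj2 := Finset.mem_erase.1 hj
    have hj3 := Finset.mem_erase.1 hj2.2
    exact h2 j hj3.1 hj2.1 (by rw [← sub_eq_zero.1 h]; exact hz)
  have hg : ∀ z ∈ Metric.closedBall c ρ,
      DifferentiableAt ℂ (fun x => ∑ j ∈ (Finset.univ.erase d).erase i, M j / (x - q j)) z := by
    intro z hz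
    refine DifferentiableAt.fun_sum fun j hj => ?_
    exact (differentiableAt_const _).div (differentiableAt_id.sub_const _) (hne z hz j hj)
  have hgc : ContinuousOn (fun x => ∑ j ∈ (Finset.univ.erase d).erase i, M j / (x - q j))
      (Metric.closedBall c ρ) := fun z hz => (hg z hz).continuousAt.continuousWithinAt
  have hz0 : (∮ x in C(c, ρ), ∑ j ∈ (Finset.univ.erase d).erase i, M j / (x - q j)) = 0 :=
    Complex.circleIntegral_eq_zero_of_differentiable_on_off_countable hρ.le Set.countable_empty hgc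
      fun z hz => hg z (Metric.ball_subset_closedBall hz.1)
  have hsp : ∀ z ∈ Metric.sphere c ρ, z - q i ≠ 0 := by
    intro z hz h
    rw [sub_eq_zero] at h
    rw [Metric.mem_sphere, h] at hz
    rw [Metric.mem_ball] at h1
    exact absurd hz h1.ne
  have hfi : ContinuousOn (fun x => M i / (x - q i)) (Metric.sphere c ρ) :=
    ContinuousOn.div continuousOn_const (continuousOn_id.sub continuousOn_const) hsp
  have hI1 : CircleIntegrable (fun x => M i / (x - q i)) c ρ := hfi.circleIntegrable hρ.le
  have hI2 : CircleIntegrable (fun x => ∑ j ∈ (Finset.univ.erase d).erase i, M j / (x - q j)) c ρ :=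
    (hgc.mono Metric.sphere_subset_closedBall).circleIntegrable hρ.le
  have hsum : (fun x => ∑ j ∈ Finset.univ.erase d, M j / (x - q j)) =
      fun x => M i / (x - q i) + ∑ j ∈ (Finset.univ.erase d).erase i, M j / (x - q j) := by
    funext x
    rw [Finset.add_sum_erase _ (fun j => M j / (x - q j)) (Finset.mem_erase.2 ⟨hi, Finset.mem_univ _⟩)]
  refine ⟨?_, ?_⟩
  · rw [hsum, circleIntegral.integral_add hI1 hI2, hz0, add_zero]
    have h3 : (fun x => M i / (x - q i)) = fun x => M i • (x - q i)⁻¹ := by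
      funext x
      rw [smul_eq_mul, div_eq_mul_inv]
    rw [h3, circleIntegral.integral_smul, circleIntegral.integral_sub_inv_of_mem_ball h1, smul_eq_mul]
    ring
  · rw [hsum]
    exact hI1.add hI2

private theorem logder_local {k : ℕ} (V : (Fin k → ℂ) → ℂ) (hc : ContinuousOn V (Conf k))
    (h0 : ∀ q ∈ Conf k, V q ≠ 0)
    (hd : ∀ q ∈ Conf k, ∀ d, DifferentiableOn ℂ (fun x => V (Function.update q d x)) {x | Function.update q d x ∈ Conf k})
    (d i : Fin k) (hi : i ≠ d) (M : (Fin k → ℂ) → Fin k → ℂ)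
    (hM : ∀ q ∈ Conf k, ∀ x, Function.update q d x ∈ Conf k →
      deriv (fun x => V (Function.update q d x)) x / V (Function.update q d x) =
        ∑ i ∈ Finset.univ.erase d, M q i / (x - q i))
    {q0 : Fin k → ℂ} (hq0 : q0 ∈ Conf k) :
    ∀ᶠ q in 𝓝 q0, q ∈ Conf k → M q i = M q0 i := by
  classical
  -- the radius
  obtain ⟨ρ, hρ, hsep⟩ : ∃ ρ : ℝ, 0 < ρ ∧ ∀ j, j ≠ i → 3 * ρ ≤ dist (q0 j) (q0 i) := by
    have : ∀ j, ∃ r : ℝ, 0 < r ∧ (j ≠ i → 3 * r ≤ dist (q0 j) (q0 i)) := by
      intro j
      by_cases hj : j = i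
      · exact ⟨1, one_pos, fun h => absurd hj h⟩
      · have hpos : 0 < dist (q0 j) (q0 i) := dist_pos.2 fun h => hj (hq0 h)
        exact ⟨dist (q0 j) (q0 i) / 3, by positivity, fun _ => by linarith⟩
    choose r hr hr2 using this
    have hne : (Finset.univ : Finset (Fin k)).Nonempty := ⟨i, Finset.mem_univ _⟩
    refine ⟨Finset.univ.inf' hne r, ?_, ?_⟩
    · rw [Finset.lt_inf'_iff]
      exact fun j _ => hr j
    · intro j hj
      have := Finset.inf'_le r (Finset.mem_univ j)
      linarith [hr2 j hj]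
  set c := q0 i with hcdef
  -- near the centre
  have hnear : ∀ᶠ q : Fin k → ℂ in 𝓝 q0, ∀ j, dist (q j) (q0 j) < ρ / 2 := by
    rw [Filter.eventually_all]
    intro j
    have hcont : Filter.Tendsto (fun q : Fin k → ℂ => q j) (𝓝 q0) (𝓝 (q0 j)) :=
      (continuous_apply j).tendsto q0
    exact hcont (Metric.ball_mem_nhds _ (by positivity))
  have hinside : ∀ q : Fin k → ℂ, (∀ j, dist (q j) (q0 j) < ρ / 2) → q i ∈ Metric.ball c ρ := by
    intro q hq
    rw [Metric.mem_ball]
    linarith [hq i]
  have houtside : ∀ q : Fin k → ℂ, (∀ j, dist (q j) (q0 j) < ρ / 2) →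
      ∀ j, j ≠ d → j ≠ i → q j ∉ Metric.closedBall c ρ := by
    intro q hq j _ hj h
    rw [Metric.mem_closedBall] at h
    have h1 := hsep j hj
    have h2 := dist_triangle (q0 j) (q j) c
    rw [dist_comm (q0 j) (q j)] at h2
    linarith [hq j]
  have hcirc : ∀ q : Fin k → ℂ, q ∈ Conf k → (∀ j, dist (q j) (q0 j) < ρ / 2) →
      ∀ x ∈ Metric.sphere c ρ, Function.update q d x ∈ Conf k := by
    intro q hq hqn x hx
    rw [update_mem hq]
    intro j hj hxj
    by_cases hji : j = i
    · have h1 := hinside q hqn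
      rw [Metric.mem_ball] at h1
      rw [Metric.mem_sphere, hxj, hji] at hx
      exact absurd hx h1.ne
    · apply houtside q hqn j hj hji
      rw [← hxj]
      exact Metric.sphere_subset_closedBall hx
  have hself : ∀ j, dist (q0 j) (q0 j) < ρ / 2 := fun j => by
    rw [dist_self]
    positivity
  -- closeness on the circle
  have hclose : ∀ᶠ q in 𝓝 q0, ∀ x ∈ Metric.sphere c ρ,
      ‖V (Function.update q d x) / V (Function.update q0 d x) - 1‖ < 1 := by
    refine IsCompact.eventually_forall_of_forall_eventually (isCompact_sphere c ρ) ?_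
    intro x hx
    have hx0 := hcirc q0 hq0 hself x hx
    have hV : ContinuousAt V (Function.update q0 d x) := hc.continuousAt ((isOpen_Conf k).mem_nhds hx0)
    have hu1 : ContinuousAt (fun z : (Fin k → ℂ) × ℂ => Function.update z.1 d z.2) (q0, x) := by
      fun_prop
    have hu2 : ContinuousAt (fun z : (Fin k → ℂ) × ℂ => Function.update q0 d z.2) (q0, x) := by
      fun_prop
    have hF : ContinuousAt (fun z : (Fin k → ℂ) × ℂ =>
        ‖V (Function.update z.1 d z.2) / V (Function.update q0 d z.2) - 1‖) (q0, x) := by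
      refine ((ContinuousAt.div ?_ ?_ ?_).sub continuousAt_const).norm
      · exact ContinuousAt.comp (g := V) (f := fun z : (Fin k → ℂ) × ℂ => Function.update z.1 d z.2) hV hu1
      · exact ContinuousAt.comp (g := V) (f := fun z : (Fin k → ℂ) × ℂ => Function.update q0 d z.2) hV hu2
      · exact h0 _ hx0
    have hlt : ‖V (Function.update q0 d x) / V (Function.update q0 d x) - 1‖ < 1 := by
      rw [div_self (h0 _ hx0)]
      simp
    exact hF.eventually_lt continuousAt_const hlt
  filter_upwards [hnear, hclose] with q hqn hqc hq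
  have hdiff : ∀ p ∈ Conf k, ∀ x, Function.update p d x ∈ Conf k →
      DifferentiableAt ℂ (fun x => V (Function.update p d x)) x := by
    intro p hp x hx
    have hop : IsOpen {x : ℂ | Function.update p d x ∈ Conf k} :=
      (isOpen_Conf k).preimage (update_diff p d).continuous
    exact (hd p hp d).differentiableAt (hop.mem_nhds hx)
  have hlog : ∀ x ∈ Metric.sphere c ρ, HasDerivWithinAt
      (fun x => Complex.log (V (Function.update q d x) / V (Function.update q0 d x)))
      ((∑ j ∈ Finset.univ.erase d, M q j / (x - q j)) - ∑ j ∈ Finset.univ.erase d, M q0 j / (x - q0 j))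
      (Metric.sphere c ρ) x := by
    intro x hx
    have hx0 := hcirc q0 hq0 hself x hx
    have hx1 := hcirc q hq hqn x hx
    have hn0 := h0 _ hx0
    have hn1 := h0 _ hx1
    have hD0 := (hdiff q0 hq0 x hx0).hasDerivAt
    have hD1 := (hdiff q hq x hx1).hasDerivAt
    have hquot := hD1.fun_div hD0 hn0
    have hslit : V (Function.update q d x) / V (Function.update q0 d x) ∈ Complex.slitPlane := by
      rw [Complex.mem_slitPlane_iff]
      left
      have h3 := hqc x hx
      have h4 := Complex.abs_re_le_norm (V (Function.update q d x) / V (Function.update q0 d x) - 1)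
      rw [Complex.sub_re, Complex.one_re] at h4
      have h5 := (abs_le.1 (h4.trans h3.le)).1
      by_contra hcon
      have h6 : |(V (Function.update q d x) / V (Function.update q0 d x)).re - 1| < 1 := lt_of_le_of_lt h4 h3
      rw [abs_lt] at h6
      linarith [h6.1]
    have hL := hquot.clog hslit
    refine (hL.congr_deriv ?_).hasDerivWithinAt
    rw [← hM q hq x hx1, ← hM q0 hq0 x hx0]
    field_simp
  have hint := circleIntegral.integral_eq_zero_of_hasDerivWithinAt hρ.le hlog
  obtain ⟨hs1, hI1⟩ := circle_sum q d i hi c ρ hρ (hinside q hqn) (houtside q hqn) (M q)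
  obtain ⟨hs0, hI0⟩ := circle_sum q0 d i hi c ρ hρ (hinside q0 hself) (houtside q0 hself) (M q0)
  rw [circleIntegral.integral_sub hI1 hI0, hs1, hs0, ← mul_sub] at hint
  have h2pi : (2 * Real.pi * Complex.I : ℂ) ≠ 0 := Complex.two_pi_I_ne_zero
  have := (mul_eq_zero.1 hint).resolve_left h2pi
  exact sub_eq_zero.1 this

theorem conf_logder {k : ℕ} (V : (Fin k → ℂ) → ℂ) (hc : ContinuousOn V (Conf k)) (h0 : ∀ q ∈ Conf k, V q ≠ 0)
    (h1 : ∀ q ∈ Conf k, V q ≠ 1)
    (hd : ∀ q ∈ Conf k, ∀ d, DifferentiableOn ℂ (fun x => V (Function.update q d x)) {x | Function.update q d x ∈ Conf k}) :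
    ∃ m : Fin k → Fin k → ℂ, ∀ q ∈ Conf k, ∀ d,
      deriv (fun x => V (Function.update q d x)) (q d) = V q * ∑ i ∈ Finset.univ.erase d, m d i / (q d - q i) := by
  classical
  have hex : ∀ (d : Fin k) (q : Fin k → ℂ), ∃ M : Fin k → ℂ, q ∈ Conf k →
      ∀ x, Function.update q d x ∈ Conf k →
        deriv (fun x => V (Function.update q d x)) x / V (Function.update q d x) =
          ∑ i ∈ Finset.univ.erase d, M i / (x - q i) := by
    intro d q
    by_cases hq : q ∈ Conf k
    · obtain ⟨M, hM⟩ := exists_logder V h0 h1 hd hq d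
      exact ⟨M, fun _ => hM⟩
    · exact ⟨0, fun h => absurd h hq⟩
  choose M hM using hex
  obtain ⟨b, hb, -⟩ := conf_connected k
  refine ⟨fun d i => M d b i, fun q hq d => ?_⟩
  have hconst : ∀ i, i ≠ d → M d q i = M d b i := by
    intro i hi
    have hpre : IsPreconnected (Conf k) := (conf_connected k).isConnected.isPreconnected
    have : PreconnectedSpace (Conf k) := Subtype.preconnectedSpace hpre
    have hloc : IsLocallyConstant (fun p : Conf k => M d p.1 i) := by
      rw [IsLocallyConstant.iff_eventually_eq]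
      intro p
      have h2 := logder_local V hc h0 hd d i hi (M d) (fun q hq => hM d q hq) p.2
      have h3 : Filter.Tendsto (fun p : Conf k => p.1) (𝓝 p) (𝓝 p.1) := continuous_subtype_val.tendsto p
      filter_upwards [h3.eventually h2] with p' hp'
      exact hp' p'.2
    exact hloc.apply_eq_of_preconnectedSpace ⟨q, hq⟩ ⟨b, hb⟩
  have h2 := hM d q hq (q d) (by rw [Function.update_eq_self]; exact hq)
  rw [Function.update_eq_self, div_eq_iff (h0 q hq)] at h2
  rw [h2, mul_comm]
  congr 1
  refine Finset.sum_congr rfl fun i hi => ?_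
  rw [hconst i (Finset.mem_erase.1 hi).1]

end Pool.Agent.Helper2.LN2
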