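import Pool.Agent.Helper2.LN.Landau
import Pool.Agent.Helper93.LN.HLog

/-!
# LN2-U0 (MP_730da0_ag): functions omitting the integers

Paper proofs.
* `exists_cosh`: `D` convex and open, `f` holomorphic on `D`, never an integer.  `f = e^α`, `f - 1 = e^β` (`exists_log_on_convex`, Helper93/LN/HLog), `e^(α/2) - e^(β/2)` never vanishes (`landau_ne`), so it is `e^G`; `cosh G ^ 2 = f` (`landau_alg`).
  (Exactly as in `little_picard`, LN/Landau.lean, with `D` in place of `ℂ`.)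
* `cosh_deriv`: `f = cosh² G` gives `f' = 2 cosh G sinh G G' = sinh(2G) G'`; `cosh (2G) = 2 f - 1`, `sinh² (2G) = (2f-1)² - 1`, so `‖sinh (2G)‖ ≤ ‖2f - 1‖ + 1 ≤ 2 ‖f‖ + 2`.
* `omit_int`: `landau_bound` for `G` on the ball.
-/

namespace Pool.Agent.Helper2.LN2

open Pool.Agent.Helper2.LN

theorem exists_cosh (D : Set ℂ) (hD : Convex ℝ D) (ho : IsOpen D) (f : ℂ → ℂ) (hf : DifferentiableOn ℂ f D)
    (h : ∀ z ∈ D, ∀ m : ℤ, f z ≠ m) : ∃ G : ℂ → ℂ, DifferentiableOn ℂ G D ∧ ∀ z ∈ D, Complex.cosh (G z) ^ 2 = f z := by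
  rcases D.eq_empty_or_nonempty with hE | ⟨t, ht⟩
  · refine ⟨fun _ => 0, by rw [hE]; exact differentiableOn_empty, ?_⟩
    intro z hz
    rw [hE] at hz
    exact absurd hz (Set.notMem_empty z)
  · have h0 : ∀ z ∈ D, f z ≠ 0 := fun z hz => by
      have := h z hz 0
      rwa [Int.cast_zero] at this
    have h1 : ∀ z ∈ D, f z - 1 ≠ 0 := fun z hz => by
      have := h z hz 1
      rw [Int.cast_one] at this
      exact sub_ne_zero.2 this
    obtain ⟨α, hα, hαe, -⟩ := Pool.Agent.Helper93.LN.exists_log_on_convex hD ho hf h0 ht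
      (l0 := Complex.log (f t)) (Complex.exp_log (h0 t ht))
    obtain ⟨β, hβ, hβe, -⟩ := Pool.Agent.Helper93.LN.exists_log_on_convex hD ho
      (u := fun z => f z - 1) (hf.sub_const 1) h1 ht
      (l0 := Complex.log (f t - 1)) (Complex.exp_log (h1 t ht))
    have hne : ∀ z ∈ D, Complex.exp (α z / 2) - Complex.exp (β z / 2) ≠ 0 := fun z hz =>
      landau_ne (α z) (β z) (f z) (hαe z hz) (hβe z hz)
    obtain ⟨G, hG, hGe, -⟩ := Pool.Agent.Helper93.LN.exists_log_on_convex hD ho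
      (u := fun z => Complex.exp (α z / 2) - Complex.exp (β z / 2))
      ((hα.div_const 2).cexp.sub (hβ.div_const 2).cexp) hne ht
      (l0 := Complex.log (Complex.exp (α t / 2) - Complex.exp (β t / 2)))
      (Complex.exp_log (hne t ht))
    exact ⟨G, hG, fun z hz => landau_alg (α z) (β z) (f z) (G z) (hαe z hz) (hβe z hz) (hGe z hz)⟩

theorem cosh_deriv (D : Set ℂ) (ho : IsOpen D) (f G : ℂ → ℂ) (hG : DifferentiableOn ℂ G D)
    (h : ∀ z ∈ D, Complex.cosh (G z) ^ 2 = f z) (z : ℂ) (hz : z ∈ D) :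
    deriv f z = Complex.sinh (2 * G z) * deriv G z ∧ ‖Complex.sinh (2 * G z)‖ ≤ 2 * ‖f z‖ + 2 := by
  have hGz : HasDerivAt G (deriv G z) z := (hG.differentiableAt (ho.mem_nhds hz)).hasDerivAt
  constructor
  · have h1 : HasDerivAt (fun w => Complex.cosh (G w) ^ 2)
        ((2 : ℕ) * Complex.cosh (G z) ^ (2 - 1) * (Complex.sinh (G z) * deriv G z)) z :=
      (hGz.ccosh).pow 2
    have h2 : f =ᶠ[nhds z] fun w => Complex.cosh (G w) ^ 2 := by
      filter_upwards [ho.mem_nhds hz] with w hw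
      exact (h w hw).symm
    rw [h2.deriv_eq, h1.deriv, Complex.sinh_two_mul]
    push_cast
    ring
  · have h3 : Complex.sinh (2 * G z) ^ 2 = (2 * f z - 1) ^ 2 - 1 := by
      have h4 : Complex.cosh (2 * G z) = 2 * f z - 1 := by
        rw [Complex.cosh_two_mul, ← h z hz]
        have := Complex.cosh_sq (G z)
        linear_combination (-1 : ℂ) * this
      have h5 := Complex.cosh_sq (2 * G z)
      rw [h4] at h5
      linear_combination (-1 : ℂ) * h5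
    have h6 : ‖Complex.sinh (2 * G z)‖ ^ 2 ≤ (2 * ‖f z‖ + 2) ^ 2 := by
      rw [← norm_pow, h3]
      have h7 : ‖2 * f z - 1‖ ≤ 2 * ‖f z‖ + 1 := by
        calc ‖2 * f z - 1‖ ≤ ‖2 * f z‖ + ‖(1 : ℂ)‖ := norm_sub_le _ _
          _ = 2 * ‖f z‖ + 1 := by rw [norm_mul, norm_one, Complex.norm_two]
      have h8 : ‖(2 * f z - 1) ^ 2 - 1‖ ≤ ‖2 * f z - 1‖ ^ 2 + 1 := by
        calc ‖(2 * f z - 1) ^ 2 - 1‖ ≤ ‖(2 * f z - 1) ^ 2‖ + ‖(1 : ℂ)‖ := norm_sub_le _ _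
          _ = ‖2 * f z - 1‖ ^ 2 + 1 := by rw [norm_pow, norm_one]
      have h9 := norm_nonneg (f z)
      have h10 := norm_nonneg (2 * f z - 1)
      nlinarith [mul_self_le_mul_self h10 h7]
    exact le_of_sq_le_sq h6 (by positivity)

theorem omit_int : ∃ C : ℝ, 0 < C ∧ ∀ (f : ℂ → ℂ) (z₀ : ℂ) (R : ℝ), 0 < R →
    DifferentiableOn ℂ f (Metric.ball z₀ R) → (∀ z ∈ Metric.ball z₀ R, ∀ m : ℤ, f z ≠ m) →
    ‖deriv f z₀‖ ≤ C * (‖f z₀‖ + 1) / R := by
  obtain ⟨C, hC, hB⟩ := landau_bound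
  refine ⟨2 * C, by positivity, ?_⟩
  intro f z₀ R hR hf hn
  obtain ⟨G, hG, hGf⟩ := exists_cosh (Metric.ball z₀ R) (convex_ball z₀ R) Metric.isOpen_ball f hf hn
  have hz0 : z₀ ∈ Metric.ball z₀ R := Metric.mem_ball_self hR
  obtain ⟨h1, h2⟩ := cosh_deriv (Metric.ball z₀ R) Metric.isOpen_ball f G hG hGf z₀ hz0
  have h3 := hB G z₀ R hR hG (fun z hz m => by rw [hGf z hz]; exact hn z hz m)
  rw [h1, norm_mul]
  calc ‖Complex.sinh (2 * G z₀)‖ * ‖deriv G z₀‖ ≤ (2 * ‖f z₀‖ + 2) * (C / R) :=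
        mul_le_mul h2 h3 (norm_nonneg _) (by positivity)
    _ = 2 * C * (‖f z₀‖ + 1) / R := by ring

end Pool.Agent.Helper2.LN2
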