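import Pool.Agent.Helper2.LN2.EWp

/-!
# LN2-E4 (MP_730da0_ag): `wp` is onto

Paper proof.  Suppose `wp z t ≠ w` for all `z ∉ Lat t`.  Let `h z = 1 / (wp z t - w)` for `z ∉ Lat t`, `h z = 0` for `z ∈ Lat t`.  `h` is holomorphic off the lattice and continuous (value `0`) at the lattice points (`‖wp z t‖ → ∞` there:
`order_weierstrassP : meromorphicOrderAt ℘[L] l₀ = -2`, or `℘[L] z = 1/(z-l₀)^2 + ` a function holomorphic at `l₀`, `weierstrassPExcept`), so entire (removable singularity, `Complex.differentiableOn_update_limUnder_of_..` or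
`differentiableOn_compl_singleton_and_continuousAt_iff`; the lattice is closed and discrete).  `h` has the periods `1` and `t`, so it takes all its values on the compact parallelogram `{a + b t : 0 ≤ a, b ≤ 1}`: bounded, so constant
(Liouville) `= h 0 = 0`; but `h z ≠ 0` off the lattice.
-/

namespace Pool.Agent.Helper2.LN2

open Pool.Agent.Helper2.LN

theorem wp_surj {t : ℂ} (ht : t ∈ HH) (w : ℂ) : ∃ z, z ∉ Lat t ∧ wp z t = w := by
  sorry

end Pool.Agent.Helper2.LN2
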