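import Pool.Agent.Helper2.LN2.EOpen
import Pool.Agent.Helper2.LN2.ESurj

/-!
# LN2-E7 (MP_730da0_ag): lifting through `wp`

Paper proof.  `E = {(z, t) : t ∈ HH, 2 z ∉ Lat t}` (open: `isOpen_off2`), `B = {(w, t) : t ∈ HH, w ≠ wp z t for all z with 2 z ∈ Lat t, z ∉ Lat t}`, `p (z, t) = (wp z t, t) : E → B`.  The group `G` of all maps
`z ↦ ε z + m + n t`, `ε = ± 1`, `m, n ∈ ℤ` (as a group: triples `(ε, m, n)` with `(ε, m, n) (ε', m', n') = (ε ε', m + ε m', n + ε n')`), acts on `E`.  `IsQuotientCoveringMap p G` (Mathlib.Topology.Covering.Quotient):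
* continuous action: clear.  * `p x = p y ↔` same orbit: `wp_inj`, `wp_neg`, `wp_add` (note `2 z ∉ Lat t` implies `z ∉ Lat t`).
* disjointness: given `(z₀, t₀) ∈ E` let `δ, r` be from `lat_bound`.  For `(z, t), (z', t)` near `(z₀, t₀)` with `z' = ε z + m + n t`: `ε = 1`: `‖m + n t‖` is small, so `m = n = 0`.  `ε = -1`: `z + z' = m + n t` is near `2 z₀`;
  only finitely many `(m, n)` can occur, and for each of them `2 z₀ ≠ m + n t₀`, so none for a small neighbourhood (or use `isOpen_off2` for `((z + z')/2, t)`).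
* quotient map: `p` is continuous (`wp_joint`), surjective (`wp_surj`: a `z` with `wp z t = w` has `2 z ∉ Lat t`, else `w` is excluded) and open (`wp_open`).  `IsOpenMap.isQuotientMap` (or the current name).
So `p` is a covering map.  `wp_lift`: lift `a ↦ (W a, t a) ∈ B` (`IsCoveringMap.existsUnique_continuousMap_lifts` or as in LN/Systems.lean `exp_lift`).
`wp_uniq`: at one point `a₀` (if `A` is empty nothing to do) `u' a₀ = ε u a₀ + m + n t` by `wp_inj`; the maps `a ↦ (u' a, t a)` and `a ↦ (ε u a + m + n t, t a)` are two lifts of the same map that agree at `a₀`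
(`IsCoveringMap.eq_of_comp_eq`).
-/

namespace Pool.Agent.Helper2.LN2

open Pool.Agent.Helper2.LN

open Topology

/-- The total space. -/
private abbrev ET : Type := {x : ℂ × ℂ // x.2 ∈ HH ∧ 2 * x.1 ∉ Lat x.2}

/-- The base. -/
private abbrev BT : Type :=
  {y : ℂ × ℂ // y.2 ∈ HH ∧ ∀ z, 2 * z ∈ Lat y.2 → z ∉ Lat y.2 → y.1 ≠ wp z y.2}

private theorem off1 {z t : ℂ} (h : 2 * z ∉ Lat t) : z ∉ Lat t := by
  intro hz
  apply h
  have := Lat_add hz hz
  rwa [← two_mul] at this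

private theorem mn_mem (t : ℂ) (m n : ℤ) : (m : ℂ) + n * t ∈ Lat t := ⟨m, n, rfl⟩

/-- `wp z t` is not a value at a half period. -/
private theorem ne_half {t z z' : ℂ} (ht : t ∈ HH) (hz : 2 * z ∉ Lat t) (h2 : 2 * z' ∈ Lat t)
    (h1 : z' ∉ Lat t) : wp z t ≠ wp z' t := by
  intro h
  rcases wp_inj ht (off1 hz) h1 h with h3 | h3
  · apply hz
    have h4 := Lat_add (Lat_add h3 h3) h2
    have h5 : z - z' + (z - z') + 2 * z' = 2 * z := by ring
    rwa [h5] at h4
  · apply hz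
    have h4 := Lat_sub (Lat_add h3 h3) h2
    have h5 : z + z' + (z + z') - 2 * z' = 2 * z := by ring
    rwa [h5] at h4

/-- The projection. -/
private noncomputable def pr (x : ET) : BT :=
  ⟨(wp x.1.1 x.1.2, x.1.2), x.2.1, fun _ h2 h1 => ne_half x.2.1 x.2.2 h2 h1⟩

private theorem pr_cont : Continuous pr := by
  refine Continuous.subtype_mk ?_ _
  refine Continuous.prodMk ?_ (continuous_snd.comp continuous_subtype_val)
  rw [continuous_iff_continuousAt]
  intro x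
  have h := (wp_joint x.2.1 (off1 x.2.2)).continuousAt
  exact ContinuousAt.comp (f := fun y : ET => y.1) (g := fun y : ℂ × ℂ => wp y.1 y.2) h
    continuous_subtype_val.continuousAt

private theorem pr_surj : Function.Surjective pr := by
  rintro ⟨⟨w, t⟩, ht, hw⟩
  obtain ⟨z, hz, h⟩ := wp_surj ht w
  have h2 : 2 * z ∉ Lat t := fun h2 => hw z h2 hz h.symm
  exact ⟨⟨(z, t), ht, h2⟩, Subtype.ext (Prod.ext h rfl)⟩

private theorem pr_open : IsOpenMap pr := by
  refine IsOpenMap.of_nhds_le fun e s hs => ?_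
  have hs' : pr ⁻¹' s ∈ 𝓝 e := hs
  obtain ⟨ρ₀, hρ₀, hb₀⟩ := Metric.mem_nhds_iff.1 hs'
  obtain ⟨ρ₁, hρ₁, hb₁⟩ := Metric.isOpen_iff.1 isOpen_off2 e.1 e.2
  have hρ : 0 < min ρ₀ ρ₁ := lt_min hρ₀ hρ₁
  obtain ⟨ε, hε, h⟩ := wp_open e.2.1 e.2.2 _ hρ
  refine Metric.mem_nhds_iff.2 ⟨min ε (min ρ₀ ρ₁), lt_min hε hρ, fun b hb => ?_⟩
  have hb' : dist b.1 (pr e).1 < min ε (min ρ₀ ρ₁) := hb
  have hb1 : dist b.1.1 (wp e.1.1 e.1.2) < min ε (min ρ₀ ρ₁) :=
    lt_of_le_of_lt (le_max_left _ _) hb'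
  have hb2 : dist b.1.2 e.1.2 < min ε (min ρ₀ ρ₁) := lt_of_le_of_lt (le_max_right _ _) hb'
  obtain ⟨z, hz, hw⟩ := h b.1.2 (lt_of_lt_of_le hb2 (min_le_left _ _)) b.1.1
    (lt_of_lt_of_le hb1 (min_le_left _ _))
  have hz' : dist z e.1.1 < min ρ₀ ρ₁ := hz
  have hd : dist ((z, b.1.2) : ℂ × ℂ) e.1 < min ρ₀ ρ₁ :=
    max_lt hz' (lt_of_lt_of_le hb2 (min_le_right _ _))
  have hE := hb₁ (Metric.mem_ball.2 (lt_of_lt_of_le hd (min_le_right _ _)))
  have hin : (⟨(z, b.1.2), hE⟩ : ET) ∈ Metric.ball e ρ₀ :=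
    lt_of_lt_of_le hd (min_le_left _ _)
  have := hb₀ hin
  have he : pr ⟨(z, b.1.2), hE⟩ = b := Subtype.ext (Prod.ext hw rfl)
  rw [Set.mem_preimage, he] at this
  exact this

private theorem sgn_off {t z : ℂ} (s : ℤˣ) (m n : ℤ) (hz : 2 * z ∉ Lat t) :
    2 * (((s : ℤ) : ℂ) * z + m + n * t) ∉ Lat t := by
  intro h
  apply hz
  have h1 := Lat_sub (Lat_sub h (mn_mem t m n)) (mn_mem t m n)
  rcases Int.units_eq_one_or s with rfl | rfl
  · have h2 : 2 * ((((1 : ℤˣ) : ℤ) : ℂ) * z + m + n * t) - (m + n * t) - (m + n * t) = 2 * z := by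
      push_cast
      ring
    rwa [h2] at h1
  · have h2 : 2 * ((((-1 : ℤˣ) : ℤ) : ℂ) * z + m + n * t) - (m + n * t) - (m + n * t)
        = -(2 * z) := by
      push_cast
      ring
    rw [h2] at h1
    have h3 := Lat_neg h1
    rwa [neg_neg] at h3

/-- The map `z ↦ s z + m + n t`. -/
private noncomputable def act (s : ℤˣ) (m n : ℤ) (x : ET) : ET :=
  ⟨(((s : ℤ) : ℂ) * x.1.1 + m + n * x.1.2, x.1.2), x.2.1, sgn_off s m n x.2.2⟩

private theorem act_cont (s : ℤˣ) (m n : ℤ) : Continuous (act s m n) := by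
  refine Continuous.subtype_mk ?_ _
  fun_prop

private theorem act_act (s s' : ℤˣ) (m n m' n' : ℤ) (x : ET) :
    act s m n (act s' m' n' x) = act (s * s') (m + s * m') (n + s * n') x := by
  refine Subtype.ext (Prod.ext ?_ rfl)
  show ((s : ℤ) : ℂ) * (((s' : ℤ) : ℂ) * x.1.1 + m' + n' * x.1.2) + m + n * x.1.2 =
    (((s * s' : ℤˣ) : ℤ) : ℂ) * x.1.1 + ((m + s * m' : ℤ) : ℂ) + ((n + s * n' : ℤ) : ℂ) * x.1.2
  push_cast
  ring

private theorem act_one (x : ET) : act 1 0 0 x = x := by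
  refine Subtype.ext (Prod.ext ?_ rfl)
  show (((1 : ℤˣ) : ℤ) : ℂ) * x.1.1 + ((0 : ℤ) : ℂ) + ((0 : ℤ) : ℂ) * x.1.2 = x.1.1
  push_cast
  ring

private theorem act_inv (s : ℤˣ) (m n : ℤ) (x : ET) :
    act s (-(s * m)) (-(s * n)) (act s m n x) = x := by
  rw [act_act, Int.units_mul_self, neg_add_cancel, neg_add_cancel, act_one]

private theorem act_inv' (s : ℤˣ) (m n : ℤ) (x : ET) :
    act s m n (act s (-(s * m)) (-(s * n)) x) = x := by
  have h1 : (s : ℤ) * s = 1 := by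
    rcases Int.units_eq_one_or s with rfl | rfl <;> rfl
  rw [act_act, Int.units_mul_self]
  have h2 : ∀ m : ℤ, m + s * (-(s * m)) = 0 := by
    intro m
    have : m + s * (-(s * m)) = m - (s * s : ℤ) * m := by ring
    rw [this, h1]
    ring
  rw [h2, h2, act_one]

/-- The map `z ↦ s z + m + n t` as a permutation. -/
private noncomputable def perm (s : ℤˣ) (m n : ℤ) : Equiv.Perm ET where
  toFun := act s m n
  invFun := act s (-(s * m)) (-(s * n))
  left_inv := act_inv s m n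
  right_inv := act_inv' s m n

/-- The group. -/
private noncomputable def GG : Subgroup (Equiv.Perm ET) where
  carrier := {φ | ∃ (s : ℤˣ) (m n : ℤ), ∀ x, φ x = act s m n x}
  one_mem' := ⟨1, 0, 0, fun x => (act_one x).symm⟩
  mul_mem' := by
    rintro φ ψ ⟨s, m, n, h⟩ ⟨s', m', n', h'⟩
    refine ⟨s * s', m + s * m', n + s * n', fun x => ?_⟩
    rw [Equiv.Perm.mul_apply, h', h, act_act]
  inv_mem' := by
    rintro φ ⟨s, m, n, h⟩
    refine ⟨s, -(s * m), -(s * n), fun x => ?_⟩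
    rw [Equiv.Perm.inv_eq_iff_eq, h, act_inv']

private theorem smul_eq (g : GG) (x : ET) : g • x = (g : Equiv.Perm ET) x := rfl

private theorem pr_act (s : ℤˣ) (m n : ℤ) (x : ET) : pr (act s m n x) = pr x := by
  refine Subtype.ext (Prod.ext ?_ rfl)
  show wp (((s : ℤ) : ℂ) * x.1.1 + m + n * x.1.2) x.1.2 = wp x.1.1 x.1.2
  rw [add_assoc, wp_add x.2.1 _ _ (mn_mem x.1.2 m n)]
  rcases Int.units_eq_one_or s with rfl | rfl
  · simp
  · have : (((-1 : ℤˣ) : ℤ) : ℂ) * x.1.1 = -x.1.1 := by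
      push_cast
      ring
    rw [this, wp_neg x.2.1]

private theorem pr_eq {x y : ET} (h : pr x = pr y) : ∃ (s : ℤˣ) (m n : ℤ), x = act s m n y := by
  obtain ⟨⟨z, t⟩, ht, hz⟩ := x
  obtain ⟨⟨z', t'⟩, ht', hz'⟩ := y
  have h1 : wp z t = wp z' t' := congrArg (fun b : BT => b.1.1) h
  have h2 : t = t' := congrArg (fun b : BT => b.1.2) h
  subst h2
  rcases wp_inj ht (off1 hz) (off1 hz') h1 with ⟨m, n, h3⟩ | ⟨m, n, h3⟩
  · refine ⟨1, m, n, Subtype.ext (Prod.ext ?_ rfl)⟩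
    show z = (((1 : ℤˣ) : ℤ) : ℂ) * z' + m + n * t
    push_cast
    linear_combination h3
  · refine ⟨-1, m, n, Subtype.ext (Prod.ext ?_ rfl)⟩
    show z = (((-1 : ℤˣ) : ℤ) : ℂ) * z' + m + n * t
    push_cast
    linear_combination h3

private theorem pr_cov : IsQuotientCoveringMap pr GG where
  toIsQuotientMap := pr_open.isQuotientMap pr_cont pr_surj
  continuous_const_smul := by
    rintro ⟨φ, s, m, n, h⟩
    have : (fun x : ET => (⟨φ, s, m, n, h⟩ : GG) • x) = act s m n := funext fun x => h x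
    show Continuous (fun x : ET => (⟨φ, s, m, n, h⟩ : GG) • x)
    rw [this]
    exact act_cont s m n
  apply_eq_iff_mem_orbit := by
    intro x y
    constructor
    · intro h
      obtain ⟨s, m, n, h1⟩ := pr_eq h
      exact ⟨⟨perm s m n, s, m, n, fun _ => rfl⟩, h1.symm⟩
    · rintro ⟨⟨φ, s, m, n, h⟩, h1⟩
      have h2 : act s m n y = x := (h y).symm.trans h1
      rw [← h2, pr_act]
  disjoint := by
    intro e
    obtain ⟨δ, hδ, r, hr, -, hb⟩ := lat_bound e.2.1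
    obtain ⟨ρ, hρ, hb₁⟩ := Metric.isOpen_iff.1 isOpen_off2 e.1 e.2
    have hpos : 0 < min (δ / 2) (min r ρ) := lt_min (by positivity) (lt_min hr hρ)
    refine ⟨Metric.ball e (min (δ / 2) (min r ρ)), Metric.ball_mem_nhds e hpos, ?_⟩
    rintro ⟨φ, s, m, n, h⟩ ⟨y, ⟨x, hx, hxy⟩, hy⟩
    have hy2 : y = act s m n x := hxy.symm.trans (h x)
    subst hy2
    have hx' : dist x.1 e.1 < min (δ / 2) (min r ρ) := hx
    have hx1 : dist x.1.1 e.1.1 < min (δ / 2) (min r ρ) := lt_of_le_of_lt (le_max_left _ _) hx'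
    have hx2 : dist x.1.2 e.1.2 < min (δ / 2) (min r ρ) := lt_of_le_of_lt (le_max_right _ _) hx'
    have hy' : dist (act s m n x).1 e.1 < min (δ / 2) (min r ρ) := hy
    have hy1 : dist (((s : ℤ) : ℂ) * x.1.1 + m + n * x.1.2) e.1.1 < min (δ / 2) (min r ρ) :=
      lt_of_le_of_lt (le_max_left _ _) hy'
    refine Subtype.ext (Equiv.ext fun w => ?_)
    show φ w = w
    rw [h w]
    rcases Int.units_eq_one_or s with rfl | rfl
    · have h1 : ‖(m : ℂ) + n * x.1.2‖ < δ := by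
        have h2 : (m : ℂ) + n * x.1.2 = ((((1 : ℤˣ) : ℤ) : ℂ) * x.1.1 + m + n * x.1.2 - e.1.1) -
            (x.1.1 - e.1.1) := by
          push_cast
          ring
        rw [h2]
        refine lt_of_le_of_lt (norm_sub_le _ _) ?_
        rw [← dist_eq_norm, ← dist_eq_norm]
        have := min_le_left (δ / 2) (min r ρ)
        linarith
      have h3 := hb x.1.2 (lt_of_lt_of_le hx2 ((min_le_right _ _).trans (min_le_left _ _))) m n
      have h4 : |(m : ℝ)| + |(n : ℝ)| < 1 := by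
        by_contra hcon
        rw [not_lt] at hcon
        have : δ * 1 ≤ δ * (|(m : ℝ)| + |(n : ℝ)|) := mul_le_mul_of_nonneg_left hcon hδ.le
        linarith
      have h5 : ((|m| + |n| : ℤ) : ℝ) < 1 := by
        push_cast
        exact h4
      have h6 : |m| + |n| < 1 := by exact_mod_cast h5
      have hm : m = 0 := abs_eq_zero.1 (by have := abs_nonneg m; have := abs_nonneg n; omega)
      have hn : n = 0 := abs_eq_zero.1 (by have := abs_nonneg m; have := abs_nonneg n; omega)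
      rw [hm, hn, act_one]
    · exfalso
      have h1 : dist ((((-1 : ℤˣ) : ℤ) : ℂ) * x.1.1 + m + n * x.1.2) e.1.1 < ρ :=
        lt_of_lt_of_le hy1 ((min_le_right _ _).trans (min_le_right _ _))
      have h2 : dist x.1.1 e.1.1 < ρ :=
        lt_of_lt_of_le hx1 ((min_le_right _ _).trans (min_le_right _ _))
      have h3 : dist (((m : ℂ) + n * x.1.2) / 2) e.1.1 < ρ := by
        rw [dist_eq_norm] at h1 h2 ⊢
        have h4 : ((m : ℂ) + n * x.1.2) / 2 - e.1.1 =
            (1 / 2 : ℂ) * (((((-1 : ℤˣ) : ℤ) : ℂ) * x.1.1 + m + n * x.1.2 - e.1.1) +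
              (x.1.1 - e.1.1)) := by
          push_cast
          ring
        rw [h4, norm_mul]
        have h5 := norm_add_le ((((-1 : ℤˣ) : ℤ) : ℂ) * x.1.1 + m + n * x.1.2 - e.1.1)
          (x.1.1 - e.1.1)
        have h6 : ‖(1 / 2 : ℂ)‖ = 1 / 2 := by norm_num
        rw [h6]
        linarith
      have h7 : dist ((((m : ℂ) + n * x.1.2) / 2, x.1.2) : ℂ × ℂ) e.1 < ρ :=
        max_lt h3 (lt_of_lt_of_le hx2 ((min_le_right _ _).trans (min_le_right _ _)))
      have h8 := (hb₁ (Metric.mem_ball.2 h7)).2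
      apply h8
      have h9 : 2 * (((m : ℂ) + n * x.1.2) / 2) = m + n * x.1.2 := by ring
      show 2 * (((m : ℂ) + n * x.1.2) / 2) ∈ Lat x.1.2
      rw [h9]
      exact mn_mem _ m n

theorem wp_lift (A : Type) [TopologicalSpace A] [SimplyConnectedSpace A] [LocallyPathConnectedSpace A]
    (t : C(A, ℂ)) (ht : ∀ a, t a ∈ HH) (W : C(A, ℂ))
    (hW : ∀ a z, 2 * z ∈ Lat (t a) → z ∉ Lat (t a) → W a ≠ wp z (t a)) (a₀ : A) (z₀ : ℂ)
    (hz : 2 * z₀ ∉ Lat (t a₀)) (h0 : wp z₀ (t a₀) = W a₀) :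
    ∃ u : C(A, ℂ), u a₀ = z₀ ∧ ∀ a, 2 * u a ∉ Lat (t a) ∧ wp (u a) (t a) = W a := by
  let f : C(A, BT) := ⟨fun a => ⟨(W a, t a), ht a, hW a⟩,
    Continuous.subtype_mk (W.continuous.prodMk t.continuous) _⟩
  obtain ⟨F, ⟨h1, h2⟩, -⟩ := pr_cov.isCoveringMap.existsUnique_continuousMap_lifts f a₀
    (⟨(z₀, t a₀), ht a₀, hz⟩ : ET) (Subtype.ext (Prod.ext h0 rfl))
  have h3 : ∀ a, pr (F a) = f a := fun a => congrFun h2 a
  have h4 : ∀ a, (F a).1.2 = t a := fun a => congrArg (fun b : BT => b.1.2) (h3 a)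
  refine ⟨⟨fun a => (F a).1.1, continuous_fst.comp (continuous_subtype_val.comp F.continuous)⟩,
    ?_, fun a => ⟨?_, ?_⟩⟩
  · show (F a₀).1.1 = z₀
    rw [h1]
  · have := (F a).2.2
    rw [h4 a] at this
    exact this
  · have h5 : wp (F a).1.1 (F a).1.2 = W a := congrArg (fun b : BT => b.1.1) (h3 a)
    rw [h4 a] at h5
    exact h5

theorem wp_uniq (A : Type) [TopologicalSpace A] [PreconnectedSpace A] (t : C(A, ℂ)) (ht : ∀ a, t a ∈ HH)
    (u u' : C(A, ℂ)) (hu : ∀ a, 2 * u a ∉ Lat (t a)) (hu' : ∀ a, 2 * u' a ∉ Lat (t a))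
    (h : ∀ a, wp (u a) (t a) = wp (u' a) (t a)) :
    ∃ (ε : ℂ) (m n : ℤ), (ε = 1 ∨ ε = -1) ∧ ∀ a, u' a = ε * u a + m + n * t a := by
  rcases isEmpty_or_nonempty A with hA | ⟨⟨a₀⟩⟩
  · exact ⟨1, 0, 0, Or.inl rfl, fun a => hA.elim a⟩
  let f1 : A → ET := fun a => ⟨(u a, t a), ht a, hu a⟩
  let f2 : A → ET := fun a => ⟨(u' a, t a), ht a, hu' a⟩
  have hf1 : Continuous f1 := Continuous.subtype_mk (u.continuous.prodMk t.continuous) _
  have hf2 : Continuous f2 := Continuous.subtype_mk (u'.continuous.prodMk t.continuous) _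
  have hp : ∀ a, pr (f2 a) = pr (f1 a) := fun a => Subtype.ext (Prod.ext (h a).symm rfl)
  obtain ⟨s, m, n, h0⟩ := pr_eq (hp a₀)
  have h1 : f2 = fun a => act s m n (f1 a) :=
    pr_cov.isCoveringMap.eq_of_comp_eq hf2 ((act_cont s m n).comp hf1)
      (funext fun a => (hp a).trans (pr_act s m n (f1 a)).symm) a₀ h0
  refine ⟨((s : ℤ) : ℂ), m, n, ?_, fun a => ?_⟩
  · rcases Int.units_eq_one_or s with rfl | rfl
    · left
      simp
    · right
      simp
  · exact congrArg (fun x : ET => x.1.1) (congrFun h1 a)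

end Pool.Agent.Helper2.LN2
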