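import Pool.Agent.Helper2.LN.Sys

/-!
# LN2 project (MP_730da0_ag): definitions

DEFINITIONS ONLY (do not change).  Memo: store file memo_LN2_helper2.md.

`HH` the upper half plane, `Lat t = ℤ + ℤ t`, `wp z t` the Weierstrass function, `PP u` the energy density, `ES S` = the system `S` is
a homogeneous holomorphic multisection that avoids the points of the configuration.
-/

namespace Pool.Agent.Helper2.LN2

open Pool.Agent.Helper2.LN

/-- The upper half plane. -/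
def HH : Set ℂ := {t | 0 < t.im}

/-- The lattice `ℤ + ℤ t`. -/
def Lat (t : ℂ) : Set ℂ := {z | ∃ m n : ℤ, z = m + n * t}

/-- The term of the Weierstrass series. -/
noncomputable def wpt (z t : ℂ) (l : ℤ × ℤ) : ℂ :=
  1 / (z - ((l.1 : ℂ) + l.2 * t)) ^ 2 - 1 / ((l.1 : ℂ) + l.2 * t) ^ 2

/-- The Weierstrass function of the lattice `ℤ + ℤ t` at `z` (for `t ∈ HH`, `z ∉ Lat t`). -/
noncomputable def wp (z t : ℂ) : ℂ := ∑' l : ℤ × ℤ, wpt z t l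

/-- `Im t |u'(t) - Im u(t) / Im t|^2`. -/
noncomputable def PP (u : ℂ → ℂ) (t : ℂ) : ℝ :=
  t.im * ‖deriv u t - (((u t).im / t.im : ℝ) : ℂ)‖ ^ 2

/-- The system `S` has finite nonempty fibres, avoids the points of the configuration, is homogeneous of degree `1` and
holomorphic along holomorphic curves. -/
structure ES {k : ℕ} (S : Sys k ℂ) : Prop where
  fin : ∀ q ∈ Conf k, (S.F q).Finite
  ne : ∀ q ∈ Conf k, (S.F q).Nonempty
  avoid : ∀ q ∈ Conf k, ∀ w ∈ S.F q, ∀ i, w ≠ q i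
  hom : ∀ q ∈ Conf k, ∀ c : ℂ, c ≠ 0 → ∀ w ∈ S.F q, c * w ∈ S.F (fun i => c * q i)
  hol : ∀ (Ω : Set ℂ) (γ : ℂ → (Fin k → ℂ)) (X : ℂ → ℂ), IsOpen Ω → DifferentiableOn ℂ γ Ω →
    (∀ t ∈ Ω, γ t ∈ Conf k) → ContinuousOn X Ω → (∀ t ∈ Ω, X t ∈ S.F (γ t)) → DifferentiableOn ℂ X Ω

/-- The leaf `t ↦ (wp ((m_j + n_j t) / N) t)_j`. -/
noncomputable def qL (k N : ℕ) (L : Fin k → ℤ × ℤ) (t : ℂ) : Fin k → ℂ :=
  fun j => wp ((((L j).1 : ℂ) + (L j).2 * t) / N) t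

/-- Admissible labels: the leaf lies in `Conf k` and contains the three values `e_1, e_2, e_3`. -/
def Adm (k N : ℕ) (L : Fin k → ℤ × ℤ) : Prop :=
  ∀ t ∈ HH, qL k N L t ∈ Conf k ∧ (∀ j, (((L j).1 : ℂ) + (L j).2 * t) / N ∉ Lat t) ∧
    ∀ z, 2 * z ∈ Lat t → z ∉ Lat t → ∃ j, qL k N L t j = wp z t

/-- The configuration with the points `e_1, e_2, e_3, wp p, wp (1/4), wp (1/5), ..`. -/
noncomputable def qf (k : ℕ) (p t : ℂ) : Fin k → ℂ := fun j =>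
  if (j : ℕ) = 0 then wp (1 / 2) t else if (j : ℕ) = 1 then wp (t / 2) t else
    if (j : ℕ) = 2 then wp ((1 + t) / 2) t else if (j : ℕ) = 3 then wp p t else wp (1 / ((j : ℕ) : ℂ)) t

/-- The exceptional `p`. -/
def EE (k : ℕ) (t : ℂ) : Set ℂ :=
  {p | 2 * p ∈ Lat t ∨ ∃ j : ℕ, 4 ≤ j ∧ j < k ∧ (p - 1 / (j : ℂ) ∈ Lat t ∨ p + 1 / (j : ℂ) ∈ Lat t)}

end Pool.Agent.Helper2.LN2
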