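import Pool.Agent.Helper2.LN2.EWp

/-!
# LN2-E3 (MP_730da0_ag): the fibres of `wp`

Paper proofs.  Let `L` be from `exists_pair`, `f = wp(., t)`, `f' = ℘'[L]` (`deriv_weierstrassP`), `f'^2 = 4 f^3 - g₂ f - g₃` off the lattice (`derivWeierstrassP_sq`).
(a) `f'' = 6 f^2 - g₂/2` off the lattice: differentiate, `2 f' f'' = (12 f^2 - g₂) f'`; divide by `f'` where `f' ≠ 0`; both sides are analytic off the lattice (complement of a countable closed set, connected) and `f'` is not identically `0` there
(else `f` is constant near a lattice point, but `f` is unbounded: `not_continuousAt_weierstrassP`), so the identity holds everywhere off the lattice (identity theorem, or: the zeros of `f'` are isolated and both sides are continuous).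
(b) `key`: `z, z' ∉ Lat t`, `f z = f z'`, `f' z = f' z'` imply `z - z' ∈ Lat t`.  For small real `s`: `D(s) = (f(z+s) - f(z'+s), f'(z+s) - f'(z'+s))` satisfies `‖D'(s)‖ ≤ K ‖D(s)‖`, `D(0) = 0`
(`f''(z+s) - f''(z'+s) = 6 (f(z+s) + f(z'+s)) (f(z+s) - f(z'+s))`), so `D = 0` (Gronwall; e.g. `eq_zero_of_abs_deriv_le_mul_abs_self_of_eq_zero_right` or `ODE_solution_unique`).  So the functions `f(z+s)`, `f(z'+s)`, analytic on the
connected set `ℂ ∖ ((Lat t - z) ∪ (Lat t - z'))` (complement of a countable set), agree there.  If `z - z' ∉ Lat t`, then at `s = -z` the second is continuous, so `f` would be bounded near `0`: contradiction to `not_continuousAt_weierstrassP`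
(e.g. redefine at one point; or `‖f‖ → ∞` at lattice points: `order_weierstrassP`).
`wp_inj`: `f'(z)^2 = f'(z')^2`, so `f'(z) = ± f'(z')`, and `f'(-z') = -f'(z')`, `f(-z') = f(z')`; apply (b) to `z, z'` or to `z, -z'`.
`wp_deriv_ne`: if `f'(z) = 0` then `f(z) = f(-z)`, `f'(z) = 0 = f'(-z)`: by (b) `z - (-z) = 2 z ∈ Lat t`.
-/

namespace Pool.Agent.Helper2.LN2

open Pool.Agent.Helper2.LN

theorem wp_inj {t z z' : ℂ} (ht : t ∈ HH) (hz : z ∉ Lat t) (hz' : z' ∉ Lat t) (h : wp z t = wp z' t) :
    z - z' ∈ Lat t ∨ z + z' ∈ Lat t := by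
  sorry

theorem wp_deriv_ne {t z : ℂ} (ht : t ∈ HH) (hz : 2 * z ∉ Lat t) : deriv (fun z => wp z t) z ≠ 0 := by
  sorry

end Pool.Agent.Helper2.LN2
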