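import Pool.Agent.Helper2.LN2.EJoint
import Pool.Agent.Helper2.LN2.EInj

/-!
# LN2-E8 (MP_730da0_ag): lifts are holomorphic

Paper proof.  At `s₀ ∈ Ω` let `F(z, t) = wp z t`, differentiable at `(u₀, t₀) = (u s₀, τ s₀)` with derivative `(h, k) ↦ α h + β k`, `α = ∂_z wp ≠ 0` (`wp_deriv_ne`; `∂_z` by restricting to `t = t₀`).
`W s - W s₀ = F(u s, τ s) - F(u₀, t₀) = α (u s - u₀) + β (τ s - t₀) + o(|u s - u₀| + |τ s - t₀|)`; as `u` is continuous and `τ`, `W` are differentiable, `(α + o(1)) (u s - u₀) = O(s - s₀)`, so `u s - u₀ = O(s - s₀)`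
and then `α (u s - u₀) = (W'(s₀) - β τ'(s₀)) (s - s₀) + o(s - s₀)`.
(One can also use `HasFDerivAt` / `isLittleO` calculus directly, or an implicit function lemma of Mathlib such as `HasStrictDerivAt.localInverse` for fixed `t` where `τ` is constant.)
`wp_hol_comp`: composition.
-/

namespace Pool.Agent.Helper2.LN2

open Pool.Agent.Helper2.LN

theorem wp_hol_comp (Ω : Set ℂ) (u τ : ℂ → ℂ) (hu : DifferentiableOn ℂ u Ω) (hτ : DifferentiableOn ℂ τ Ω)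
    (hΩ : IsOpen Ω) (hH : ∀ s ∈ Ω, τ s ∈ HH) (hL : ∀ s ∈ Ω, u s ∉ Lat (τ s)) :
    DifferentiableOn ℂ (fun s => wp (u s) (τ s)) Ω := by
  sorry

theorem wp_hol_lift (Ω : Set ℂ) (hΩ : IsOpen Ω) (u τ W : ℂ → ℂ) (hu : ContinuousOn u Ω)
    (hτ : DifferentiableOn ℂ τ Ω) (hW : DifferentiableOn ℂ W Ω) (hH : ∀ s ∈ Ω, τ s ∈ HH)
    (hL : ∀ s ∈ Ω, 2 * u s ∉ Lat (τ s)) (h : ∀ s ∈ Ω, wp (u s) (τ s) = W s) : DifferentiableOn ℂ u Ω := by
  sorry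

end Pool.Agent.Helper2.LN2
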