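import Pool.Agent.Helper2.LN2.EWp

/-!
# LN2-E2 (MP_730da0_ag): `wp` is jointly differentiable

Paper proof.  Let `t₀ ∈ HH`, `z₀ ∉ Lat t₀`.  By `lat_bound` and `isOpen_off` there are `δ, r > 0` such that on the ball `s` of radius `r` around `(z₀, t₀)` (convex, open): `t ∈ HH`, `z ∉ Lat t`,
`δ (|m| + |n|) ≤ ‖m + n t‖` and `‖z‖ ≤ R`, `‖t‖ ≤ R`.  The finitely many terms with `δ (|m| + |n|) ≤ 2 R` are differentiable at `(z₀, t₀)`; for the other terms `l = m + n t` satisfies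
`‖z - l‖ ≥ ‖l‖ / 2`, and the term `1/(z-l)^2 - 1/l^2` has the partial derivatives `∂_z = -2/(z-l)^3` and `∂_t = 2 n (1/(z-l)^3 + 1/l^3) = 2 n z (z^2 - 3 z l + 3 l^2) / ((z-l)^3 l^3)`,
both bounded by `C (|m| + |n|)^(-3)`, which is summable over `ℤ × ℤ`.  `hasFDerivAt_tsum_of_isPreconnected` (Mathlib.Analysis.Calculus.SmoothSeries) for the sum over the complement of the finite set
(summable at one point: it is the Weierstrass series; or by the bound `C (|m|+|n|)^(-3)` of the terms).  Summability of `(|m| + |n|)^(-3)` (or of `max(|m|,|n|)^(-3)`) over `ℤ × ℤ`: Mathlib has it (Eisenstein series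
summability, `summable_one_div_norm_rpow` in `EisensteinSeries`, or `PeriodPair`'s own lemmas).
-/

namespace Pool.Agent.Helper2.LN2

open Pool.Agent.Helper2.LN

/-- `1 + |m| + |n|` -/
private noncomputable def sz (l : ℤ × ℤ) : ℝ := 1 + |(l.1 : ℝ)| + |(l.2 : ℝ)|

private theorem sz_pos (l : ℤ × ℤ) : 1 ≤ sz l := by
  unfold sz
  have := abs_nonneg (l.1 : ℝ)
  have := abs_nonneg (l.2 : ℝ)
  linarith

private theorem summ1 : Summable (fun m : ℤ => (1 + |(m : ℝ)|) ^ (-(3 / 2) : ℝ)) := by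
  have h : Summable (fun m : ℤ => |(m : ℝ)| ^ (-(3 / 2) : ℝ)) := by
    have := Real.summable_abs_int_rpow (b := 3 / 2) (by norm_num)
    simpa using this
  refine Summable.of_norm_bounded_eventually h ?_
  have hf : {m : ℤ | ¬ (‖(1 + |(m : ℝ)|) ^ (-(3 / 2) : ℝ)‖ ≤ |(m : ℝ)| ^ (-(3 / 2) : ℝ))} ⊆ {0} := by
    intro m hm
    by_contra h0
    apply hm
    have h0' : m ≠ 0 := h0
    have hp : 0 < |(m : ℝ)| := abs_pos.mpr (by exact_mod_cast h0')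
    rw [Real.norm_of_nonneg (Real.rpow_nonneg (by positivity) _)]
    exact Real.rpow_le_rpow_of_nonpos hp (by linarith) (by norm_num)
  exact (Set.finite_singleton (0 : ℤ)).subset hf

private theorem summ2 : Summable (fun l : ℤ × ℤ => 1 / sz l ^ 3) := by
  have h := summ1.mul_of_nonneg summ1 (fun m => Real.rpow_nonneg (by positivity) _)
    (fun m => Real.rpow_nonneg (by positivity) _)
  refine Summable.of_nonneg_of_le (fun l => ?_) (fun l => ?_) h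
  · have := sz_pos l
    positivity
  · have h1 : 1 + |(l.1 : ℝ)| ≤ sz l := by
      unfold sz
      have := abs_nonneg (l.2 : ℝ)
      linarith
    have h2 : 1 + |(l.2 : ℝ)| ≤ sz l := by
      unfold sz
      have := abs_nonneg (l.1 : ℝ)
      linarith
    have hs := sz_pos l
    have e : (1 : ℝ) / sz l ^ 3 = sz l ^ (-(3 / 2) : ℝ) * sz l ^ (-(3 / 2) : ℝ) := by
      rw [← Real.rpow_add (by linarith), one_div, ← Real.rpow_natCast, ← Real.rpow_neg (by linarith)]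
      norm_num
    rw [e]
    have hp1 : 0 < 1 + |(l.1 : ℝ)| := by positivity
    have hp2 : 0 < 1 + |(l.2 : ℝ)| := by positivity
    exact mul_le_mul (Real.rpow_le_rpow_of_nonpos hp1 h1 (by norm_num))
      (Real.rpow_le_rpow_of_nonpos hp2 h2 (by norm_num))
      (Real.rpow_nonneg (by linarith) _) (Real.rpow_nonneg (by positivity) _)

/-- a positive lower bound on a finite set -/
private theorem fin_low (F : Finset (ℤ × ℤ)) (g : ℤ × ℤ → ℝ) (hg : ∀ l, 0 < g l) :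
    ∃ c : ℝ, 0 < c ∧ ∀ l ∈ F, c ≤ g l := by
  classical
  induction F using Finset.induction_on with
  | empty => exact ⟨1, one_pos, by simp⟩
  | insert a s _ ih =>
    obtain ⟨c, hc, h⟩ := ih
    refine ⟨min c (g a), lt_min hc (hg a), fun l hl => ?_⟩
    rcases Finset.mem_insert.mp hl with rfl | hl
    · exact min_le_right _ _
    · exact (min_le_left _ _).trans (h l hl)

/-- the lattice stays away from `z` -/
private theorem low {z t : ℂ} (hz : z ∉ Lat t) (δ : ℝ) (hδ : 0 < δ)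
    (hl : ∀ m n : ℤ, δ * (|(m : ℝ)| + |(n : ℝ)|) ≤ ‖(m : ℂ) + n * t‖) :
    ∃ c : ℝ, 0 < c ∧ ∀ l : ℤ × ℤ, 2 * c * sz l ≤ ‖z - ((l.1 : ℂ) + l.2 * t)‖ := by
  obtain ⟨B, hB⟩ := exists_nat_gt ((‖z‖ + δ) / (δ / 2))
  let F : Finset (ℤ × ℤ) := Finset.Icc (-(B : ℤ)) B ×ˢ Finset.Icc (-(B : ℤ)) B
  obtain ⟨c, hc, hF⟩ := fin_low F (fun l => ‖z - ((l.1 : ℂ) + l.2 * t)‖ / (2 * sz l)) (by
    intro l
    have hs := sz_pos l
    have : 0 < ‖z - ((l.1 : ℂ) + l.2 * t)‖ := by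
      rw [norm_pos_iff]
      intro h0
      exact hz ⟨l.1, l.2, sub_eq_zero.mp h0⟩
    positivity)
  refine ⟨min c (δ / 4), lt_min hc (by linarith), fun l => ?_⟩
  have hs := sz_pos l
  by_cases hl' : l ∈ F
  · have h1 := hF l hl'
    have h2 : min c (δ / 4) ≤ c := min_le_left _ _
    have h3 : c * (2 * sz l) ≤ ‖z - ((l.1 : ℂ) + l.2 * t)‖ := (le_div_iff₀ (by linarith)).mp h1
    calc 2 * min c (δ / 4) * sz l = min c (δ / 4) * (2 * sz l) := by ring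
      _ ≤ c * (2 * sz l) := mul_le_mul_of_nonneg_right h2 (by linarith)
      _ ≤ _ := h3
  · have h2 : min c (δ / 4) ≤ δ / 4 := min_le_right _ _
    have hbig : (B : ℝ) ≤ |(l.1 : ℝ)| + |(l.2 : ℝ)| := by
      by_contra hlt
      push Not at hlt
      apply hl'
      have a1 : |(l.1 : ℝ)| ≤ B := by
        have := abs_nonneg (l.2 : ℝ)
        linarith
      have a2 : |(l.2 : ℝ)| ≤ B := by
        have := abs_nonneg (l.1 : ℝ)
        linarith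
      have b1 : |l.1| ≤ (B : ℤ) := by exact_mod_cast a1
      have b2 : |l.2| ≤ (B : ℤ) := by exact_mod_cast a2
      rw [Finset.mem_product, Finset.mem_Icc, Finset.mem_Icc]
      exact ⟨abs_le.mp b1, abs_le.mp b2⟩
    have h3 := hl l.1 l.2
    have h4 : ‖(l.1 : ℂ) + l.2 * t‖ ≤ ‖z - ((l.1 : ℂ) + l.2 * t)‖ + ‖z‖ := by
      have := norm_sub_le z (z - ((l.1 : ℂ) + l.2 * t))
      have e : z - (z - ((l.1 : ℂ) + l.2 * t)) = (l.1 : ℂ) + l.2 * t := by ring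
      rw [e] at this
      linarith
    have h5 : ‖z‖ + δ < (δ / 2) * B := by
      have := (div_lt_iff₀ (by linarith : (0 : ℝ) < δ / 2)).mp hB
      linarith
    have h6 : (δ / 2) * B ≤ (δ / 2) * (|(l.1 : ℝ)| + |(l.2 : ℝ)|) :=
      mul_le_mul_of_nonneg_left hbig (by linarith)
    have h7 : 2 * min c (δ / 4) * sz l ≤ δ / 2 * sz l := by
      apply mul_le_mul_of_nonneg_right _ (by linarith)
      linarith
    have h8 : δ / 2 * sz l = δ / 2 + δ / 2 * (|(l.1 : ℝ)| + |(l.2 : ℝ)|) := by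
      unfold sz
      ring
    nlinarith

/-- the derivative of the term -/
private noncomputable def dd (x : ℂ × ℂ) (l : ℤ × ℤ) : ℂ × ℂ →L[ℂ] ℂ :=
  (-2 / (x.1 - ((l.1 : ℂ) + l.2 * x.2)) ^ 3) • ContinuousLinearMap.fst ℂ ℂ ℂ +
    (2 * (l.2 : ℂ) * (1 / (x.1 - ((l.1 : ℂ) + l.2 * x.2)) ^ 3 + 1 / ((l.1 : ℂ) + l.2 * x.2) ^ 3)) •
      ContinuousLinearMap.snd ℂ ℂ ℂ

private theorem has_inv_sq {w : ℂ} (hw : w ≠ 0) : HasDerivAt (fun w : ℂ => 1 / w ^ 2) (-2 / w ^ 3) w := by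
  have h := (hasDerivAt_inv (pow_ne_zero 2 hw)).comp w (hasDerivAt_pow 2 w)
  have e : (fun w : ℂ => 1 / w ^ 2) = (fun w : ℂ => w⁻¹) ∘ (fun w : ℂ => w ^ 2) := by
    funext w
    simp [one_div]
  rw [e]
  refine h.congr_deriv ?_
  have : w ^ 2 ≠ 0 := pow_ne_zero 2 hw
  field_simp
  norm_num
  ring

private theorem has_dd (x : ℂ × ℂ) (l : ℤ × ℤ) (hw : x.1 - ((l.1 : ℂ) + l.2 * x.2) ≠ 0)
    (hl : l = 0 ∨ (l.1 : ℂ) + l.2 * x.2 ≠ 0) :
    HasFDerivAt (fun x : ℂ × ℂ => wpt x.1 x.2 l) (dd x l) x := by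
  have h1 : HasFDerivAt (fun x : ℂ × ℂ => (l.1 : ℂ) + l.2 * x.2) ((l.2 : ℂ) • ContinuousLinearMap.snd ℂ ℂ ℂ) x := by
    have := (hasFDerivAt_snd (𝕜 := ℂ) (E := ℂ) (F := ℂ) (p := x)).const_mul (l.2 : ℂ)
    exact this.const_add _
  have h2 : HasFDerivAt (fun x : ℂ × ℂ => x.1 - ((l.1 : ℂ) + l.2 * x.2))
      (ContinuousLinearMap.fst ℂ ℂ ℂ - (l.2 : ℂ) • ContinuousLinearMap.snd ℂ ℂ ℂ) x :=
    hasFDerivAt_fst.sub h1
  have h3 := (has_inv_sq hw).comp_hasFDerivAt x h2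
  rcases hl with rfl | hl
  · have e : (fun x : ℂ × ℂ => wpt x.1 x.2 0) =
        (fun w : ℂ => 1 / w ^ 2) ∘ (fun x : ℂ × ℂ => x.1 - (((0 : ℤ × ℤ).1 : ℂ) + ((0 : ℤ × ℤ).2 : ℂ) * x.2)) := by
      funext y
      simp [wpt]
    rw [e]
    refine h3.congr_fderiv ?_
    unfold dd
    ext <;> simp
  · have h4 := (has_inv_sq hl).comp_hasFDerivAt x h1
    have h5 := h3.sub h4
    have e : (fun x : ℂ × ℂ => wpt x.1 x.2 l) =
        ((fun w : ℂ => 1 / w ^ 2) ∘ (fun x : ℂ × ℂ => x.1 - ((l.1 : ℂ) + l.2 * x.2))) -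
          ((fun w : ℂ => 1 / w ^ 2) ∘ (fun x : ℂ × ℂ => (l.1 : ℂ) + l.2 * x.2)) := by
      funext y
      simp [wpt]
    rw [e]
    refine h5.congr_fderiv ?_
    unfold dd
    ext
    · simp
    · simp
      ring

private theorem dd_bound (x : ℂ × ℂ) (l : ℤ × ℤ) (c δ R : ℝ) (hc : 0 < c) (hδ : 0 < δ) (hR : ‖x.1‖ ≤ R)
    (hw : c * sz l ≤ ‖x.1 - ((l.1 : ℂ) + l.2 * x.2)‖)
    (hl : δ * (|(l.1 : ℝ)| + |(l.2 : ℝ)|) ≤ ‖(l.1 : ℂ) + l.2 * x.2‖) :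
    ‖dd x l‖ ≤ ((2 + 2 * R / δ * (R ^ 2 / δ ^ 2 + 3 * R / δ + 3)) / c ^ 3) * (1 / sz l ^ 3) := by
  have hs := sz_pos l
  have hR0 : 0 ≤ R := (norm_nonneg _).trans hR
  set z := x.1 with hzdef
  set L : ℂ := (l.1 : ℂ) + l.2 * x.2 with hL
  have hcs : 0 < c * sz l := by positivity
  have hwp : 0 < ‖z - L‖ := lt_of_lt_of_le hcs hw
  have hw0 : z - L ≠ 0 := norm_pos_iff.mp hwp
  have hA : ‖(-2 / (z - L) ^ 3 : ℂ)‖ ≤ 2 / (c * sz l) ^ 3 := by
    rw [norm_div, norm_neg, norm_pow]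
    have : ‖(2 : ℂ)‖ = 2 := by simp
    rw [this]
    exact div_le_div_of_nonneg_left (by norm_num) (by positivity) (pow_le_pow_left₀ hcs.le hw 3)
  have hB : ‖(2 * (l.2 : ℂ) * (1 / (z - L) ^ 3 + 1 / L ^ 3))‖ ≤
      2 * R / δ * (R ^ 2 / δ ^ 2 + 3 * R / δ + 3) / (c * sz l) ^ 3 := by
    by_cases h0 : l = 0
    · have e : (l.2 : ℂ) = 0 := by rw [h0]; simp
      rw [e]
      simp only [mul_zero, zero_mul, norm_zero]
      positivity
    · have hσ : 1 ≤ |(l.1 : ℝ)| + |(l.2 : ℝ)| := by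
        by_contra hlt
        push Not at hlt
        have b : |l.1| + |l.2| < 1 := by exact_mod_cast hlt
        have b1 := abs_nonneg l.1
        have b2 := abs_nonneg l.2
        have c1 : l.1 = 0 := abs_eq_zero.mp (by omega)
        have c2 : l.2 = 0 := abs_eq_zero.mp (by omega)
        exact h0 (Prod.ext c1 c2)
      set y := ‖L‖ with hy
      have hyδ : δ ≤ y := by nlinarith
      have hy0 : 0 < y := lt_of_lt_of_le hδ hyδ
      have hL0 : L ≠ 0 := norm_pos_iff.mp hy0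
      have hn : ‖(l.2 : ℂ)‖ ≤ y / δ := by
        have e : ‖(l.2 : ℂ)‖ = |(l.2 : ℝ)| := by
          rw [← Complex.ofReal_intCast, Complex.norm_real, Real.norm_eq_abs]
        rw [e, le_div_iff₀ hδ]
        have := abs_nonneg (l.1 : ℝ)
        nlinarith
      have e1 : 2 * (l.2 : ℂ) * (1 / (z - L) ^ 3 + 1 / L ^ 3) =
          2 * (l.2 : ℂ) * (z * (z ^ 2 - 3 * z * L + 3 * L ^ 2)) / ((z - L) ^ 3 * L ^ 3) := by
        field_simp
        ring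
      have hnum : ‖z * (z ^ 2 - 3 * z * L + 3 * L ^ 2)‖ ≤ R * (R ^ 2 + 3 * R * y + 3 * y ^ 2) := by
        rw [norm_mul]
        apply mul_le_mul hR _ (norm_nonneg _) hR0
        have i1 : ‖z ^ 2 - 3 * z * L + 3 * L ^ 2‖ ≤ ‖z ^ 2‖ + ‖3 * z * L‖ + ‖3 * L ^ 2‖ :=
          (norm_add_le _ _).trans (add_le_add_left (norm_sub_le _ _) _)
        have i2 : ‖z ^ 2‖ ≤ R ^ 2 := by
          rw [norm_pow]
          exact pow_le_pow_left₀ (norm_nonneg _) hR 2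
        have i3 : ‖3 * z * L‖ ≤ 3 * R * y := by
          rw [norm_mul, norm_mul]
          have : ‖(3 : ℂ)‖ = 3 := by simp
          rw [this]
          exact mul_le_mul_of_nonneg_right (mul_le_mul_of_nonneg_left hR (by norm_num)) (norm_nonneg _)
        have i4 : ‖3 * L ^ 2‖ = 3 * y ^ 2 := by
          rw [norm_mul, norm_pow]
          simp [hy]
        linarith
      rw [e1, norm_div, norm_mul, norm_mul (2 : ℂ), norm_mul ((z - L) ^ 3), norm_pow, norm_pow]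
      have t2 : ‖(2 : ℂ)‖ = 2 := by simp
      rw [t2, ← hy]
      have hN : 2 * ‖(l.2 : ℂ)‖ * ‖z * (z ^ 2 - 3 * z * L + 3 * L ^ 2)‖ ≤
          2 * (y / δ) * (R * (R ^ 2 + 3 * R * y + 3 * y ^ 2)) := by
        apply mul_le_mul _ hnum (norm_nonneg _) (by positivity)
        exact mul_le_mul_of_nonneg_left hn (by norm_num)
      have hD : (c * sz l) ^ 3 * y ^ 3 ≤ ‖z - L‖ ^ 3 * y ^ 3 :=
        mul_le_mul_of_nonneg_right (pow_le_pow_left₀ hcs.le hw 3) (by positivity)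
      calc 2 * ‖(l.2 : ℂ)‖ * ‖z * (z ^ 2 - 3 * z * L + 3 * L ^ 2)‖ / (‖z - L‖ ^ 3 * y ^ 3)
          ≤ 2 * (y / δ) * (R * (R ^ 2 + 3 * R * y + 3 * y ^ 2)) / ((c * sz l) ^ 3 * y ^ 3) :=
            div_le_div₀ (by positivity) hN (by positivity) hD
        _ = 2 * R / δ * (R ^ 2 / y ^ 2 + 3 * R / y + 3) / (c * sz l) ^ 3 := by
            field_simp
        _ ≤ 2 * R / δ * (R ^ 2 / δ ^ 2 + 3 * R / δ + 3) / (c * sz l) ^ 3 := by
            gcongr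
  have hfst : ‖ContinuousLinearMap.fst ℂ ℂ ℂ‖ ≤ 1 := ContinuousLinearMap.norm_fst_le ℂ ℂ ℂ
  have hsnd : ‖ContinuousLinearMap.snd ℂ ℂ ℂ‖ ≤ 1 := ContinuousLinearMap.norm_snd_le ℂ ℂ ℂ
  have hfin : ‖dd x l‖ ≤ ‖(-2 / (z - L) ^ 3 : ℂ)‖ + ‖(2 * (l.2 : ℂ) * (1 / (z - L) ^ 3 + 1 / L ^ 3))‖ := by
    unfold dd
    refine (norm_add_le _ _).trans (add_le_add ?_ ?_)
    · rw [norm_smul]
      exact mul_le_of_le_one_right (norm_nonneg _) hfst
    · rw [norm_smul]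
      exact mul_le_of_le_one_right (norm_nonneg _) hsnd
  have e2 : ((2 + 2 * R / δ * (R ^ 2 / δ ^ 2 + 3 * R / δ + 3)) / c ^ 3) * (1 / sz l ^ 3) =
      2 / (c * sz l) ^ 3 + 2 * R / δ * (R ^ 2 / δ ^ 2 + 3 * R / δ + 3) / (c * sz l) ^ 3 := by
    rw [mul_pow]
    field_simp
  rw [e2]
  linarith

private theorem wpt_bound (z t : ℂ) (l : ℤ × ℤ) (c δ R : ℝ) (hc : 0 < c) (hδ : 0 < δ) (hR : ‖z‖ ≤ R) (h0 : l ≠ 0)
    (hw : c * sz l ≤ ‖z - ((l.1 : ℂ) + l.2 * t)‖)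
    (hl : δ * (|(l.1 : ℝ)| + |(l.2 : ℝ)|) ≤ ‖(l.1 : ℂ) + l.2 * t‖) :
    ‖wpt z t l‖ ≤ (2 * R * (2 + R / δ) / (δ * c ^ 2)) * (1 / sz l ^ 3) := by
  have hs := sz_pos l
  have hR0 : 0 ≤ R := (norm_nonneg _).trans hR
  set L : ℂ := (l.1 : ℂ) + l.2 * t with hL
  have hcs : 0 < c * sz l := by positivity
  have hwp : 0 < ‖z - L‖ := lt_of_lt_of_le hcs hw
  have hw0 : z - L ≠ 0 := norm_pos_iff.mp hwp
  have hσ : 1 ≤ |(l.1 : ℝ)| + |(l.2 : ℝ)| := by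
    by_contra hlt
    push Not at hlt
    have b : |l.1| + |l.2| < 1 := by exact_mod_cast hlt
    have b1 := abs_nonneg l.1
    have b2 := abs_nonneg l.2
    have c1 : l.1 = 0 := abs_eq_zero.mp (by omega)
    have c2 : l.2 = 0 := abs_eq_zero.mp (by omega)
    exact h0 (Prod.ext c1 c2)
  set y := ‖L‖ with hy
  have hsz : sz l = 1 + (|(l.1 : ℝ)| + |(l.2 : ℝ)|) := by
    unfold sz
    ring
  have hyδ : δ ≤ y := by nlinarith
  have hys : δ * (sz l / 2) ≤ y := by nlinarith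
  have hy0 : 0 < y := lt_of_lt_of_le hδ hyδ
  have hL0 : L ≠ 0 := norm_pos_iff.mp hy0
  have e1 : wpt z t l = z * (2 * L - z) / ((z - L) ^ 2 * L ^ 2) := by
    unfold wpt
    rw [← hL]
    field_simp
    ring
  have hnum : ‖z * (2 * L - z)‖ ≤ R * (2 * y + R) := by
    rw [norm_mul]
    apply mul_le_mul hR _ (norm_nonneg _) hR0
    refine (norm_sub_le _ _).trans ?_
    rw [norm_mul]
    have : ‖(2 : ℂ)‖ = 2 := by simp
    rw [this]
    linarith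
  rw [e1, norm_div, norm_mul ((z - L) ^ 2), norm_pow, norm_pow, ← hy]
  have hD : (c * sz l) ^ 2 * y ^ 2 ≤ ‖z - L‖ ^ 2 * y ^ 2 :=
    mul_le_mul_of_nonneg_right (pow_le_pow_left₀ hcs.le hw 2) (by positivity)
  calc ‖z * (2 * L - z)‖ / (‖z - L‖ ^ 2 * y ^ 2)
      ≤ R * (2 * y + R) / ((c * sz l) ^ 2 * y ^ 2) := div_le_div₀ (by positivity) hnum (by positivity) hD
    _ = R * (2 + R / y) / ((c * sz l) ^ 2 * y) := by
        field_simp
    _ ≤ R * (2 + R / δ) / ((c * sz l) ^ 2 * (δ * (sz l / 2))) := by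
        apply div_le_div₀ (by positivity) _ (by positivity) _
        · gcongr
        · gcongr
    _ = (2 * R * (2 + R / δ) / (δ * c ^ 2)) * (1 / sz l ^ 3) := by
        field_simp


private theorem pre_ball (x : ℂ × ℂ) (ρ : ℝ) : IsPreconnected (Metric.ball x ρ) := by
  have h := convex_ball x ρ
  exact h.isPreconnected

private theorem gen {E : Type} [NormedAddCommGroup E] [NormedSpace ℂ E] (s : Set E) (x₀ : E) (hs : IsOpen s)
    (hpre : IsPreconnected s) (hmem : x₀ ∈ s)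
    (u : ℤ × ℤ → ℝ) (hu : Summable u) (f : ℤ × ℤ → E → ℂ) (f' : ℤ × ℤ → E → (E →L[ℂ] ℂ))
    (h1 : ∀ l : ℤ × ℤ, ∀ x : E, x ∈ s → HasFDerivAt (f l) (f' l x) x)
    (h2 : ∀ l : ℤ × ℤ, ∀ x : E, x ∈ s → ‖f' l x‖ ≤ u l)
    (h3 : Summable (fun l : ℤ × ℤ => f l x₀)) :
    DifferentiableAt ℂ (fun x : E => ∑' l, f l x) x₀ := by
  have hF := hasFDerivAt_tsum_of_isPreconnected hu hs hpre h1 h2 hmem h3 hmem
  exact hF.differentiableAt

private theorem tsum_diff (s : Set (ℂ × ℂ)) (x₀ : ℂ × ℂ) (hs : IsOpen s) (hpre : IsPreconnected s) (hmem : x₀ ∈ s)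
    (u : ℤ × ℤ → ℝ) (hu : Summable u) (dd : ℂ × ℂ → ℤ × ℤ → (ℂ × ℂ →L[ℂ] ℂ))
    (h1 : ∀ l : ℤ × ℤ, ∀ x : ℂ × ℂ, x ∈ s → HasFDerivAt (fun y : ℂ × ℂ => wpt y.1 y.2 l) (dd x l) x)
    (h2 : ∀ l : ℤ × ℤ, ∀ x : ℂ × ℂ, x ∈ s → ‖dd x l‖ ≤ u l)
    (h3 : Summable (fun l : ℤ × ℤ => wpt x₀.1 x₀.2 l)) :
    DifferentiableAt ℂ (fun x : ℂ × ℂ => wp x.1 x.2) x₀ := by
  exact gen (E := ℂ × ℂ) s x₀ hs hpre hmem u hu (fun l y => wpt y.1 y.2 l) (fun l y => dd y l) h1 h2 h3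

theorem wp_joint {z t : ℂ} (ht : t ∈ HH) (hz : z ∉ Lat t) :
    DifferentiableAt ℂ (fun x : ℂ × ℂ => wp x.1 x.2) (z, t) := by
  obtain ⟨δ, hδ, r, hr, hrH, hlat⟩ := lat_bound ht
  obtain ⟨c, hc, hlow⟩ := low hz δ hδ (hlat t (Metric.mem_ball_self hr))
  set ρ : ℝ := min (min c r) 1 with hρ
  have hρ0 : 0 < ρ := lt_min (lt_min hc hr) one_pos
  have hρc : ρ ≤ c := (min_le_left _ _).trans (min_le_left _ _)
  have hρr : ρ ≤ r := (min_le_left _ _).trans (min_le_right _ _)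
  have hρ1 : ρ ≤ 1 := min_le_right _ _
  set s : Set (ℂ × ℂ) := Metric.ball (z, t) ρ with hsdef
  have hx1 : ∀ x ∈ s, ‖x.1 - z‖ ≤ ρ ∧ ‖x.2 - t‖ < ρ := by
    intro x hx
    rw [hsdef, Metric.mem_ball, Prod.dist_eq] at hx
    have := max_lt_iff.mp hx
    rw [dist_eq_norm, dist_eq_norm] at this
    exact ⟨this.1.le, this.2⟩
  have hxl : ∀ x ∈ s, ∀ l : ℤ × ℤ, δ * (|(l.1 : ℝ)| + |(l.2 : ℝ)|) ≤ ‖(l.1 : ℂ) + l.2 * x.2‖ := by
    intro x hx l
    apply hlat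
    rw [Metric.mem_ball, dist_eq_norm]
    exact lt_of_lt_of_le (hx1 x hx).2 hρr
  have hxw : ∀ x ∈ s, ∀ l : ℤ × ℤ, c * sz l ≤ ‖x.1 - ((l.1 : ℂ) + l.2 * x.2)‖ := by
    intro x hx l
    obtain ⟨h1, h2⟩ := hx1 x hx
    have h3 := hlow l
    have hs := sz_pos l
    have e : z - ((l.1 : ℂ) + l.2 * t) = (x.1 - ((l.1 : ℂ) + l.2 * x.2)) - ((x.1 - z) - l.2 * (x.2 - t)) := by
      ring
    have h4 : ‖z - ((l.1 : ℂ) + l.2 * t)‖ ≤ ‖x.1 - ((l.1 : ℂ) + l.2 * x.2)‖ + (‖x.1 - z‖ + ‖(l.2 : ℂ)‖ * ‖x.2 - t‖) := by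
      rw [e]
      refine (norm_sub_le _ _).trans (add_le_add_right ?_ _)
      refine (norm_sub_le _ _).trans (add_le_add_right ?_ _)
      rw [norm_mul]
    have e3 : ‖(l.2 : ℂ)‖ = |(l.2 : ℝ)| := by
      rw [← Complex.ofReal_intCast, Complex.norm_real, Real.norm_eq_abs]
    rw [e3] at h4
    have h5 : ‖x.1 - z‖ + |(l.2 : ℝ)| * ‖x.2 - t‖ ≤ c * sz l := by
      have i1 : |(l.2 : ℝ)| * ‖x.2 - t‖ ≤ |(l.2 : ℝ)| * c :=
        mul_le_mul_of_nonneg_left (h2.le.trans hρc) (abs_nonneg _)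
      have i2 : c * sz l = c + |(l.1 : ℝ)| * c + |(l.2 : ℝ)| * c := by
        unfold sz
        ring
      have i3 : 0 ≤ |(l.1 : ℝ)| * c := by positivity
      linarith
    linarith
  have hxR : ∀ x ∈ s, ‖x.1‖ ≤ ‖z‖ + 1 := by
    intro x hx
    have h := (hx1 x hx).1
    have : ‖x.1‖ ≤ ‖z‖ + ‖x.1 - z‖ := by
      have e : x.1 = z + (x.1 - z) := by ring
      calc ‖x.1‖ = ‖z + (x.1 - z)‖ := by rw [← e]
        _ ≤ _ := norm_add_le _ _
    linarith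
  have hmem : ((z, t) : ℂ × ℂ) ∈ s := Metric.mem_ball_self hρ0
  have hpre : IsPreconnected s := pre_ball (z, t) ρ
  have hsum : Summable (fun l : ℤ × ℤ =>
      ((2 + 2 * (‖z‖ + 1) / δ * ((‖z‖ + 1) ^ 2 / δ ^ 2 + 3 * (‖z‖ + 1) / δ + 3)) / c ^ 3) * (1 / sz l ^ 3)) :=
    summ2.mul_left _
  refine tsum_diff s (z, t) Metric.isOpen_ball hpre hmem _ hsum dd ?_ ?_ ?_
  · intro l x hx
    have hs := sz_pos l
    apply has_dd
    · have : 0 < ‖x.1 - ((l.1 : ℂ) + l.2 * x.2)‖ := lt_of_lt_of_le (by positivity) (hxw x hx l)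
      exact norm_pos_iff.mp this
    · by_cases h0 : l = 0
      · exact Or.inl h0
      · right
        have hσ : 1 ≤ |(l.1 : ℝ)| + |(l.2 : ℝ)| := by
          by_contra hlt
          push Not at hlt
          have b : |l.1| + |l.2| < 1 := by exact_mod_cast hlt
          have b1 := abs_nonneg l.1
          have b2 := abs_nonneg l.2
          have c1 : l.1 = 0 := abs_eq_zero.mp (by omega)
          have c2 : l.2 = 0 := abs_eq_zero.mp (by omega)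
          exact h0 (Prod.ext c1 c2)
        have : 0 < ‖(l.1 : ℂ) + l.2 * x.2‖ := lt_of_lt_of_le (by nlinarith) (hxl x hx l)
        exact norm_pos_iff.mp this
  · intro l x hx
    exact dd_bound x l c δ (‖z‖ + 1) hc hδ (hxR x hx) (hxw x hx l) (hxl x hx l)
  · have hg : Summable (fun l : ℤ × ℤ => (2 * (‖z‖ + 1) * (2 + (‖z‖ + 1) / δ) / (δ * c ^ 2)) * (1 / sz l ^ 3)) :=
      summ2.mul_left _
    refine Summable.of_norm_bounded_eventually hg ?_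
    refine (Set.finite_singleton (0 : ℤ × ℤ)).subset ?_
    intro l hl
    by_contra h0
    apply hl
    exact wpt_bound z t l c δ (‖z‖ + 1) hc hδ (hxR (z, t) hmem) h0 (hxw (z, t) hmem l) (hxl (z, t) hmem l)

end Pool.Agent.Helper2.LN2
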