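import Pool.Agent.Helper2.LN2.EDefs

/-!
# LN2-E0 (MP_730da0_ag): the lattice `ℤ + ℤ t`

Paper proofs.
* `rep`, `rep_uniq`: `t` and `1` are a real basis of `ℂ` (`b = Im z / Im t`, `a = Re z - b Re t`).  `mem_Lat_iff`: by uniqueness.
* `lat_bound`: let `r = Im t₀ / 2`, so `Im t ≥ r` and `‖t‖ ≤ K := ‖t₀‖ + r` on the ball.  `‖m + n t‖ ≥ |n| Im t ≥ r |n|`; and `|m| ≤ ‖m + n t‖ + |n| K ≤ (1 + K/r) ‖m + n t‖`.  So
  `|m| + |n| ≤ (1 + K/r + 1/r) ‖m + n t‖`.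
* `isOpen_off`: let `(z₀, t₀)` be in the set, `δ, r` from `lat_bound`.  For `t` in the ball and `‖z‖ ≤ ‖z₀‖ + 1` only the finitely many `(m, n)` with `δ (|m| + |n|) ≤ ‖z₀‖ + 1` can have `z = m + n t`; for each of them
  `z ≠ m + n t` is an open condition.  `isOpen_off2`: preimage of `isOpen_off` under `(z, t) ↦ (2 z, t)`.  `isClosed_Lat`: slice of `isOpen_off`.  `Lat_countable`: image of `ℤ × ℤ`.
-/

namespace Pool.Agent.Helper2.LN2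

open Pool.Agent.Helper2.LN

theorem isOpen_HH : IsOpen HH := by
  sorry

theorem convex_HH : Convex ℝ HH := by
  sorry

theorem Lat_zero (t : ℂ) : (0 : ℂ) ∈ Lat t := by
  sorry

theorem Lat_one (t : ℂ) : (1 : ℂ) ∈ Lat t := by
  sorry

theorem Lat_self (t : ℂ) : t ∈ Lat t := by
  sorry

theorem Lat_add {t z w : ℂ} (hz : z ∈ Lat t) (hw : w ∈ Lat t) : z + w ∈ Lat t := by
  sorry

theorem Lat_sub {t z w : ℂ} (hz : z ∈ Lat t) (hw : w ∈ Lat t) : z - w ∈ Lat t := by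
  sorry

theorem Lat_neg {t z : ℂ} (hz : z ∈ Lat t) : -z ∈ Lat t := by
  sorry

theorem Lat_int_mul {t z : ℂ} (n : ℤ) (hz : z ∈ Lat t) : (n : ℂ) * z ∈ Lat t := by
  sorry

theorem Lat_countable (t : ℂ) : (Lat t).Countable := by
  sorry

/-- real coordinates -/
theorem rep {t : ℂ} (ht : t ∈ HH) (z : ℂ) : ∃ a b : ℝ, z = a + b * t := by
  sorry

theorem rep_uniq {t : ℂ} (ht : t ∈ HH) {a b a' b' : ℝ} (h : (a : ℂ) + b * t = a' + b' * t) : a = a' ∧ b = b' := by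
  sorry

theorem mem_Lat_iff {t : ℂ} (ht : t ∈ HH) (a b : ℝ) :
    (a : ℂ) + b * t ∈ Lat t ↔ (∃ m : ℤ, a = m) ∧ ∃ n : ℤ, b = n := by
  sorry

theorem lat_bound {t₀ : ℂ} (ht : t₀ ∈ HH) : ∃ δ : ℝ, 0 < δ ∧ ∃ r : ℝ, 0 < r ∧ Metric.ball t₀ r ⊆ HH ∧
    ∀ t ∈ Metric.ball t₀ r, ∀ m n : ℤ, δ * (|(m : ℝ)| + |(n : ℝ)|) ≤ ‖(m : ℂ) + n * t‖ := by
  sorry

theorem isOpen_off : IsOpen {x : ℂ × ℂ | x.2 ∈ HH ∧ x.1 ∉ Lat x.2} := by
  sorry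

theorem isOpen_off2 : IsOpen {x : ℂ × ℂ | x.2 ∈ HH ∧ 2 * x.1 ∉ Lat x.2} := by
  sorry

theorem isClosed_Lat {t : ℂ} (ht : t ∈ HH) : IsClosed (Lat t) := by
  sorry

end Pool.Agent.Helper2.LN2
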