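import Pool.Agent.Helper2.LN2.EJoint
import Pool.Agent.Helper2.LN2.EInj

/-!
# LN2-E5 (MP_730da0_ag): `(z, t) ↦ (wp z t, t)` is open

Paper proof.  Let `w₀ = wp z₀ t₀`.  Choose `0 < ρ' < ρ` such that the closed ball of radius `ρ'` around `z₀` does not meet `Lat t₀` and `wp z t₀ ≠ w₀` for `0 < ‖z - z₀‖ ≤ ρ'` (`wp_deriv_ne`: `z₀` is an isolated zero of `wp(., t₀) - w₀`, e.g. `HasDerivAt.eventually_ne`).
On the compact circle `‖wp z t₀ - w₀‖ ≥ 4 η > 0`.  `(z, t) ↦ wp z t` is continuous on the open set of `isOpen_off` (`wp_joint`), so for `t` near `t₀` (compactness of the closed ball): the closed ball does not meet `Lat t`,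
`‖wp z t - wp z t₀‖ ≤ η` on it; so `‖wp z t - wp z₀ t‖ ≥ 2 η` on the circle.  `DiffContOnCl.ball_subset_image_closedBall` (Mathlib.Analysis.Complex.OpenMapping): `ball (wp z₀ t) η ⊆` image of the closed ball, and `‖wp z₀ t - w₀‖ < η/2` for `t` near `t₀`.
So `ε = min(η/2, ..)` works.
-/

namespace Pool.Agent.Helper2.LN2

open Pool.Agent.Helper2.LN

theorem wp_open {z₀ t₀ : ℂ} (ht : t₀ ∈ HH) (hz : 2 * z₀ ∉ Lat t₀) (ρ : ℝ) (hρ : 0 < ρ) :
    ∃ ε : ℝ, 0 < ε ∧ ∀ t ∈ Metric.ball t₀ ε, ∀ w ∈ Metric.ball (wp z₀ t₀) ε, ∃ z ∈ Metric.ball z₀ ρ, wp z t = w := by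
  sorry

end Pool.Agent.Helper2.LN2
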