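import Pool.Agent.Helper2.LN2.ELat

/-!
# LN2-E1 (MP_730da0_ag): `wp` is Mathlib's Weierstrass function

Paper proofs.  `L : PeriodPair` with `ω₁ = 1`, `ω₂ = t` (linearly independent over `ℝ` as `Im t > 0`: `rep_uniq`).  `L.lattice = Lat t` (span of two elements).  `℘[L] z = ∑' l : L.lattice, (1/(z - l)^2 - 1/l^2)`;
reindex by `L.latticeEquivProd` (or any bijection `ℤ × ℤ ≃ L.lattice`, `(m, n) ↦ m + n t`).  The rest is in `Mathlib.Analysis.SpecialFunctions.Elliptic.Weierstrass`: `differentiableOn_weierstrassP`,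
`weierstrassP_neg`, `weierstrassP_add_coe`.
`wp_modular`: `m + n (at+b)/(ct+d) = ((md + nb) + (mc + na) t) / (ct+d)`; `(m, n) ↦ (md + nb, mc + na)` is a bijection of `ℤ × ℤ` (`ad - bc = 1`), and term by term
`1/(z - l/(ct+d))^2 - 1/(l/(ct+d))^2 = (ct+d)^2 (1/((ct+d) z - l)^2 - 1/l^2)` (`ct + d ≠ 0`; also for `l = 0` in Lean's convention); `Equiv.tsum_eq`, `tsum_mul_left`.
`Lat_modular`: the same bijection.  `im_modular`: `Im ((at+b)/(ct+d)) = (ad - bc) Im t / |ct+d|^2`.
-/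

namespace Pool.Agent.Helper2.LN2

open Pool.Agent.Helper2.LN

theorem exists_pair {t : ℂ} (ht : t ∈ HH) : ∃ L : PeriodPair, L.ω₁ = 1 ∧ L.ω₂ = t ∧
    (∀ z, z ∈ L.lattice ↔ z ∈ Lat t) ∧ ∀ z, L.weierstrassP z = wp z t := by
  have hli : LinearIndependent ℝ ![(1 : ℂ), t] := by
    rw [LinearIndependent.pair_iff]
    intro a b hab
    have hab' : (a : ℂ) + b * t = (0 : ℝ) + (0 : ℝ) * t := by
      simpa [Complex.real_smul] using hab
    exact rep_uniq ht hab'
  let L : PeriodPair := ⟨1, t, hli⟩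
  refine ⟨L, rfl, rfl, ?_, ?_⟩
  · intro z
    rw [PeriodPair.mem_lattice]
    constructor
    · rintro ⟨m, n, h⟩
      exact ⟨m, n, by rw [← h]; show (m : ℂ) * 1 + n * t = m + n * t; ring⟩
    · rintro ⟨m, n, h⟩
      exact ⟨m, n, by rw [h]; show (m : ℂ) * 1 + n * t = m + n * t; ring⟩
  · intro z
    unfold PeriodPair.weierstrassP wp
    rw [← (L.latticeEquivProd.symm.toEquiv).tsum_eq]
    refine tsum_congr fun l => ?_
    have h1 : ((L.latticeEquivProd.symm.toEquiv l : L.lattice) : ℂ) = (l.1 : ℂ) + l.2 * t := by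
      have := L.latticeEquiv_symm_apply l
      rw [show ((L.latticeEquivProd.symm.toEquiv l : L.lattice) : ℂ) = (L.latticeEquivProd.symm l).1 from rfl, this]
      show (l.1 : ℂ) * 1 + l.2 * t = l.1 + l.2 * t
      ring
    rw [h1]
    rfl

theorem wp_diff {t : ℂ} (ht : t ∈ HH) : DifferentiableOn ℂ (fun z => wp z t) (Lat t)ᶜ := by
  obtain ⟨L, -, -, hL, hw⟩ := exists_pair ht
  have h1 : (fun z => wp z t) = L.weierstrassP := by
    funext z
    exact (hw z).symm
  have h2 : (Lat t)ᶜ = ((L.lattice : Set ℂ))ᶜ := by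
    ext z
    simp only [Set.mem_compl_iff, SetLike.mem_coe, hL z]
  rw [h1, h2]
  exact L.differentiableOn_weierstrassP

theorem wp_neg {t : ℂ} (ht : t ∈ HH) (z : ℂ) : wp (-z) t = wp z t := by
  obtain ⟨L, -, -, hL, hw⟩ := exists_pair ht
  rw [← hw, ← hw]
  exact L.weierstrassP_neg z

theorem wp_add {t : ℂ} (ht : t ∈ HH) (z l : ℂ) (hl : l ∈ Lat t) : wp (z + l) t = wp z t := by
  obtain ⟨L, -, -, hL, hw⟩ := exists_pair ht
  rw [← hw, ← hw]
  exact L.weierstrassP_add_coe z ⟨l, (hL l).2 hl⟩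

theorem den_ne {t : ℂ} (ht : t ∈ HH) (a b c d : ℤ) (h : a * d - b * c = 1) : (c : ℂ) * t + d ≠ 0 := by
  intro h0
  have him : (c : ℝ) * t.im = 0 := by
    have := congrArg Complex.im h0
    simpa using this
  have ht' : (0 : ℝ) < t.im := ht
  have hc : (c : ℝ) = 0 := by
    rcases mul_eq_zero.1 him with h1 | h1
    · exact h1
    · exact absurd h1 ht'.ne'
  have hc' : c = 0 := by exact_mod_cast hc
  have hd : (d : ℂ) = 0 := by
    rw [hc'] at h0
    simpa using h0
  have hd' : d = 0 := by exact_mod_cast hd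
  rw [hc', hd'] at h
  simp at h

theorem im_modular {t : ℂ} (ht : t ∈ HH) (a b c d : ℤ) (h : a * d - b * c = 1) :
    (((a : ℂ) * t + b) / (c * t + d)).im = t.im / ‖(c : ℂ) * t + d‖ ^ 2 := by
  have hne := den_ne ht a b c d h
  rw [Complex.div_im, ← Complex.normSq_eq_norm_sq]
  have h2 : Complex.normSq ((c : ℂ) * t + d) ≠ 0 := by
    rwa [Ne, Complex.normSq_eq_zero]
  have h3 : (a : ℝ) * d - b * c = 1 := by exact_mod_cast h
  rw [← sub_div]
  congr 1
  simp
  linear_combination t.im * h3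

theorem HH_modular {t : ℂ} (ht : t ∈ HH) (a b c d : ℤ) (h : a * d - b * c = 1) :
    ((a : ℂ) * t + b) / (c * t + d) ∈ HH := by
  show 0 < (((a : ℂ) * t + b) / (c * t + d)).im
  rw [im_modular ht a b c d h]
  have h1 : 0 < ‖(c : ℂ) * t + d‖ := norm_pos_iff.2 (den_ne ht a b c d h)
  have h2 : (0 : ℝ) < t.im := ht
  positivity

theorem Lat_modular {t : ℂ} (ht : t ∈ HH) (a b c d : ℤ) (h : a * d - b * c = 1) (z : ℂ) :
    z ∈ Lat (((a : ℂ) * t + b) / (c * t + d)) ↔ ((c : ℂ) * t + d) * z ∈ Lat t := by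
  have hne := den_ne ht a b c d h
  have hC : (a : ℂ) * d - b * c = 1 := by exact_mod_cast h
  constructor
  · rintro ⟨m, n, hz⟩
    refine ⟨m * d + n * b, m * c + n * a, ?_⟩
    rw [hz]
    push_cast
    field_simp
    ring
  · rintro ⟨m, n, hz⟩
    refine ⟨m * a - n * b, n * d - m * c, ?_⟩
    have hz' : z = ((m : ℂ) + n * t) / (c * t + d) := by
      rw [← hz]
      field_simp
    rw [hz', div_eq_iff hne]
    have h5 : ((m * a - n * b : ℤ) : ℂ) + ((n * d - m * c : ℤ) : ℂ) * (((a : ℂ) * t + b) / (c * t + d)) =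
        (((m * a - n * b : ℤ) : ℂ) * (c * t + d) + ((n * d - m * c : ℤ) : ℂ) * ((a : ℂ) * t + b)) / (c * t + d) := by
      rw [eq_div_iff hne, add_mul, mul_assoc, div_mul_cancel₀ _ hne]
    rw [h5, div_mul_cancel₀ _ hne]
    push_cast
    linear_combination (-(m : ℂ) - n * t) * hC

theorem wp_modular {t : ℂ} (ht : t ∈ HH) (a b c d : ℤ) (h : a * d - b * c = 1) (z : ℂ) :
    wp z (((a : ℂ) * t + b) / (c * t + d)) = ((c : ℂ) * t + d) ^ 2 * wp (((c : ℂ) * t + d) * z) t := by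
  have hne := den_ne ht a b c d h
  let e : ℤ × ℤ ≃ ℤ × ℤ :=
    { toFun := fun p => (p.1 * d + p.2 * b, p.1 * c + p.2 * a)
      invFun := fun p => (p.1 * a - p.2 * b, p.2 * d - p.1 * c)
      left_inv := by
        rintro ⟨m, n⟩
        refine Prod.ext ?_ ?_
        · show (m * d + n * b) * a - (m * c + n * a) * b = m
          linear_combination m * h
        · show (m * c + n * a) * d - (m * d + n * b) * c = n
          linear_combination n * h
      right_inv := by
        rintro ⟨m, n⟩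
        refine Prod.ext ?_ ?_
        · show (m * a - n * b) * d + (n * d - m * c) * b = m
          linear_combination m * h
        · show (m * a - n * b) * c + (n * d - m * c) * a = n
          linear_combination n * h }
  unfold wp
  rw [← e.tsum_eq (fun l => wpt (((c : ℂ) * t + d) * z) t l), ← tsum_mul_left]
  refine tsum_congr fun l => ?_
  obtain ⟨m, n⟩ := l
  have h1 : (m : ℂ) + n * (((a : ℂ) * t + b) / (c * t + d)) =
      (((m * d + n * b : ℤ) : ℂ) + ((m * c + n * a : ℤ) : ℂ) * t) / (c * t + d) := by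
    rw [eq_div_iff hne, add_mul, mul_assoc, div_mul_cancel₀ _ hne]
    push_cast
    ring
  show 1 / (z - ((m : ℂ) + n * (((a : ℂ) * t + b) / (c * t + d)))) ^ 2
      - 1 / ((m : ℂ) + n * (((a : ℂ) * t + b) / (c * t + d))) ^ 2 =
    ((c : ℂ) * t + d) ^ 2 * (1 / ((((c : ℂ) * t + d) * z) - (((m * d + n * b : ℤ) : ℂ) + ((m * c + n * a : ℤ) : ℂ) * t)) ^ 2
      - 1 / (((m * d + n * b : ℤ) : ℂ) + ((m * c + n * a : ℤ) : ℂ) * t) ^ 2)
  rw [h1]
  generalize (((m * d + n * b : ℤ) : ℂ) + ((m * c + n * a : ℤ) : ℂ) * t) = w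
  generalize (c : ℂ) * t + d = D at hne ⊢
  have h2 : z - w / D = (D * z - w) / D := by
    field_simp
  rw [h2, div_pow, div_pow, one_div_div, one_div_div, mul_sub]
  ring

end Pool.Agent.Helper2.LN2
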