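import Pool.Agent.Helper2.LN2.Affine
import Pool.Agent.Helper2.LN2.EDefs
import Pool.Agent.Helper2.LN.Rigid

/-!
# LN2-X (MP_730da0_ag): the other roots form a multisection

Paper proof.  `units_affine`: `y`.  On `Conf k`: `y q = (X q 1 - X q 0)/(q 1 - q 0)`, so `y` is continuous on `Conf k`, `y (q ∘ π) = y q` and, where `X` is holomorphic along a curve, so is `y`.
`F q = {w : q ∈ Conf k, and there is x ∈ rootF f q with x ≠ X q l for all l and x - X q l = y q (w - q l) for all l}`.  For `x ∈ rootF f q` the number `w = (x - X q 0)/y q + q 0` satisfies `x - X q l = y q (w - q l)` for all `l`.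
* `Sys`: `perm`: `rootF_perm`, `Eqv.eqv`, `y (q ∘ π) = y q`.  `lift`: given `w₀ ∈ F (γ a₀)` with `x₀`: `rootF_lift` gives `x`, never equal to `X (γ a) l` (`rootF_uniq`, not equal at `a₀`); `s = (x - X (γ ·) 0)/y + γ 0`.
  `uniq`: `s ↦ x = X (γ ·) 0 + y (s - γ 0)` gives sections of `rootF f`, `rootF_uniq`.
* `ES`: `fin`: `rootF_card`; `ne`: `rootF f q` has `n > k` points (`rootF_enum`), so one of them is not an `X q l`.  `avoid`: `w = q i` gives `x = X q i`.
  `hom`: `c = e^s`; `rigid` at `q`: `Y : ℂ → ℂ` with: every continuous section of `rootF f` along `s ↦ e^s q` is `Y s` times its value at `0`.  Applied to `X (e^s q) l`: `X (c q) l = Y X q l`; applied to the lift of `x`: `Y x ∈ rootF f (c q)`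
  (`Y = Y s ≠ 0`).  `y (c q) = Y y q / c`.  So `Y x - X (c q) l = Y y q (w - q l) = y (c q) (c w - c q l)`; `Y x ≠ X (c q) l`.
  `hol`: along `γ` on `Ω`: locally (on a ball in `Ω`) `x = X (γ ·) 0 + y (X_W - γ 0)` is a continuous section of `rootF f`, holomorphic by `rootF_diff`; `X (γ ·) l` is holomorphic by `rootF_diff`; `y ∘ γ` too; `X_W = (x - X (γ ·) 0)/y + γ 0`.
-/

namespace Pool.Agent.Helper2.LN2

open Pool.Agent.Helper2.LN

theorem extra {k n : ℕ} (hk : 5 ≤ k) (hn : k < n) (f : C(G0 k, G0 n)) (hf : Holo f)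
    (X : (Fin k → ℂ) → (Fin k → ℂ)) (hX : Eqv X) (hr : ∀ q ∈ Conf k, ∀ l, X q l ∈ rootF f q) :
    ∃ S : Sys k ℂ, ES S := by
  sorry

end Pool.Agent.Helper2.LN2
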