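import Pool.Agent.Helper2.LN2.PMax
import Pool.Agent.Helper2.LN2.ECover
import Pool.Agent.Helper2.LN2.EHol

/-!
# LN2-P4 (MP_730da0_ag): finite invariant families are affine

Paper proof.  `HH` (as a subtype) is simply connected and locally path connected (convex, open).  By `wp_surj` there is `z₀` with `wp z₀ t₀ = W i t₀`, and `2 z₀ ∉ Lat t₀` by `hav`; `wp_lift` with `A = HH`, extended by `0` outside, gives `U i` continuous on `HH`
with `2 U i t ∉ Lat t`, `wp (U i t) t = W i t`; holomorphic by `wp_hol_lift`.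
Invariance: for `g = (a, b; c, d)` let `j` be from `inv`.  `s ↦ (cs+d) U i (g s)` is a lift of `W j` on `HH`: `wp ((cs+d) U, s) = (cs+d)^-2 wp (U, g s)` (`wp_modular`), `2 (cs+d) U ∉ Lat s` (`Lat_modular`).  By `wp_uniq` (`A = HH`) it differs from `U j` by
`ε, m, n`: `PP (U j) t = PP ((cs+d) U i (g s)) t = PP (U i) (g t)` (`PP_congr`, `PP_modular`).  `PP_zero`: `PP (U i) = 0` on `HH`.
On `Ω` (nonempty, convex, open, so connected): `u` is a lift of `W i`, so `u = ε U i + m + n t` on `Ω` (`wp_uniq`, `A = Ω`), `u` is holomorphic, `PP u = PP (U i) = 0` on `Ω`; `PP_affine`.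
-/

namespace Pool.Agent.Helper2.LN2

open Pool.Agent.Helper2.LN

theorem fam_affine {ι : Type} [Finite ι] (W : ι → ℂ → ℂ) (hW : ∀ i, DifferentiableOn ℂ (W i) HH)
    (hav : ∀ i, ∀ t ∈ HH, ∀ z, 2 * z ∈ Lat t → z ∉ Lat t → W i t ≠ wp z t)
    (inv : ∀ (i : ι) (a b c d : ℤ), a * d - b * c = 1 → ∃ j, ∀ t ∈ HH,
      ((c : ℂ) * t + d) ^ 2 * W j t = W i ((a * t + b) / (c * t + d)))
    (i : ι) (Ω : Set ℂ) (hΩ : IsOpen Ω) (hc : Convex ℝ Ω) (hne : Ω.Nonempty) (hH : Ω ⊆ HH) (u : ℂ → ℂ)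
    (hu : ContinuousOn u Ω) (hl : ∀ t ∈ Ω, 2 * u t ∉ Lat t ∧ wp (u t) t = W i t) :
    ∃ α β : ℝ, ∀ t ∈ Ω, u t = α + β * t := by
  sorry

end Pool.Agent.Helper2.LN2
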