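import Pool.Agent.Helper2.LN2.TFive

/-!
# LN2-L5 (MP_730da0_ag): one affine section for all `p`

Paper proof.  `EE k t` is countable, so there is `p₁ ∉ EE k t`; `S.F (qf k p₁ t)` is nonempty (`ES.ne`, `qf_conf`): `T5` gives `c, κ` with the property near `p₁`.
`G` = the set of `p ∉ EE k t` such that for all `p'` in a neighbourhood of `p`: `2 (κ + c p') ∉ Lat t` and `wp (κ + c p') t ∈ S.F (qf k p' t)`.  `G` is open, contains `p₁`.
`G` is closed in `(EE k t)ᶜ`: let `p_* ∉ EE k t` be in the closure of `G`, `r` from `T5` for `p_*`, `p₀ ∈ G ∩ ball p_* r`, `w = wp (κ + c p₀) t ∈ S.F (qf k p₀ t)`.  `T5`: `c', κ'` with `wp (κ' + c' p₀) t = w`, and the property on `ball p_* r`.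
Near `p₀` both `p ↦ wp (κ + c p) t` and `p ↦ wp (κ' + c' p) t` are continuous sections of `S.F (qf k p t)` (over a small ball around `p₀`), equal at `p₀`, so equal near `p₀` (`S.uniq`).  By `wp_uniq` (on this small ball, `t` constant)
`κ' + c' p = ε (κ + c p) + l`, `ε = ± 1`, `l ∈ Lat t`, for `p` near `p₀`, so for all `p` (`c' = ε c`, `κ' = ε κ + l`).  So `wp (κ + c p) t = wp (κ' + c' p) t` (`wp_neg`, `wp_add`) and `2 (κ + c p) ∉ Lat t` on `ball p_* r`: `p_* ∈ G`.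
`(EE k t)ᶜ` is connected (complement of a countable set in `ℂ`: `Set.Countable.isPathConnected_compl_of_one_lt_rank`), so `G = (EE k t)ᶜ`.
-/

namespace Pool.Agent.Helper2.LN2

open Pool.Agent.Helper2.LN

theorem glob {k : ℕ} (hk : 4 ≤ k) (S : Sys k ℂ) (hS : ES S) {t : ℂ} (ht : t ∈ HH) :
    ∃ (c : ℝ) (κ : ℂ), ∀ p ∉ EE k t, 2 * (κ + c * p) ∉ Lat t ∧ wp (κ + c * p) t ∈ S.F (qf k p t) := by
  sorry

end Pool.Agent.Helper2.LN2
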