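import Pool.Agent.Helper2.LN.GrpA

/-!
# LN2-G1 (MP_730da0_ag): the standard orbit

Paper proof.  `B = s_0 A = s_0 s_0 s_1 ⋯ s_(k-2)`; `B p = p` and `s_i p = p` for `i ≥ 1` give `s_0 (s_0 p) = p`.  `Z_0 = p`, `Z_(j+1) = s_j Z_j` (define `Z j` by recursion on `ℕ`).
(1) `s_i Z_j = Z_j` for `i + 1 < k`, `j < k`, `i ≥ j + 1`: `Z_j = s_(j-1) ⋯ s_0 p`, `s_i` commutes with `s_0, .., s_(j-1)` and fixes `p` (induction on `j`).
(2) `s_i Z_j = Z_j` for `i + 2 ≤ j < k`: induction on `j`; for `j = i + 2`: `Z_j = s_(i+1) s_i Z_i`, `s_i s_(i+1) s_i Z_i = s_(i+1) s_i s_(i+1) Z_i = s_(i+1) s_i Z_i` by (1); for `j > i + 2`: `s_i s_(j-1) Z_(j-1) = s_(j-1) s_i Z_(j-1)`.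
(3) `s_j (s_j Z_j) = Z_j`: induction; with `a = s_(j-1)`, `b = s_j`, `x = Z_(j-1)`: `b x = x` by (1), `a a x = x`, and `b a x = b a b x = a b a x`, `b b a x = b a b a x = a b a a x = a b x = a x`.
So `s_i (Z_i) = Z_(i+1)`, `s_i (Z_(i+1)) = Z_i`, `s_i Z_j = Z_j` else.
(4) `A Z_j = Z_(j+1)` for `j + 1 < k`, `A = s_0 ⋯ s_(k-2)` (last factor first): the factors `s_(k-2), .., s_(j+1)` fix `Z_j`, `s_j` maps it to `Z_(j+1)`, the factors `s_(j-1), .., s_0` fix `Z_(j+1)`.
(5) If `Z_i = Z_j`, `i < j < k`: if `j > i + 1` apply `s_(j-1)`: `Z_i = Z_(j-1)`; so we may assume `j = i + 1`; `A^i Z_0 = Z_i`, `A^i Z_1 = Z_(i+1)`, so `Z_0 = Z_1 = A Z_0`, contradiction to `hA`.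
-/

namespace Pool.Agent.Helper2.LN2

open Pool.Agent.Helper2.LN

private def ZZ {F : Type} (s : ℕ → Equiv.Perm F) (p : F) : ℕ → F
  | 0 => p
  | (j + 1) => s j (ZZ s p j)

private theorem zz1 {F : Type} (k : ℕ) (s : ℕ → Equiv.Perm F)
    (hc : ∀ i j, i + 2 ≤ j → j + 1 < k → s i * s j = s j * s i)
    (p : F) (hp : ∀ i, 1 ≤ i → i + 1 < k → s i p = p) :
    ∀ j i, j + 1 ≤ i → i + 1 < k → s i (ZZ s p j) = ZZ s p j := by
  intro j
  induction j with
  | zero => intro i h1 h2; exact hp i (by omega) h2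
  | succ j ih =>
    intro i h1 h2
    have h3 := hc j i (by omega) h2
    have h4 : s i (s j (ZZ s p j)) = s j (s i (ZZ s p j)) := by
      rw [← Equiv.Perm.mul_apply, ← Equiv.Perm.mul_apply, h3]
    change s i (s j (ZZ s p j)) = s j (ZZ s p j)
    rw [h4, ih i (by omega) h2]

private theorem zz2 {F : Type} (k : ℕ) (s : ℕ → Equiv.Perm F)
    (hc : ∀ i j, i + 2 ≤ j → j + 1 < k → s i * s j = s j * s i)
    (hb : ∀ i, i + 2 < k → s i * s (i + 1) * s i = s (i + 1) * s i * s (i + 1))
    (p : F) (hp : ∀ i, 1 ≤ i → i + 1 < k → s i p = p) :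
    ∀ j i, i + 2 ≤ j → j < k → s i (ZZ s p j) = ZZ s p j := by
  intro j
  induction j with
  | zero => intro i h1 h2; omega
  | succ j ih =>
    intro i h1 h2
    rcases Nat.lt_or_ge (i + 2) (j + 1) with h | h
    · have h3 := hc i j (by omega) h2
      have h4 : s i (s j (ZZ s p j)) = s j (s i (ZZ s p j)) := by
        rw [← Equiv.Perm.mul_apply, ← Equiv.Perm.mul_apply, h3]
      change s i (s j (ZZ s p j)) = s j (ZZ s p j)
      rw [h4, ih i (by omega) (by omega)]
    · obtain rfl : j = i + 1 := by omega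
      have h3 := hb i (by omega)
      change s i (s (i + 1) (s i (ZZ s p i))) = s (i + 1) (s i (ZZ s p i))
      have h4 : s i (s (i + 1) (s i (ZZ s p i))) = s (i + 1) (s i (s (i + 1) (ZZ s p i))) := by
        have := congrArg (fun e : Equiv.Perm F => e (ZZ s p i)) h3
        simpa only [Equiv.Perm.mul_apply] using this
      rw [h4, zz1 k s hc p hp i (i + 1) le_rfl (by omega)]

private theorem zz3 {F : Type} (k : ℕ) (s : ℕ → Equiv.Perm F)
    (hc : ∀ i j, i + 2 ≤ j → j + 1 < k → s i * s j = s j * s i)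
    (hb : ∀ i, i + 2 < k → s i * s (i + 1) * s i = s (i + 1) * s i * s (i + 1))
    (p : F) (hp : ∀ i, 1 ≤ i → i + 1 < k → s i p = p)
    (h0 : s 0 (s 0 p) = p) :
    ∀ j, j + 1 < k → s j (s j (ZZ s p j)) = ZZ s p j := by
  intro j
  induction j with
  | zero => intro _; exact h0
  | succ j ih =>
    intro h
    have hx : s (j + 1) (ZZ s p j) = ZZ s p j := zz1 k s hc p hp j (j + 1) le_rfl (by omega)
    have ha := ih (by omega)
    have h3 := hb j (by omega)
    have h4 : ∀ w, s j (s (j + 1) (s j w)) = s (j + 1) (s j (s (j + 1) w)) := by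
      intro w
      have := congrArg (fun e : Equiv.Perm F => e w) h3
      simpa only [Equiv.Perm.mul_apply] using this
    change s (j + 1) (s (j + 1) (s j (ZZ s p j))) = s j (ZZ s p j)
    have h5 : s (j + 1) (s j (ZZ s p j)) = s j (s (j + 1) (s j (ZZ s p j))) := by
      conv_lhs => rw [← hx]
      rw [← h4]
    rw [h5, ← h4, ha, hx]

private theorem zzprod {F : Type} (k : ℕ) (s : ℕ → Equiv.Perm F) (p : F)
    (h1 : ∀ j i, j + 1 ≤ i → i + 1 < k → s i (ZZ s p j) = ZZ s p j)
    (h2 : ∀ j i, i + 2 ≤ j → j < k → s i (ZZ s p j) = ZZ s p j) :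
    ∀ j, j + 1 < k → ((List.range (k - 1)).map s).prod (ZZ s p j) = ZZ s p (j + 1) := by
  intro j hj
  have lo : ∀ m, m ≤ j → ((List.range m).map s).prod (ZZ s p (j + 1)) = ZZ s p (j + 1) := by
    intro m
    induction m with
    | zero => intro _; rfl
    | succ m ih =>
      intro hm
      rw [List.range_succ, List.map_append, List.prod_append, List.map_singleton,
        List.prod_singleton, Equiv.Perm.mul_apply, h2 (j + 1) m (by omega) (by omega)]
      exact ih (by omega)
  have hi : ∀ m, j + 1 ≤ m → m + 1 ≤ k →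
      ((List.range m).map s).prod (ZZ s p j) = ZZ s p (j + 1) := by
    intro m
    induction m with
    | zero => intro h _; omega
    | succ m ih =>
      intro hm hk
      rw [List.range_succ, List.map_append, List.prod_append, List.map_singleton,
        List.prod_singleton, Equiv.Perm.mul_apply]
      rcases Nat.lt_or_ge j m with h | h
      · rw [h1 j m (by omega) (by omega)]
        exact ih (by omega) (by omega)
      · obtain rfl : m = j := by omega
        exact lo m le_rfl
  exact hi (k - 1) (by omega) (by omega)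

theorem std_orbit {F : Type} (k : ℕ) (hk : 4 < k) (s : ℕ → Equiv.Perm F)
    (hc : ∀ i j, i + 2 ≤ j → j + 1 < k → s i * s j = s j * s i)
    (hb : ∀ i, i + 2 < k → s i * s (i + 1) * s i = s (i + 1) * s i * s (i + 1))
    (p : F) (hp : ∀ i, 1 ≤ i → i + 1 < k → s i p = p)
    (hB : (s 0 * ((List.range (k - 1)).map s).prod) p = p)
    (hA : ∀ w, ((List.range (k - 1)).map s).prod w ≠ w) :
    ∃ Z : ℕ → F, (∀ i j, i < k → j < k → Z i = Z j → i = j) ∧
      ∀ i j, i + 1 < k → j < k → s i (Z j) = Z (Equiv.swap i (i + 1) j) := by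
  have h1 := zz1 k s hc p hp
  have h2 := zz2 k s hc hb p hp
  have hAp : ∀ m, m + 1 ≤ k → ((List.range m).map s).prod p = s 0 p ∨ m = 0 := by
    intro m
    induction m with
    | zero => intro _; right; rfl
    | succ m ih =>
      intro hm
      left
      rw [List.range_succ, List.map_append, List.prod_append, List.map_singleton,
        List.prod_singleton, Equiv.Perm.mul_apply]
      rcases Nat.eq_zero_or_pos m with h | h
      · subst h; rfl
      · rw [hp m h (by omega)]
        rcases ih (by omega) with h' | h'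
        · exact h'
        · omega
  have h0 : s 0 (s 0 p) = p := by
    rcases hAp (k - 1) (by omega) with h | h
    · rw [Equiv.Perm.mul_apply, h] at hB
      exact hB
    · omega
  have h3 := zz3 k s hc hb p hp h0
  have h4 := zzprod k s p h1 h2
  have hlt : ∀ d i, i + 1 + d < k → ZZ s p i ≠ ZZ s p (i + 1 + d) := by
    intro d
    induction d with
    | zero =>
      intro i hi he
      apply hA (ZZ s p i)
      rw [h4 i (by omega)]
      exact he.symm
    | succ d ih =>
      intro i hi he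
      apply ih i (by omega)
      have h5 := congrArg (s (i + 1 + d)) he
      rw [h1 i (i + 1 + d) (by omega) (by omega)] at h5
      have h6 : s (i + 1 + d) (ZZ s p (i + 1 + (d + 1))) = ZZ s p (i + 1 + d) :=
        h3 (i + 1 + d) (by omega)
      rw [h6] at h5
      exact h5
  refine ⟨ZZ s p, ?_, ?_⟩
  · intro i j hi hj he
    rcases lt_trichotomy i j with h | h | h
    · exfalso
      obtain ⟨d, rfl⟩ : ∃ d, j = i + 1 + d := ⟨j - (i + 1), by omega⟩
      exact hlt d i hj he
    · exact h
    · exfalso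
      obtain ⟨d, rfl⟩ : ∃ d, i = j + 1 + d := ⟨i - (j + 1), by omega⟩
      exact hlt d j hi he.symm
  · intro i j hi hj
    rcases Nat.lt_or_ge j i with h | h
    · rw [Equiv.swap_apply_of_ne_of_ne (by omega) (by omega)]
      exact h1 j i (by omega) hi
    · rcases Nat.eq_or_lt_of_le h with h | h
      · subst h
        rw [Equiv.swap_apply_left]
        rfl
      · rcases Nat.lt_or_ge (i + 1) j with h' | h'
        · rw [Equiv.swap_apply_of_ne_of_ne (by omega) (by omega)]
          exact h2 j i (by omega) hj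
        · obtain rfl : j = i + 1 := by omega
          rw [Equiv.swap_apply_right]
          exact h3 i hi

end Pool.Agent.Helper2.LN2
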