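import Pool.Agent.Helper2.LN2.GrpStd
import Pool.Agent.Helper2.LN.GrpMain

/-!
# LN2-G2 (MP_730da0_ag): the group theorem

Paper proof.  `k - 1` is not a prime power and `k > 4`, so `k - 1 ≥ 6`.  As in `group_main` (LN/GrpMain.lean): `cyc_of_braid`, `cycB_of_braid`, `collapse` (with `N = k` and `N = k - 1`) and the assumption that not all `s_i` are equal give
`A^M = 1 → k ∣ M`, `B^M = 1 → (k-1) ∣ M` (copy the arguments `ordA`, `ordB` of `group_main`).  `rot_fix` for `A` and `k ∣ card`: `A w ≠ w` for all `w`.  `rot_fix` for `B`, `k - 1`: `p` with `B p = p` and `B^j w = w → w = p` for `0 < j < k - 1`.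
`core (k-1) .. B τ` (`τ` from `cycB_of_braid`): `τ 0 p = p`; conjugating with `B` (`B p = p`): `τ j p = p` for all `j : ZMod (k-1)`, so `s_i p = p` for `1 ≤ i`, `i + 1 < k`.  `std_orbit`.
-/

namespace Pool.Agent.Helper2.LN2

open Pool.Agent.Helper2.LN

theorem group_two {F : Type} [Finite F] (k : ℕ) (hk : 4 < k) (hpp : ¬ IsPrimePow (k - 1)) (s : ℕ → Equiv.Perm F)
    (hc : ∀ i j, i + 2 ≤ j → j + 1 < k → s i * s j = s j * s i)
    (hb : ∀ i, i + 2 < k → s i * s (i + 1) * s i = s (i + 1) * s i * s (i + 1))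
    (hn1 : Nat.card F ≡ 1 [MOD k - 1]) (hn2 : k ∣ Nat.card F) (hn3 : 2 ≤ Nat.card F)
    (rotA : ∃ c : F → ℂ, Function.Injective c ∧ ∃ ζ : ℂ, ∀ w,
      c (((List.range (k - 1)).map s).prod w) = ζ * c w)
    (rotB : ∃ c : F → ℂ, Function.Injective c ∧ ∃ ζ : ℂ, ∀ w,
      c ((s 0 * ((List.range (k - 1)).map s).prod) w) = ζ * c w)
    (hne : ¬ ∀ i, i + 1 < k → s i = s 0) :
    ∃ Z : ℕ → F, (∀ i j, i < k → j < k → Z i = Z j → i = j) ∧
      ∀ i j, i + 1 < k → j < k → s i (Z j) = Z (Equiv.swap i (i + 1) j) := by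
  push Not at hne
  obtain ⟨i0, hi0, hne⟩ := hne
  have hk5 : k ≠ 5 := by
    rintro rfl
    apply hpp
    have h4 : IsPrimePow ((2 : ℕ) ^ 2) := (Nat.Prime.isPrimePow (by norm_num)).pow (by norm_num)
    norm_num at h4
    exact h4
  have hk6 : k ≠ 6 := by
    rintro rfl
    exact hpp (Nat.Prime.isPrimePow (by norm_num))
  have hk7 : 7 ≤ k := by omega
  obtain ⟨A, hA⟩ : ∃ A, A = ((List.range (k - 1)).map s).prod := ⟨_, rfl⟩
  obtain ⟨σ, hσ, hσs⟩ := cyc_of_braid k hk s hc hb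
  obtain ⟨τ, hτ, hτs⟩ := cycB_of_braid k hk s hc hb
  rw [← hA] at rotA rotB hσ hτ
  have h0 : σ 0 = s 0 := by
    have h := hσs 0 (by omega)
    rwa [Nat.cast_zero] at h
  have ordA : ∀ M : ℕ, A ^ M = 1 → k ∣ M := by
    intro M hM
    by_contra hkM
    have h1 := collapse k (by omega) A σ hσ M hkM hM
    apply hne
    rw [← hσs i0 hi0, ← h0]
    exact h1 _ _
  have ordB : ∀ M : ℕ, (s 0 * A) ^ M = 1 → (k - 1) ∣ M := by
    intro M hM
    by_contra hkM
    have h1 := collapse (k - 1) (by omega) (s 0 * A) τ hτ M hkM hM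
    have h12 : s 1 = s 2 := by
      rw [← hτs 1 (le_refl 1) (by omega), ← hτs 2 (by omega) (by omega)]
      exact h1 _ _
    have c0 : A * s 0 * A⁻¹ = s 1 := by
      have h := hσ.conj 0
      rw [h0, zero_add] at h
      rw [h, ← hσs 1 (by omega), Nat.cast_one]
    have c1 : A * s 1 * A⁻¹ = s 2 := by
      have h := hσ.conj 1
      have e1 : σ 1 = s 1 := by
        rw [← hσs 1 (by omega), Nat.cast_one]
      rw [e1] at h
      rw [h, ← hσs 2 (by omega)]
      congr 1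
      norm_num
    have h01 : s 0 = s 1 := by
      have h : A * s 0 * A⁻¹ = A * s 1 * A⁻¹ := by rw [c0, c1, h12]
      exact mul_left_cancel (mul_right_cancel h)
    apply hne
    rcases Nat.eq_zero_or_pos i0 with h | h
    · rw [h]
    · rw [h01, ← hτs i0 h hi0, ← hτs 1 (le_refl 1) (by omega)]
      exact h1 _ _
  obtain ⟨cA, hcA, ζA, hζA⟩ := rotA
  obtain ⟨cB, hcB, ζB, hζB⟩ := rotB
  have hAw := (rot_fix A cA hcA ζA hζA k (by omega) ordA hn3).2 hn2
  obtain ⟨p, hp1, hp2⟩ := (rot_fix (s 0 * A) cB hcB ζB hζB (k - 1) (by omega) ordB hn3).1 hn1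
  have hcore := core (k - 1) (by omega) hpp (s 0 * A) τ hτ p hp1 hp2
  have hinv : (s 0 * A)⁻¹ p = p := by
    rw [Equiv.Perm.inv_eq_iff_eq]
    exact hp1.symm
  have hall : ∀ j : ℕ, τ (j : ZMod (k - 1)) p = p := by
    intro j
    induction j with
    | zero => rw [Nat.cast_zero]; exact hcore
    | succ j ih =>
      have h := hτ.conj (j : ZMod (k - 1))
      rw [Nat.cast_succ, ← h, Equiv.Perm.mul_apply, Equiv.Perm.mul_apply, hinv, ih, hp1]
  have hfix : ∀ i, 1 ≤ i → i + 1 < k → s i p = p := by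
    intro i h1 h2
    rw [← hτs i h1 h2]
    exact hall i
  rw [hA] at hp1 hAw
  exact std_orbit k hk s hc hb p hfix hp1 hAw

end Pool.Agent.Helper2.LN2
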