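import Pool.Agent.Helper2.LN2.EHol

/-!
# LN2-L1a (MP_730da0_ag): the leaves

Paper proofs.  `qL_mod`: the arguments differ by `m + n t`: `wp_add`.  `Adm_mod`: the same, `qL_mod`.
`qL_modular`: `(m + n (at+b)/(ct+d))/N · (ct+d) = ((md + nb) + (mc + na) t)/N`; `wp_modular`.
`Adm_modular`: let `t ∈ HH`, `w = ct + d ≠ 0`, `g t = (at+b)/(ct+d) ∈ HH`; use `Adm` of `L` at `g t`: `qL (Lg L) t = w^-2 • qL L (g t)` is injective; the arguments: `Lat_modular`; if `2 z ∈ Lat t`, `z ∉ Lat t`, then `z' = z/w` has `2 z' ∈ Lat (g t)`,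
`z' ∉ Lat (g t)`, and `qL L (g t) j = wp z' (g t) = w^2 wp z t` gives `qL (Lg L) t j = wp z t`.
`qL_hol`: `wp_hol_comp` in each component.
-/

namespace Pool.Agent.Helper2.LN2

open Pool.Agent.Helper2.LN

/-- The action of `SL_2(ℤ)` on labels. -/
def Lg {k : ℕ} (a b c d : ℤ) (L : Fin k → ℤ × ℤ) : Fin k → ℤ × ℤ :=
  fun j => ((L j).1 * d + (L j).2 * b, (L j).1 * c + (L j).2 * a)

theorem qL_mod {k N : ℕ} (hN : 0 < N) (L L' : Fin k → ℤ × ℤ)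
    (h : ∀ j, ∃ m n : ℤ, (L j).1 = (L' j).1 + N * m ∧ (L j).2 = (L' j).2 + N * n) {t : ℂ} (ht : t ∈ HH) :
    qL k N L t = qL k N L' t := by
  sorry

theorem Adm_mod {k N : ℕ} (hN : 0 < N) (L L' : Fin k → ℤ × ℤ)
    (h : ∀ j, ∃ m n : ℤ, (L j).1 = (L' j).1 + N * m ∧ (L j).2 = (L' j).2 + N * n) (hL : Adm k N L) :
    Adm k N L' := by
  sorry

theorem qL_modular {k N : ℕ} (hN : 0 < N) (L : Fin k → ℤ × ℤ) {t : ℂ} (ht : t ∈ HH) (a b c d : ℤ)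
    (h : a * d - b * c = 1) :
    qL k N L (((a : ℂ) * t + b) / (c * t + d)) = fun j => ((c : ℂ) * t + d) ^ 2 * qL k N (Lg a b c d L) t j := by
  sorry

theorem Adm_modular {k N : ℕ} (hN : 0 < N) (L : Fin k → ℤ × ℤ) (hL : Adm k N L) (a b c d : ℤ)
    (h : a * d - b * c = 1) : Adm k N (Lg a b c d L) := by
  sorry

theorem qL_hol {k N : ℕ} (L : Fin k → ℤ × ℤ) (hL : Adm k N L) : DifferentiableOn ℂ (qL k N L) HH := by
  sorry

end Pool.Agent.Helper2.LN2
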