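import Pool.Agent.Helper2.LN2.Fam
import Pool.Agent.Helper2.LN2.LeafA
import Pool.Agent.Helper2.LN.Trans

/-!
# LN2-L1b (MP_730da0_ag): sections over the leaves are affine

Paper proof.  Labels modulo `N`: the finite set `R` of all `L' : Fin k → Fin N × Fin N` (read in `ℤ × ℤ`) that are admissible (`Adm k N L'`).  If `L ≡ L'` modulo `N` then `qL k N L t = qL k N L' t` on `HH` and `Adm` is the same for both (`qL_mod`, `Adm_mod`).
`qL k N L` is holomorphic on `HH` for admissible `L` (`qL_hol`).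
Index set `ι`: pairs (`L' ∈ R`, `w ∈ S.F (qL k N L' I)`), finite by `ES.fin` (`I ∈ HH`).  `W_(L', w)` = the lift over `HH` of the curve `t ↦ qL k N L' t` through `w` (`S.lift` with `A = HH`, extended by `0`): continuous, `W t ∈ S.F (qL k N L' t)`,
holomorphic by `ES.hol`; `W t ≠ wp z t` for `2 z ∈ Lat t`, `z ∉ Lat t`: this value is one of the points `qL k N L' t j` (`Adm`) and `ES.avoid`.
Every continuous section over `HH` of `t ↦ S.F (qL k N L' t)`, `L' ∈ R`, is one of them (`S.uniq`, compare at `I`).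
Invariance: `g = (a, b; c, d)`, `L'' = L' g`: `(m, n) ↦ (m d + n b, m c + n a)` reduced modulo `N`.  `qL_modular`: `qL k N L' (g t) = (ct+d)^2 • qL k N L'' t`, `L''` is admissible (`Adm_modular`, `Adm_mod`); the function `t ↦ (ct+d)^-2 W (g t)` is a continuous section over `qL k N L''` by `ES.hom` (`c = (ct+d)^-2`), so it is a `W_j`.
Now the given `u` on `Ω`: let `t₀ ∈ Ω`; the section `w(t) = wp (u t) t ∈ S.F (qL k N L t)` on `Ω` is continuous (`wp_joint`); lift `W` over `HH` with `W t₀ = w t₀`; `W = w` on `Ω` (`S.uniq`).  `fam_affine`.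
-/

namespace Pool.Agent.Helper2.LN2

open Pool.Agent.Helper2.LN

private theorem leafB_lpc (D : Set ℂ) (hD : Convex ℝ D) : LocallyPathConnectedSpace D := by
  refine LocallyPathConnectedSpace.of_bases (p := fun _ (r : ℝ) => 0 < r)
    (s := fun x r => Subtype.val ⁻¹' Metric.ball (x : ℂ) r) ?_ ?_
  · intro x
    rw [nhds_subtype_eq_comap]
    exact (Metric.nhds_basis_ball (x := (x : ℂ))).comap Subtype.val
  · intro x r hr
    rw [Topology.IsInducing.subtypeVal.isPathConnected_iff, Subtype.image_preimage_coe]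
    exact (hD.inter (convex_ball _ _)).isPathConnected ⟨x, x.2, Metric.mem_ball_self hr⟩

/-- integer labels from labels modulo `N` -/
private def leafB_lab {k N : ℕ} (r : Fin k → Fin N × Fin N) : Fin k → ℤ × ℤ :=
  fun j => (((r j).1 : ℕ), ((r j).2 : ℕ))

private theorem leafB_red {k N : ℕ} (hN : 0 < N) (L : Fin k → ℤ × ℤ) :
    ∃ r : Fin k → Fin N × Fin N, ∀ j, ∃ m n : ℤ,
      (L j).1 = (leafB_lab r j).1 + N * m ∧ (L j).2 = (leafB_lab r j).2 + N * n := by
  have hN' : (0 : ℤ) < N := by exact_mod_cast hN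
  have key : ∀ x : ℤ, ∃ y : Fin N, ∃ m : ℤ, x = ((y : ℕ) : ℤ) + N * m := by
    intro x
    have h1 : 0 ≤ x % N := Int.emod_nonneg _ hN'.ne'
    have h2 : x % N < N := Int.emod_lt_of_pos _ hN'
    refine ⟨⟨(x % N).toNat, by omega⟩, x / N, ?_⟩
    have h3 : (((x % N).toNat : ℕ) : ℤ) = x % N := Int.toNat_of_nonneg h1
    simp only [h3]
    exact (Int.emod_add_mul_ediv x N).symm
  choose f hf using fun j => key (L j).1
  choose g hg using fun j => key (L j).2
  exact ⟨fun j => (f j, g j), fun j => by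
    obtain ⟨m, hm⟩ := hf j
    obtain ⟨n, hn⟩ := hg j
    exact ⟨m, n, hm, hn⟩⟩

/-- the sections over the leaf with the label `r` -/
private def leafB_Sect {k : ℕ} (S : Sys k ℂ) (N : ℕ) (r : Fin k → Fin N × Fin N) : Set (ℂ → ℂ) :=
  {W | (∀ t, t ∉ HH → W t = 0) ∧ ContinuousOn W HH ∧ Adm k N (leafB_lab r) ∧
    ∀ t ∈ HH, W t ∈ S.F (qL k N (leafB_lab r) t)}

private theorem leafB_I : Complex.I ∈ HH := by
  change 0 < Complex.I.im
  rw [Complex.I_im]
  exact one_pos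

private theorem leafB_eq {k : ℕ} (S : Sys k ℂ) (N : ℕ) (L : Fin k → ℤ × ℤ) (hL : Adm k N L)
    (D : Set ℂ) (hD : Convex ℝ D) (hH : D ⊆ HH) (w w' : ℂ → ℂ) (hw : ContinuousOn w D)
    (hw' : ContinuousOn w' D) (h : ∀ t ∈ D, w t ∈ S.F (qL k N L t))
    (h' : ∀ t ∈ D, w' t ∈ S.F (qL k N L t)) (t₀ : ℂ) (h0 : t₀ ∈ D) (he : w t₀ = w' t₀) :
    ∀ t ∈ D, w t = w' t := by
  have hpc : PreconnectedSpace D := Subtype.preconnectedSpace hD.isPreconnected
  have hq : Continuous fun t : D => qL k N L (t : ℂ) :=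
    ((qL_hol L hL).continuousOn.mono hH).domRestrict
  have e := S.uniq D ⟨fun t => qL k N L (t : ℂ), hq⟩ (fun t => (hL t (hH t.2)).1)
    ⟨fun t => w t, hw.domRestrict⟩ ⟨fun t => w' t, hw'.domRestrict⟩ (fun t => h t t.2)
    (fun t => h' t t.2) ⟨⟨t₀, h0⟩, he⟩
  intro t ht
  exact congrArg (fun s : C(D, ℂ) => s ⟨t, ht⟩) e

private theorem leafB_fin {k : ℕ} (S : Sys k ℂ) (hS : ES S) (N : ℕ) (r : Fin k → Fin N × Fin N) :
    (leafB_Sect S N r).Finite := by
  by_cases hA : Adm k N (leafB_lab r)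
  · refine Set.Finite.of_injOn (f := fun W => W Complex.I)
      (t := S.F (qL k N (leafB_lab r) Complex.I)) ?_ ?_ (hS.fin _ (hA _ leafB_I).1)
    · intro W hW
      exact hW.2.2.2 _ leafB_I
    · intro W hW W' hW' he
      funext t
      by_cases ht : t ∈ HH
      · exact leafB_eq S N _ hA HH convex_HH subset_rfl W W' hW.2.1 hW'.2.1 hW.2.2.2 hW'.2.2.2
          Complex.I leafB_I he t ht
      · rw [hW.1 t ht, hW'.1 t ht]
  · convert Set.finite_empty
    ext W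
    constructor
    · intro h
      exact absurd h.2.2.1 hA
    · intro h
      exact absurd h (Set.notMem_empty _)

theorem leaf_affine {k : ℕ} (S : Sys k ℂ) (hS : ES S) (N : ℕ) (hN : 0 < N) (L : Fin k → ℤ × ℤ)
    (hL : Adm k N L) (Ω : Set ℂ) (hΩ : IsOpen Ω) (hc : Convex ℝ Ω) (hne : Ω.Nonempty) (hH : Ω ⊆ HH)
    (u : ℂ → ℂ) (hu : ContinuousOn u Ω)
    (hl : ∀ t ∈ Ω, 2 * u t ∉ Lat t ∧ wp (u t) t ∈ S.F (qL k N L t)) :
    ∃ α β : ℝ, ∀ t ∈ Ω, u t = α + β * t := by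
  classical
  have hfin : (⋃ r, leafB_Sect S N r).Finite := Set.finite_iUnion fun r => leafB_fin S hS N r
  have hFI : Finite (⋃ r, leafB_Sect S N r : Set (ℂ → ℂ)) := hfin.to_subtype
  -- the section over the whole half plane
  obtain ⟨t₀, ht₀⟩ := hne
  obtain ⟨r₀, hr₀⟩ := leafB_red hN L
  have hA₀ : Adm k N (leafB_lab r₀) := Adm_mod hN L _ hr₀ hL
  have hwc : ContinuousOn (fun t => wp (u t) t) Ω := by
    intro t ht
    have h1 : u t ∉ Lat t := fun h => (hl t ht).1 (by rw [two_mul]; exact Lat_add h h)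
    have h2 := (wp_joint (hH ht) h1).continuousAt
    exact ContinuousAt.comp_continuousWithinAt (f := fun s => (u s, s))
      (g := fun x : ℂ × ℂ => wp x.1 x.2) h2 ((hu t ht).prodMk continuousWithinAt_id)
  have hwF : ∀ t ∈ Ω, wp (u t) t ∈ S.F (qL k N (leafB_lab r₀) t) := by
    intro t ht
    rw [← qL_mod hN L _ hr₀ (hH ht)]
    exact (hl t ht).2
  have hcs : ContractibleSpace HH := convex_HH.contractibleSpace ⟨_, leafB_I⟩
  have hlp : LocallyPathConnectedSpace HH := leafB_lpc HH convex_HH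
  obtain ⟨s, hs0, hs⟩ := S.lift HH ⟨fun t => qL k N (leafB_lab r₀) (t : ℂ),
    (qL_hol _ hA₀).continuousOn.domRestrict⟩ (fun t => (hA₀ t t.2).1) ⟨t₀, hH ht₀⟩ (wp (u t₀) t₀)
    (hwF t₀ ht₀)
  set W₀ : ℂ → ℂ := fun t => if h : t ∈ HH then s ⟨t, h⟩ else 0 with hW₀
  have hW₀i : ∀ t (h : t ∈ HH), W₀ t = s ⟨t, h⟩ := fun t h => dif_pos h
  have hW₀m : W₀ ∈ leafB_Sect S N r₀ := by
    refine ⟨fun t h => dif_neg h, ?_, hA₀, ?_⟩
    · rw [continuousOn_iff_continuous_domRestrict]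
      have h3 : HH.domRestrict W₀ = s := by
        funext x
        rw [Set.domRestrict_apply]
        exact hW₀i x x.2
      rw [h3]
      exact s.continuous
    · intro t ht
      rw [hW₀i t ht]
      exact hs ⟨t, ht⟩
  have hWΩ : ∀ t ∈ Ω, wp (u t) t = W₀ t := by
    refine leafB_eq S N _ hA₀ Ω hc hH (fun t => wp (u t) t) W₀ hwc (hW₀m.2.1.mono hH) hwF
      (fun t ht => hW₀m.2.2.2 t (hH ht)) t₀ ht₀ ?_
    rw [hW₀i t₀ (hH ht₀), hs0]
  refine fam_affine (ι := (⋃ r, leafB_Sect S N r : Set (ℂ → ℂ))) (fun i => (i : ℂ → ℂ)) ?_ ?_ ?_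
    ⟨W₀, Set.mem_iUnion.2 ⟨r₀, hW₀m⟩⟩ Ω hΩ hc ⟨t₀, ht₀⟩ hH u hu
    (fun t ht => ⟨(hl t ht).1, hWΩ t ht⟩)
  · rintro ⟨W, hW⟩
    obtain ⟨r, hr⟩ := Set.mem_iUnion.1 hW
    exact hS.hol HH (qL k N (leafB_lab r)) W isOpen_HH (qL_hol _ hr.2.2.1)
      (fun t ht => (hr.2.2.1 t ht).1) hr.2.1 hr.2.2.2
  · rintro ⟨W, hW⟩ t ht z hz hz'
    obtain ⟨r, hr⟩ := Set.mem_iUnion.1 hW
    obtain ⟨j, hj⟩ := (hr.2.2.1 t ht).2.2 z hz hz'
    rw [← hj]
    exact hS.avoid _ (hr.2.2.1 t ht).1 _ (hr.2.2.2 t ht) j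
  · rintro ⟨W, hW⟩ a b c d h
    obtain ⟨r, hr⟩ := Set.mem_iUnion.1 hW
    obtain ⟨r', hr'⟩ := leafB_red hN (Lg a b c d (leafB_lab r))
    have hA1 : Adm k N (Lg a b c d (leafB_lab r)) := Adm_modular hN _ hr.2.2.1 a b c d h
    have hA2 : Adm k N (leafB_lab r') := Adm_mod hN _ _ hr' hA1
    set W' : ℂ → ℂ := fun t => if t ∈ HH then (((c : ℂ) * t + d) ^ 2)⁻¹ *
      W (((a : ℂ) * t + b) / (c * t + d)) else 0 with hW'
    have hW'i : ∀ t ∈ HH, W' t = (((c : ℂ) * t + d) ^ 2)⁻¹ *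
        W (((a : ℂ) * t + b) / (c * t + d)) := fun t ht => if_pos ht
    have hm : W' ∈ leafB_Sect S N r' := by
      refine ⟨fun t ht => if_neg ht, ?_, hA2, ?_⟩
      · refine ContinuousOn.congr ?_ hW'i
        refine ContinuousOn.mul ?_ ?_
        · refine ContinuousOn.inv₀ (by fun_prop) ?_
          intro t ht
          exact pow_ne_zero 2 (den_ne ht a b c d h)
        · refine hr.2.1.comp ?_ (fun t ht => HH_modular ht a b c d h)
          exact ContinuousOn.div (by fun_prop) (by fun_prop) (fun t ht => den_ne ht a b c d h)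
      · intro t ht
        rw [hW'i t ht]
        have hg := HH_modular ht a b c d h
        have hd : (((c : ℂ) * t + d) ^ 2) ≠ 0 := pow_ne_zero 2 (den_ne ht a b c d h)
        have h1 := hS.hom _ (hr.2.2.1 _ hg).1 (((c : ℂ) * t + d) ^ 2)⁻¹ (inv_ne_zero hd) _
          (hr.2.2.2 _ hg)
        rw [qL_modular hN _ ht a b c d h] at h1
        have h2 : (fun i => (((c : ℂ) * t + d) ^ 2)⁻¹ *
            (fun j => ((c : ℂ) * t + d) ^ 2 * qL k N (Lg a b c d (leafB_lab r)) t j) i) =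
            qL k N (leafB_lab r') t := by
          rw [← qL_mod hN _ _ hr' ht]
          funext i
          exact inv_mul_cancel_left₀ hd _
        rw [h2] at h1
        exact h1
    refine ⟨⟨W', Set.mem_iUnion.2 ⟨r', hm⟩⟩, fun t ht => ?_⟩
    change ((c : ℂ) * t + d) ^ 2 * W' t = W (((a : ℂ) * t + b) / (c * t + d))
    rw [hW'i t ht]
    exact mul_inv_cancel_left₀ (pow_ne_zero 2 (den_ne ht a b c d h)) _

end Pool.Agent.Helper2.LN2
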