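import Pool.Agent.Helper2.LN2.Punct

/-!
# LN2-U2 (MP_730da0_ag): units on the punctured line

Paper proof.  By `punct` at each `a ∈ A` (small disjoint discs) `(x - a) v'(x)/v(x) = H_a(x)`, `m a = H_a(a)`; `v'/v - m a/(x-a) = (H_a(x) - H_a(a))/(x - a)` extends holomorphically to `a`.  So `g = v'/v - ∑ m a/(x-a)` extends to an entire function
(removable singularities; the other terms are holomorphic at `a`), and `g → 0` at infinity (`punct_inf`, and `1/(x-a) → 0`), so `g = 0` (`Differentiable.apply_eq_of_tendsto_cocompact` or Liouville).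
`partial_unique`: multiply by `x - a` and let `x → a`.
-/

namespace Pool.Agent.Helper2.LN2

open Pool.Agent.Helper2.LN

/-- near a point of `A` there is a punctured ball without points of `A` -/
private theorem punctured_ball_logder (A : Finset ℂ) (a : ℂ) :
    ∃ r : ℝ, 0 < r ∧ ∀ x ∈ Metric.ball a r \ {a}, x ∉ A := by
  have h : ((A.erase a : Finset ℂ) : Set ℂ)ᶜ ∈ nhds a :=
    (A.erase a).finite_toSet.isClosed.isOpen_compl.mem_nhds (by simp)
  obtain ⟨r, hr, hb⟩ := Metric.mem_nhds_iff.mp h
  refine ⟨r, hr, fun x hx hxA => ?_⟩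
  exact hb hx.1 (Finset.mem_coe.mpr (Finset.mem_erase.mpr ⟨hx.2, hxA⟩))

theorem logder_sum (A : Finset ℂ) (v : ℂ → ℂ) (hv : DifferentiableOn ℂ v (A : Set ℂ)ᶜ) (h0 : ∀ x ∉ A, v x ≠ 0)
    (h1 : ∀ x ∉ A, v x ≠ 1) : ∃ m : ℂ → ℂ, ∀ x ∉ A, deriv v x / v x = ∑ a ∈ A, m a / (x - a) := by
  classical
  have hAo : IsOpen ((A : Set ℂ)ᶜ) := A.finite_toSet.isClosed.isOpen_compl
  have hex : ∀ a : ℂ, ∃ (r : ℝ) (H : ℂ → ℂ), 0 < r ∧ (∀ x ∈ Metric.ball a r \ {a}, x ∉ A) ∧
      DifferentiableOn ℂ H (Metric.ball a r) ∧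
      ∀ x ∈ Metric.ball a r \ {a}, (x - a) * (deriv v x / v x) = H x := by
    intro a
    obtain ⟨r, hr, hrA⟩ := punctured_ball_logder A a
    obtain ⟨H, hH, hHx⟩ := punct v a r hr (hv.mono fun x hx => hrA x hx)
      (fun x hx => h0 x (hrA x hx)) (fun x hx => h1 x (hrA x hx))
    exact ⟨r, H, hr, hrA, hH, hHx⟩
  choose r H hr hrA hH hHx using hex
  refine ⟨fun a => H a a, ?_⟩
  set G : ℂ → ℂ := fun x => if x ∈ A then dslope (H x) x x - ∑ b ∈ A.erase x, H b b / (x - b)
    else deriv v x / v x - ∑ b ∈ A, H b b / (x - b) with hG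
  have hu : DifferentiableOn ℂ (fun x => deriv v x / v x) ((A : Set ℂ)ᶜ) :=
    (hv.deriv hAo).div hv fun x hx => h0 x hx
  have hGd : Differentiable ℂ G := by
    intro x
    by_cases hx : x ∈ A
    · have hd : DifferentiableAt ℂ
          (fun y => dslope (H x) x y - ∑ b ∈ A.erase x, H b b / (y - b)) x := by
        refine DifferentiableAt.sub ?_ (DifferentiableAt.fun_sum fun b hb => ?_)
        · exact ((Complex.differentiableOn_dslope (Metric.ball_mem_nhds x (hr x))).mpr
            (hH x)).differentiableAt (Metric.ball_mem_nhds x (hr x))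
        · refine (differentiableAt_const _).div (differentiableAt_id.sub_const b) ?_
          exact sub_ne_zero.mpr (Finset.ne_of_mem_erase hb).symm
      refine hd.congr_of_eventuallyEq ?_
      filter_upwards [Metric.ball_mem_nhds x (hr x)] with y hy
      by_cases hyx : y = x
      · subst hyx
        simp only [hG, if_pos hx]
      · have hyA : y ∉ A := hrA x y ⟨hy, hyx⟩
        simp only [hG, if_neg hyA]
        rw [dslope_of_ne _ hyx, slope_def_field, ← Finset.add_sum_erase A _ hx]
        have h2 := hHx x y ⟨hy, hyx⟩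
        have h3 : y - x ≠ 0 := sub_ne_zero.mpr hyx
        rw [← h2]
        field_simp
        ring
    · have hd : DifferentiableAt ℂ
          (fun y => deriv v y / v y - ∑ b ∈ A, H b b / (y - b)) x := by
        refine DifferentiableAt.sub (hu.differentiableAt (hAo.mem_nhds hx))
          (DifferentiableAt.fun_sum fun b hb => ?_)
        refine (differentiableAt_const _).div (differentiableAt_id.sub_const b) ?_
        exact sub_ne_zero.mpr fun h => hx (h ▸ hb)
      refine hd.congr_of_eventuallyEq ?_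
      filter_upwards [hAo.mem_nhds hx] with y hy
      have hyA : y ∉ A := hy
      simp only [hG, if_neg hyA]
  have hinf : Filter.Tendsto G (Filter.cocompact ℂ) (nhds 0) := by
    obtain ⟨R, hR⟩ := A.finite_toSet.isBounded.exists_norm_le
    have hRA : ∀ x : ℂ, max R 0 + 1 < ‖x‖ → x ∉ A := by
      intro x hx hxA
      have := hR x hxA
      have := le_max_left R 0
      linarith
    have hR0 : 0 < max R 0 + 1 := by
      have := le_max_right R 0
      linarith
    have h2 : Filter.Tendsto (fun x => deriv v x / v x) (Filter.cocompact ℂ) (nhds 0) :=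
      punct_inf v (max R 0 + 1) hR0 (hv.mono fun x hx => hRA x hx)
        (fun x hx => h0 x (hRA x hx)) (fun x hx => h1 x (hRA x hx))
    have h3 : Filter.Tendsto (fun x : ℂ => ∑ b ∈ A, H b b / (x - b)) (Filter.cocompact ℂ)
        (nhds (∑ b ∈ A, 0)) := by
      refine tendsto_finsetSum _ fun b _ => ?_
      have h4 : Filter.Tendsto (fun x : ℂ => x - b) (Filter.cocompact ℂ) (Filter.cocompact ℂ) :=
        (Homeomorph.subRight b).isClosedEmbedding.tendsto_cocompact
      have h5 := Filter.tendsto_inv₀_cobounded (α := ℂ)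
      rw [Metric.cobounded_eq_cocompact] at h5
      have h6 := (h5.comp h4).const_mul (H b b)
      rw [mul_zero] at h6
      refine h6.congr fun x => ?_
      simp [div_eq_mul_inv]
    have h7 := h2.sub h3
    simp only [Finset.sum_const_zero, sub_zero] at h7
    refine h7.congr' ?_
    have h8 : ∀ᶠ x in Filter.cocompact ℂ, x ∈ ((A : Set ℂ)ᶜ) :=
      A.finite_toSet.isCompact.compl_mem_cocompact
    filter_upwards [h8] with x hx
    have hxA : x ∉ A := hx
    simp only [hG, if_neg hxA]
  intro x hx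
  have h9 := hGd.apply_eq_of_tendsto_cocompact x hinf
  simp only [hG, if_neg hx] at h9
  exact sub_eq_zero.mp h9

theorem partial_unique (A : Finset ℂ) (m m' : ℂ → ℂ) (h : ∀ x ∉ A, ∑ a ∈ A, m a / (x - a) = ∑ a ∈ A, m' a / (x - a)) :
    ∀ a ∈ A, m a = m' a := by
  classical
  intro a ha
  obtain ⟨r, hr, hrA⟩ := punctured_ball_logder A a
  have hlim : ∀ n : ℂ → ℂ, Filter.Tendsto (fun x => (x - a) * ∑ b ∈ A, n b / (x - b))
      (nhdsWithin a {a}ᶜ) (nhds (n a)) := by
    intro n
    have h2 : Filter.Tendsto (fun x => n a + (x - a) * ∑ b ∈ A.erase a, n b / (x - b)) (nhds a)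
        (nhds (n a + (a - a) * ∑ b ∈ A.erase a, n b / (a - b))) := by
      refine ContinuousAt.tendsto (f := fun x => n a + (x - a) * ∑ b ∈ A.erase a, n b / (x - b)) ?_
      refine continuousAt_const.add ((continuousAt_id.sub continuousAt_const).mul ?_)
      refine tendsto_finsetSum _ fun b hb => ?_
      refine ContinuousAt.div continuousAt_const (continuousAt_id.sub continuousAt_const) ?_
      exact sub_ne_zero.mpr (Finset.ne_of_mem_erase hb).symm
    rw [sub_self, zero_mul, add_zero] at h2
    refine (h2.mono_left nhdsWithin_le_nhds).congr' ?_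
    filter_upwards [self_mem_nhdsWithin] with x hx
    have h3 : x - a ≠ 0 := sub_ne_zero.mpr hx
    rw [← Finset.add_sum_erase A _ ha, mul_add, mul_div_cancel₀ _ h3]
  have h4 := hlim m
  have h5 := hlim m'
  refine tendsto_nhds_unique h4 (h5.congr' ?_)
  filter_upwards [self_mem_nhdsWithin, nhdsWithin_le_nhds (Metric.ball_mem_nhds a hr)] with x hx hxb
  rw [h x (hrA x ⟨hxb, hx⟩)]

end Pool.Agent.Helper2.LN2
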