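import Pool.Agent.Helper2.LN2.Glob
import Pool.Agent.Helper2.LN2.Arith

/-!
# LN2-L7 (MP_730da0_ag): there is no homogeneous holomorphic multisection avoiding the points, `k ≥ 4`
-/

namespace Pool.Agent.Helper2.LN2

open Pool.Agent.Helper2.LN

private theorem two_mul_notin {t z : ℂ} (h : 2 * z ∉ Lat t) : z ∉ Lat t := by
  intro h1
  apply h
  have h2 := Lat_int_mul 2 h1
  simpa using h2

/-- There is no homogeneous holomorphic multisection that avoids the points, `k ≥ 4`. -/
theorem no_ES {k : ℕ} (hk : 4 ≤ k) (S : Sys k ℂ) (hS : ES S) : False := by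
  have ht : Complex.I ∈ HH := by
    show 0 < Complex.I.im
    simp
  obtain ⟨c, κ, h⟩ := glob hk S hS ht
  have av : ∀ p ∉ EE k Complex.I, ∀ z, ∀ i : Fin k, qf k p Complex.I i = wp z Complex.I →
      κ + c * p - z ∉ Lat Complex.I ∧ κ + c * p + z ∉ Lat Complex.I := by
    intro p hp z i hi
    have h1 := hS.avoid _ (qf_conf ht hp) _ (h p hp).2 i
    rw [hi] at h1
    constructor
    · intro h2
      apply h1
      have h3 : κ + c * p = z + (κ + c * p - z) := by ring
      rw [h3]
      exact wp_add ht _ _ h2
    · intro h2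
      apply h1
      have h3 : κ + c * p = -z + (κ + c * p + z) := by ring
      rw [h3, wp_add ht _ _ h2]
      exact wp_neg ht z
  refine arith k ht c κ (fun p hp => (h p hp).1) (fun p hp => ?_) (fun p hp j hj hjk => ?_)
  · exact av p hp p ⟨3, by omega⟩ (by simp [qf])
  · exact av p hp (1 / (j : ℂ)) ⟨j, hjk⟩ (by
      simp only [qf]
      rw [if_neg (by omega), if_neg (by omega), if_neg (by omega), if_neg (by omega)])

end Pool.Agent.Helper2.LN2
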