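import Pool.Agent.Helper2.LN2.PtSys
import Pool.Agent.Helper2.LN.Orb
import Pool.Agent.Helper2.LN.Prod

/-!
# LN2-T2 (MP_730da0_ag): a standard orbit gives functions on `Conf k`

Paper proof.  `P = prodSys S (ptSys k)`, `O = {(Z_j, base_j) : j < k} ⊆ P.F (base k)`.  `s_i (Z_j, base_j) = (Z_(swap j), base_(swap j))` (`s_prod`, `pt_s`, `hZ`), so `O` is invariant under all `s_i` (swap is an involution).  `Q` from `Sys.orb`.
For `a ∈ Gen k`: `(w, x) ∈ Q a` iff `w = S.val (Z_j) a`, `x = srt a j` for some `j < k` (`val_surj`, `val_prod`, `pt_val`).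
For `q ∈ Conf k` and a label `l` there is exactly one `w` with `(w, q_l) ∈ Q q`: choose `a ∈ Wset q ∩ Gen k` (`Wset_open`, `Gen_dense`, see LN/GP.lean); `(w, q_l) ∈ Q q` iff `(S.T q a w, a_l) ∈ Q a` (`T_prod`, `pt_T`) iff `S.T q a w = S.val (Z_j) a` for the
`j` with `srt a j = a_l`; `T_surj`, `T_inj`.  `X q l` := this `w` (junk outside `Conf k`).
Continuity on `Conf k`: near `q₀` let `D = Wset q₀` (open, convex, in `Conf k`), `σ` the section of `S` over `D` through `X q₀ l` (`exists_sec`); `(σ q, q_l) = P.T q₀ q (X q₀ l, q₀_l) ∈ Q q` (`T_sec`, `T_prod`, `pt_T`), so `σ q = X q l` on `D`.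
Equivariance: `Q (q ∘ π) = Q q`, `(q ∘ π)_l = q_(π l)`.  Injectivity: `X q l = X q l'`: transport to `a`: `S.val (Z_j) a = S.val (Z_j') a`, `val_inj`, `hinj`: `j = j'`, `srt a j = a_l = a_l'`, `l = l'`.
-/

namespace Pool.Agent.Helper2.LN2

open Pool.Agent.Helper2.LN

variable {k : ℕ} {W : Type} [TopologicalSpace W]

private theorem std_swap (i : ℕ) (hi : i + 1 < k) (j : Fin k) :
    ((Equiv.swap (⟨i, by omega⟩ : Fin k) ⟨i + 1, hi⟩ j : Fin k) : ℕ) = Equiv.swap i (i + 1) (j : ℕ) := by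
  rw [Equiv.swap_apply_def, Equiv.swap_apply_def]
  simp only [Fin.ext_iff]
  split_ifs <;> rfl

/-- the labelled points of the orbit -/
private def yO (S : Sys k W) (Z : ℕ → S.F (base k)) (j : Fin k) :
    (prodSys S (ptSys k)).F (base k) :=
  ⟨((Z j : W), base k j), ⟨(Z j).2, ⟨j, rfl⟩⟩⟩

private theorem s_yO (S : Sys k W) (Z : ℕ → S.F (base k))
    (hZ : ∀ i j, i + 1 < k → j < k → S.s i (Z j) = Z (Equiv.swap i (i + 1) j)) (i : ℕ)
    (hi : i + 1 < k) (j : Fin k) :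
    (prodSys S (ptSys k)).s i (yO S Z j) = yO S Z (Equiv.swap ⟨i, by omega⟩ ⟨i + 1, hi⟩ j) := by
  refine Subtype.ext ?_
  rw [s_prod S (ptSys k) i hi]
  refine Prod.ext ?_ ?_
  · show ((S.s i ⟨((yO S Z j).1).1, _⟩ : S.F (base k)) : W) = (Z _ : W)
    rw [std_swap i hi j, ← hZ i j hi j.2]
    rfl
  · exact pt_s i hi j

private theorem O_inv (S : Sys k W) (Z : ℕ → S.F (base k))
    (hZ : ∀ i j, i + 1 < k → j < k → S.s i (Z j) = Z (Equiv.swap i (i + 1) j)) (i : ℕ)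
    (hi : i + 1 < k) (x : (prodSys S (ptSys k)).F (base k)) :
    (prodSys S (ptSys k)).s i x ∈ Set.range (yO S Z) ↔ x ∈ Set.range (yO S Z) := by
  constructor
  · rintro ⟨j, hj⟩
    refine ⟨Equiv.swap ⟨i, by omega⟩ ⟨i + 1, hi⟩ j, ?_⟩
    apply ((prodSys S (ptSys k)).s i).injective
    rw [s_yO S Z hZ i hi, ← hj, ← Equiv.Perm.mul_apply, Equiv.swap_mul_self, Equiv.Perm.one_apply]
  · rintro ⟨j, rfl⟩
    exact ⟨_, (s_yO S Z hZ i hi j).symm⟩

private theorem std_gen (S : Sys k W) (Z : ℕ → S.F (base k)) (Q : (Fin k → ℂ) → Set (W × ℂ))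
    (hQ : ∀ q ∈ Conf k, Q q ⊆ (prodSys S (ptSys k)).F q)
    (hg : ∀ q ∈ Gen k, ∀ x, (prodSys S (ptSys k)).val x q ∈ Q q ↔ x ∈ Set.range (yO S Z))
    (a : Fin k → ℂ) (ha : a ∈ Gen k) (w : W) (x : ℂ) :
    (w, x) ∈ Q a ↔ ∃ j : Fin k, w = S.val (Z j) a ∧ x = srt a j := by
  have hv : ∀ j : Fin k, (prodSys S (ptSys k)).val (yO S Z j) a = (S.val (Z j) a, srt a j) := by
    intro j
    rw [val_prod S (ptSys k) _ a ha]
    exact Prod.ext rfl (pt_val a ha j)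
  constructor
  · intro h
    obtain ⟨φ, hφ⟩ := (prodSys S (ptSys k)).val_surj a ha (w, x) (hQ a (Gen_subset_Conf k ha) h)
    rw [← hφ, hg a ha] at h
    obtain ⟨j, rfl⟩ := h
    rw [hv j, Prod.mk.injEq] at hφ
    exact ⟨j, hφ.1.symm, hφ.2.symm⟩
  · rintro ⟨j, rfl, rfl⟩
    rw [← hv j, hg a ha]
    exact ⟨j, rfl⟩

private theorem std_seg (q : Fin k → ℂ) (hq : q ∈ Conf k) (a : Fin k → ℂ) (ha : a ∈ Wset q) :
    segment ℝ q a ⊆ Conf k :=
  ((Wset_convex q).segment_subset (mem_Wset q) ha).trans (Wset_sub q hq)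

private theorem std_conf (S : Sys k W) (Z : ℕ → S.F (base k)) (Q : (Fin k → ℂ) → Set (W × ℂ))
    (hQ : ∀ q ∈ Conf k, Q q ⊆ (prodSys S (ptSys k)).F q)
    (hT : ∀ a c, segment ℝ a c ⊆ Conf k → ∀ w ∈ (prodSys S (ptSys k)).F a,
      ((prodSys S (ptSys k)).T a c w ∈ Q c ↔ w ∈ Q a))
    (hg : ∀ q ∈ Gen k, ∀ x, (prodSys S (ptSys k)).val x q ∈ Q q ↔ x ∈ Set.range (yO S Z))
    (q : Fin k → ℂ) (hq : q ∈ Conf k) (l : Fin k) (a : Fin k → ℂ) (ha : a ∈ Wset q)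
    (hga : a ∈ Gen k) (w : W) (hw : w ∈ S.F q) :
    (w, q l) ∈ Q q ↔ S.T q a w = S.val (Z ((Tuple.sort fun i => (a i).re).symm l : Fin k)) a := by
  have hseg := std_seg q hq a ha
  have hwl : (w, q l) ∈ (prodSys S (ptSys k)).F q := ⟨hw, ⟨l, rfl⟩⟩
  rw [← hT q a hseg (w, q l) hwl, T_prod S (ptSys k) q a hseg (w, q l) hwl]
  show (S.T q a w, (ptSys k).T q a (q l)) ∈ Q a ↔ _
  rw [pt_T q a hseg l, std_gen S Z Q hQ hg a hga]
  have hsrt : ∀ j : Fin k, a l = srt a j ↔ j = (Tuple.sort fun i => (a i).re).symm l := by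
    intro j
    constructor
    · intro h
      have h1 : l = (Tuple.sort fun i => (a i).re) j := Gen_subset_Conf k hga h
      rw [h1, Equiv.symm_apply_apply]
    · intro h
      subst h
      simp [srt]
  constructor
  · rintro ⟨j, h1, h2⟩
    rw [(hsrt j).1 h2] at h1
    exact h1
  · intro h
    exact ⟨_, h, (hsrt _).2 rfl⟩

theorem std_fun {k : ℕ} {W : Type} [TopologicalSpace W] (S : Sys k W) (hk : 2 ≤ k) (Z : ℕ → S.F (base k))
    (hinj : ∀ i j, i < k → j < k → Z i = Z j → i = j)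
    (hZ : ∀ i j, i + 1 < k → j < k → S.s i (Z j) = Z (Equiv.swap i (i + 1) j)) :
    ∃ X : (Fin k → ℂ) → (Fin k → W), ContinuousOn X (Conf k) ∧ (∀ q ∈ Conf k, ∀ l, X q l ∈ S.F q) ∧
      (∀ q ∈ Conf k, ∀ π : Equiv.Perm (Fin k), X (q ∘ π) = X q ∘ π) ∧
      ∀ q ∈ Conf k, Function.Injective (X q) := by
  classical
  obtain ⟨Q, hQF, hQp, hQT, hQg⟩ := (prodSys S (ptSys k)).orb (Set.range (yO S Z))
    fun i hi x => O_inv S Z hZ i hi x
  have hnear : ∀ q ∈ Conf k, ∃ a ∈ Wset q, a ∈ Gen k := fun q _ =>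
    Gen_dense q (Wset q) (Wset_open q) (mem_Wset q)
  have hiff := std_conf S Z Q hQF hQT hQg
  have hex : ∀ q ∈ Conf k, ∀ l, ∃ w, (w, q l) ∈ Q q := by
    intro q hq l
    obtain ⟨a, ha, hga⟩ := hnear q hq
    obtain ⟨w, hw, hw'⟩ := S.T_surj q a (std_seg q hq a ha) _
      (S.val_mem (Z ((Tuple.sort fun i => (a i).re).symm l : Fin k)) a hga)
    exact ⟨w, (hiff q hq l a ha hga w hw).2 hw'⟩
  have huniq : ∀ q ∈ Conf k, ∀ l w w', (w, q l) ∈ Q q → (w', q l) ∈ Q q → w = w' := by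
    intro q hq l w w' h1 h2
    obtain ⟨a, ha, hga⟩ := hnear q hq
    have hw := (hQF q hq h1).1
    have hw' := (hQF q hq h2).1
    exact S.T_inj q a (std_seg q hq a ha) w w' hw hw'
      (((hiff q hq l a ha hga w hw).1 h1).trans ((hiff q hq l a ha hga w' hw').1 h2).symm)
  obtain ⟨X, hX⟩ : ∃ X : (Fin k → ℂ) → (Fin k → W), ∀ q ∈ Conf k, ∀ l, (X q l, q l) ∈ Q q := by
    refine ⟨fun q l => if h : ∃ w, (w, q l) ∈ Q q then h.choose else Z 0, ?_⟩
    intro q hq l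
    have h := hex q hq l
    simp only [dif_pos h]
    exact h.choose_spec
  have hXF : ∀ q ∈ Conf k, ∀ l, X q l ∈ S.F q := fun q hq l => (hQF q hq (hX q hq l)).1
  refine ⟨X, ?_, hXF, ?_, ?_⟩
  · -- continuity
    rw [continuousOn_pi]
    intro l q₀ hq₀
    obtain ⟨σ, hσc, hσF, hσ0⟩ := S.exists_sec (Wset q₀) (Wset_convex q₀) (Wset_sub q₀ hq₀) q₀
      (mem_Wset q₀) _ (hXF q₀ hq₀ l)
    have hσX : ∀ q ∈ Wset q₀, X q l = σ q := by
      intro q hq
      have hseg := std_seg q₀ hq₀ q hq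
      have hwl : (X q₀ l, q₀ l) ∈ (prodSys S (ptSys k)).F q₀ := hQF q₀ hq₀ (hX q₀ hq₀ l)
      have h1 := (hQT q₀ q hseg _ hwl).2 (hX q₀ hq₀ l)
      rw [T_prod S (ptSys k) q₀ q hseg _ hwl] at h1
      have h2 : S.T q₀ q (X q₀ l) = σ q := by
        rw [← hσ0]
        exact S.T_sec (Wset q₀) (Wset_convex q₀) (Wset_sub q₀ hq₀) σ hσc hσF q₀ q (mem_Wset q₀) hq
      have h3 : (σ q, q l) ∈ Q q := by
        have h4 : (S.T q₀ q (X q₀ l), (ptSys k).T q₀ q (q₀ l)) ∈ Q q := h1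
        rwa [h2, pt_T q₀ q hseg l] at h4
      exact huniq q (Wset_sub q₀ hq₀ hq) l _ _ (hX q (Wset_sub q₀ hq₀ hq) l) h3
    have hσat : ContinuousAt σ q₀ := hσc.continuousAt ((Wset_open q₀).mem_nhds (mem_Wset q₀))
    have hev : (fun q => X q l) =ᶠ[nhds q₀] σ := by
      filter_upwards [(Wset_open q₀).mem_nhds (mem_Wset q₀)] with q hq
      exact hσX q hq
    exact (hσat.congr hev.symm).continuousWithinAt
  · -- equivariance
    intro q hq π
    have hqπ : q ∘ π ∈ Conf k := fun i j hij => π.injective (hq hij)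
    funext l
    have h1 := hX (q ∘ π) hqπ l
    rw [hQp q hq π] at h1
    exact huniq q hq (π l) _ _ h1 (hX q hq (π l))
  · -- injectivity
    intro q hq l l' h
    obtain ⟨a, ha, hga⟩ := hnear q hq
    have h1 := (hiff q hq l a ha hga _ (hXF q hq l)).1 (hX q hq l)
    have h2 := (hiff q hq l' a ha hga _ (hXF q hq l')).1 (hX q hq l')
    rw [← h, h1] at h2
    have h3 := S.val_inj _ _ a hga h2
    have h4 := hinj _ _ (Fin.is_lt _) (Fin.is_lt _) h3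
    exact (Tuple.sort fun i => (a i).re).symm.injective (Fin.ext h4)

end Pool.Agent.Helper2.LN2
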