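import Pool.Agent.Helper2.LN2.GrpTwo
import Pool.Agent.Helper2.LN2.Std
import Pool.Agent.Helper2.LN2.Extra
import Pool.Agent.Helper2.LN2.NoES
import Pool.Agent.Helper2.LN2.RootSecE
import Pool.Agent.Helper2.LN.GhatConn
import Pool.Agent.Helper2.LN.LogLemma
import Pool.Agent.Helper93.LN.FHom

/-!
# LN2 (MP_730da0_ag): the theorem
-/

namespace Pool.Agent.Helper2.LN2

open Pool.Agent.Helper2.LN Pool.Agent.Helper93.LN

/-- no standard orbit if `n > k` -/
theorem no_std {k n : ℕ} (hk : 5 ≤ k) (hn : k < n) (f : C(G0 k, G0 n)) (hf : Holo f) (S : Sys k ℂ)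
    (hSF : S.F = rootF f) (Z : ℕ → S.F (base k)) (hinj : ∀ i j, i < k → j < k → Z i = Z j → i = j)
    (hZ : ∀ i j, i + 1 < k → j < k → S.s i (Z j) = Z (Equiv.swap i (i + 1) j)) : False := by
  obtain ⟨X, hX1, hX2, hX3, hX4⟩ := std_fun S (by omega) Z hinj hZ
  have hr : ∀ q ∈ Conf k, ∀ l, X q l ∈ rootF f q := by
    intro q hq l
    rw [← hSF]
    exact hX2 q hq l
  have hE : Eqv X := by
    refine ⟨hX1, hX4, hX3, fun q hq d l => ?_⟩
    have hopen : IsOpen {x : ℂ | Function.update q d x ∈ Conf k} :=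
      (isOpen_Conf k).preimage (update_diff q d).continuous
    refine rootF_diff (by omega) (by omega) f hf _ hopen (fun x => Function.update q d x)
      (update_diff q d).differentiableOn (fun t ht => ht) _ ?_ (fun t ht => hr _ ht l)
    have h1 : ContinuousOn (fun q' => X q' l) (Conf k) := by
      exact (continuous_apply l).comp_continuousOn hX1
    exact h1.comp (update_diff q d).continuous.continuousOn (fun t ht => ht)
  obtain ⟨T, hT⟩ := extra hk hn f hf X hE hr
  exact no_ES (by omega) T hT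

theorem main_two {k n : ℕ} (hk : 4 < k) (hpp : ¬ IsPrimePow (k - 1)) (h1 : k ∣ n) (h2 : n ≡ 1 [MOD k - 1])
    (hne : n ≠ k) (f : C(G0 k, G0 n)) (hf : Holo f) : Splittable f := by
  have hk2 : 2 ≤ k := by omega
  have hn0 : n ≠ 0 := by
    rintro rfl
    have h6 : (0 : ℕ) % (k - 1) = 1 % (k - 1) := h2
    rw [Nat.zero_mod, Nat.mod_eq_of_lt (by omega)] at h6
    omega
  have hkn : k ≤ n := Nat.le_of_dvd (by omega) h1
  have hlt : k < n := by omega
  have hn3 : 3 ≤ n := by omega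
  obtain ⟨S, hSF⟩ : ∃ S : Sys k ℂ, S.F = rootF f := ⟨rootSys hk2 (by omega) f, rfl⟩
  have hbase : base k ∈ Conf k := Gen_subset_Conf k (Ord_subset_Gen k (base_mem_Ord k))
  by_cases hs : ∀ i, i + 1 < k → S.s i = S.s 0
  · obtain ⟨F, hF, hfF⟩ := hf
    obtain ⟨R⟩ := rootSec_of_equal hk hn3 f S hSF hs F hfF
    have hne : (Ghat k).Nonempty :=
      ⟨_, Ghat_of_Y hk2 (base k, Complex.log (Dsc (base k)))
        ⟨hbase, Complex.exp_log ((Dsc_ne_zero _).2 hbase)⟩⟩
    exact splittable_of_rootSec hk2 hn3 hne (Ghat_preconnected hk2) (logProp hk) f hF hfF R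
  · exfalso
    obtain ⟨hcard, hfin⟩ := rootF_card (by omega) (by omega : 2 ≤ n) f (base k) hbase
    rw [← hSF] at hcard hfin
    have : Finite (S.F (base k)) := hfin
    obtain ⟨Z, hZ1, hZ2⟩ := group_two (F := S.F (base k)) k hk hpp S.s (fun i j hij hj => S.s_comm i j hij hj)
      (fun i hi => S.s_braid i hi) (by rw [hcard]; exact h2) (by rw [hcard]; exact h1)
      (by rw [hcard]; omega) (rot_A (by omega) hn3 f hf S hSF) (rot_B (by omega) hn3 f hf S hSF) hs
    exact no_std (by omega) hlt f hf S hSF Z hZ1 hZ2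

end Pool.Agent.Helper2.LN2
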