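import Pool.Agent.Helper2.LN2.EWp

/-!
# LN2-P0 (MP_730da0_ag): invariance of `PP`; the fundamental domain

Paper proofs.
* `PP_congr`: near `t`: `u' = ε u + m + n t`, so `deriv u' t = ε deriv u t + n`, `Im u' / y = ε Im u / y + n` (`ε = ± 1` real), the difference is `ε (deriv u t - Im u / y)`.
* `PP_modular`: let `g t = (at+b)/(ct+d)`, `w = ct + d`, `u_g(s) = (cs+d) u(g s)`.  `g'(t) = 1/w^2`, so `u_g'(t) = c u(gt) + u'(gt)/w`.  Write `u(gt) = α + β gt` with `α, β` real (`rep`), `β = Im u(gt) / Im (gt)`.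
  `u_g(t) = w α + β (at+b)`, so `Im u_g(t)/Im t = c α + a β`, and `u_g'(t) - Im u_g(t)/Im t = c α + c β gt + u'(gt)/w - c α - a β = (u'(gt) - β)/w + β (c gt + 1/w - a)`, and `c gt + 1/w = (c(at+b) + 1)/w = a` (`ad - bc = 1`).
  `Im t / |w|^2 = Im (gt)` (`im_modular`).
* `exists_fd`: Mathlib: `ModularGroup.exists_smul_mem_fd`, `ModularGroup.three_le_four_mul_im_sq_of_mem_fd`, `UpperHalfPlane.coe_specialLinearGroup_apply` (or the current names); `a, b, c, d` the entries of the matrix.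
* `PP_affine`: `PP u = 0` on `Ω`: `deriv u t = Im u / Im t` is real for all `t ∈ Ω`; `deriv u` is holomorphic with real values on a convex open set, so constant `β` (`e^(i deriv u)` has modulus one: open mapping / maximum principle, or the Cauchy-Riemann
  equations); `u - β t` has derivative `0`, so it is a constant `α`, and `Im α = Im u - β Im t = 0`.
-/

namespace Pool.Agent.Helper2.LN2

open Pool.Agent.Helper2.LN

theorem PP_nonneg (u : ℂ → ℂ) {t : ℂ} (ht : t ∈ HH) : 0 ≤ PP u t := by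
  have h : (0 : ℝ) < t.im := ht
  unfold PP
  positivity

theorem PP_congr (Ω : Set ℂ) (hΩ : IsOpen Ω) (u u' : ℂ → ℂ) (hu : DifferentiableOn ℂ u Ω) (ε : ℂ) (m n : ℤ)
    (hε : ε = 1 ∨ ε = -1) (h : ∀ t ∈ Ω, u' t = ε * u t + m + n * t) (t : ℂ) (ht : t ∈ Ω) (hH : t ∈ HH) :
    PP u' t = PP u t := by
  have hd : HasDerivAt u (deriv u t) t := (hu.differentiableAt (hΩ.mem_nhds ht)).hasDerivAt
  have h2 : HasDerivAt (fun s => ε * u s + m + n * s) (ε * deriv u t + n) t := by
    have h3 := ((hd.const_mul ε).add_const (m : ℂ)).add ((hasDerivAt_id t).const_mul (n : ℂ))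
    rw [mul_one] at h3
    exact h3
  have he : u' =ᶠ[nhds t] fun s => ε * u s + m + n * s := by
    filter_upwards [hΩ.mem_nhds ht] with s hs using h s hs
  have h3 : deriv u' t = ε * deriv u t + n := (h2.congr_of_eventuallyEq he).deriv
  have hpos : (0 : ℝ) < t.im := hH
  have hpos' : t.im ≠ 0 := hpos.ne'
  have hposC : (t.im : ℂ) ≠ 0 := by exact_mod_cast hpos'
  obtain ⟨e, he1, he2⟩ : ∃ e : ℝ, ε = (e : ℂ) ∧ |e| = 1 := by
    rcases hε with h1 | h1
    · exact ⟨1, by simp [h1], by simp⟩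
    · exact ⟨-1, by simp [h1], by simp⟩
  have him : (u' t).im = e * (u t).im + n * t.im := by
    rw [h t ht, he1]
    simp
  have h4 : deriv u' t - (((u' t).im / t.im : ℝ) : ℂ) = e * (deriv u t - (((u t).im / t.im : ℝ) : ℂ)) := by
    rw [h3, him, he1]
    push_cast
    field_simp
    ring
  unfold PP
  rw [h4, norm_mul, Complex.norm_real, Real.norm_eq_abs, he2, one_mul]

theorem PP_modular (u : ℂ → ℂ) (hu : DifferentiableOn ℂ u HH) {t : ℂ} (ht : t ∈ HH) (a b c d : ℤ)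
    (h : a * d - b * c = 1) :
    PP (fun s => ((c : ℂ) * s + d) * u ((a * s + b) / (c * s + d))) t = PP u (((a : ℂ) * t + b) / (c * t + d)) := by
  have hw : (c : ℂ) * t + d ≠ 0 := den_ne ht a b c d h
  have hg : ((a : ℂ) * t + b) / (c * t + d) ∈ HH := HH_modular ht a b c d h
  have himg := im_modular ht a b c d h
  have hC : (a : ℂ) * d - b * c = 1 := by exact_mod_cast congrArg (fun x : ℤ => (x : ℂ)) h
  set w : ℂ := (c : ℂ) * t + d with hwd
  set T : ℂ := ((a : ℂ) * t + b) / w with hT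
  have hwT : w * T = a * t + b := by
    rw [hT]
    field_simp
  have hd : HasDerivAt u (deriv u T) T := (hu.differentiableAt (isOpen_HH.mem_nhds hg)).hasDerivAt
  have hnum : HasDerivAt (fun s : ℂ => (a : ℂ) * s + b) a t := by
    simpa using ((hasDerivAt_id t).const_mul (a : ℂ)).add_const (b : ℂ)
  have hden : HasDerivAt (fun s : ℂ => (c : ℂ) * s + d) c t := by
    simpa using ((hasDerivAt_id t).const_mul (c : ℂ)).add_const (d : ℂ)
  have hgd : HasDerivAt (fun s : ℂ => ((a : ℂ) * s + b) / (c * s + d)) (1 / w ^ 2) t := by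
    have h1 := hnum.div hden hw
    refine h1.congr_deriv ?_
    rw [← hwd]
    congr 1
    rw [hwd]
    linear_combination hC
  have hcomp : HasDerivAt (fun s : ℂ => u (((a : ℂ) * s + b) / (c * s + d))) (deriv u T * (1 / w ^ 2)) t :=
    HasDerivAt.comp t (h := fun s : ℂ => ((a : ℂ) * s + b) / (c * s + d)) hd hgd
  have hmul := hden.mul hcomp
  have hder : deriv (fun s => ((c : ℂ) * s + d) * u ((a * s + b) / (c * s + d))) t =
      c * u T + w * (deriv u T * (1 / w ^ 2)) := hmul.deriv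
  obtain ⟨α, β, hαβ⟩ := rep hg (u T)
  have hpos : (0 : ℝ) < t.im := ht
  have hposT : (0 : ℝ) < T.im := hg
  have hβ : (u T).im / T.im = β := by
    rw [hαβ]
    simp [hposT.ne']
  have hug : ((c : ℂ) * t + d) * u ((a * t + b) / (c * t + d)) = α * (c * t + d) + β * (a * t + b) := by
    rw [← hwd, ← hT, hαβ, ← hwT]
    ring
  have hγ : (((c : ℂ) * t + d) * u ((a * t + b) / (c * t + d))).im / t.im = α * c + β * a := by
    rw [hug]
    simp
    field_simp
  have hw2 : ‖w‖ ≠ 0 := norm_ne_zero_iff.mpr hw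
  have hkey : deriv (fun s => ((c : ℂ) * s + d) * u ((a * s + b) / (c * s + d))) t
      - ((((((c : ℂ) * t + d) * u ((a * t + b) / (c * t + d))).im / t.im : ℝ)) : ℂ) = (deriv u T - β) / w := by
    rw [hγ, hder, hαβ]
    push_cast
    rw [eq_div_iff hw]
    have h5 : w * (deriv u T * (1 / w ^ 2)) * w = deriv u T := by
      field_simp
    have h6 : (c * (α + β * T) + w * (deriv u T * (1 / w ^ 2)) - (α * c + β * a)) * w =
        w * (deriv u T * (1 / w ^ 2)) * w + c * β * (w * T) - β * a * w := by ring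
    rw [h6, h5, hwT, hwd]
    linear_combination (-(β : ℂ)) * hC
  show t.im * ‖deriv (fun s => ((c : ℂ) * s + d) * u ((a * s + b) / (c * s + d))) t
      - ((((((c : ℂ) * t + d) * u ((a * t + b) / (c * t + d))).im / t.im : ℝ)) : ℂ)‖ ^ 2 =
      T.im * ‖deriv u T - (((u T).im / T.im : ℝ) : ℂ)‖ ^ 2
  rw [hkey, hβ, himg, norm_div]
  field_simp

theorem exists_fd {t : ℂ} (ht : t ∈ HH) : ∃ a b c d : ℤ, a * d - b * c = 1 ∧
    Real.sqrt 3 / 2 ≤ (((a : ℂ) * t + b) / (c * t + d)).im := by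
  obtain ⟨g, hg⟩ := ModularGroup.exists_smul_mem_fd (⟨t, ht⟩ : UpperHalfPlane)
  have h3 := ModularGroup.three_le_four_mul_im_sq_of_mem_fd hg
  have hpos := (g • (⟨t, ht⟩ : UpperHalfPlane)).im_pos
  refine ⟨g 0 0, g 0 1, g 1 0, g 1 1, ?_, ?_⟩
  · have := g.det_coe
    rw [Matrix.det_fin_two] at this
    exact this
  · have h4 : (((g 0 0 : ℤ) : ℂ) * t + (g 0 1 : ℤ)) / (((g 1 0 : ℤ) : ℂ) * t + (g 1 1 : ℤ)) =
        ((g • (⟨t, ht⟩ : UpperHalfPlane) : UpperHalfPlane) : ℂ) := by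
      rw [UpperHalfPlane.coe_specialLinearGroup_apply]
      simp
    rw [h4, UpperHalfPlane.coe_im]
    have h5 : Real.sqrt 3 ≤ Real.sqrt ((2 * (g • (⟨t, ht⟩ : UpperHalfPlane)).im) ^ 2) :=
      Real.sqrt_le_sqrt (by nlinarith)
    rw [Real.sqrt_sq (by positivity)] at h5
    linarith

theorem PP_affine (Ω : Set ℂ) (hΩ : IsOpen Ω) (hc : Convex ℝ Ω) (hne : Ω.Nonempty) (hH : Ω ⊆ HH) (u : ℂ → ℂ)
    (hu : DifferentiableOn ℂ u Ω) (h : ∀ t ∈ Ω, PP u t = 0) : ∃ α β : ℝ, ∀ t ∈ Ω, u t = α + β * t := by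
  have hder : ∀ t ∈ Ω, deriv u t = (((u t).im / t.im : ℝ) : ℂ) := by
    intro t ht
    have hpos : (0 : ℝ) < t.im := hH ht
    have h1 := h t ht
    unfold PP at h1
    have h2 : ‖deriv u t - (((u t).im / t.im : ℝ) : ℂ)‖ ^ 2 = 0 := by
      rcases mul_eq_zero.mp h1 with h3 | h3
      · exact absurd h3 hpos.ne'
      · exact h3
    have h3 := pow_eq_zero_iff (two_ne_zero) |>.mp h2
    exact sub_eq_zero.mp (norm_eq_zero.mp h3)
  have han : AnalyticOnNhd ℂ (deriv u) Ω := (hu.analyticOnNhd hΩ).deriv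
  have hconn : IsConnected Ω := ⟨hne, hc.isPreconnected⟩
  obtain ⟨β, hβ⟩ := AnalyticOnNhd.eq_const_add_im_mul_I_of_re_eq_const (c₀ := 0) han
    (fun t ht => by rw [hder t ht]; exact Complex.ofReal_im _) hΩ hconn
  have hβ' : ∀ t ∈ Ω, deriv u t = β := fun t ht => by rw [hβ t ht]; simp
  obtain ⟨α, hα⟩ := hΩ.exists_eq_add_of_deriv_eq hc.isPreconnected hu
    (g := fun t => (β : ℂ) * t) (by fun_prop)
    (fun t ht => by
      rw [hβ' t ht]
      simp)
  have hα' : ∀ t ∈ Ω, u t = β * t + α := fun t ht => hα ht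
  obtain ⟨t₀, ht₀⟩ := hne
  have him : α.im = 0 := by
    have hpos : (0 : ℝ) < t₀.im := hH ht₀
    have h1 := hder t₀ ht₀
    rw [hβ' t₀ ht₀] at h1
    have h2 : β = (u t₀).im / t₀.im := by exact_mod_cast h1
    rw [hα' t₀ ht₀] at h2
    simp at h2
    field_simp at h2
    linarith
  refine ⟨α.re, β, fun t ht => ?_⟩
  rw [hα' t ht]
  have : α = (α.re : ℂ) := by
    apply Complex.ext <;> simp [him]
  rw [← this]
  ring

end Pool.Agent.Helper2.LN2
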