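import Pool.Agent.Helper2.LN2.CoshLift
import Pool.Agent.Helper2.LN2.PMod

/-!
# LN2-P2 (MP_730da0_ag): growth of `PP`

Paper proof.  Let `y = Im τ`, `n = round (Im u(τ) / y)`, `m = round (Re (u τ - n τ))`, `f t = u t - m - n t`.  On the ball of radius `y` around `τ` (contained in `HH`) `f` is holomorphic and omits the integers: `f t = j` gives
`2 u t = 2 (m + j) + 2 n t ∈ Lat t`.  `‖f τ‖ ≤ 1/2 + y/2`.  `omit_int`: `‖f' τ‖ ≤ C (y/2 + 3/2)/y`; `v = u' - Im u/y = f' - Im f/y` (`PP_congr` or directly), `‖v‖ ≤ C/2 + 3C/(2y) + 1/2`, so `PP u τ = y ‖v‖^2 ≤ C' y (1 + 1/y)^2 ≤ 2 C' (y + 1/y)`.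
-/

namespace Pool.Agent.Helper2.LN2

open Pool.Agent.Helper2.LN

theorem PP_bound : ∃ C : ℝ, 0 < C ∧ ∀ u : ℂ → ℂ, DifferentiableOn ℂ u HH → (∀ t ∈ HH, 2 * u t ∉ Lat t) →
    ∀ t ∈ HH, PP u t ≤ C * (t.im + 1 / t.im) := by
  sorry

end Pool.Agent.Helper2.LN2
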