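import Pool.Agent.Helper2.LN2.PSec
import Pool.Agent.Helper2.LN2.PBound

/-!
# LN2-P3 (MP_730da0_ag): the maximum principle

Paper proof.  (`ι` empty: nothing to prove.)  `Φ t = max_i PP (u i) t` (finite).  By `inv` `Φ(g t) ≤ Φ(t)` for every `g`, and with `g⁻¹` equality; in particular `Φ(t + 1) = Φ(t)` (`a = b = d = 1`, `c = 0`).  `Φ` is continuous on `HH`, `Φ ≥ 0`, `Φ t ≤ C (y + 1/y)` (`PP_bound`).
`S₀ = sup {Φ t : Im t = 1/2} ≤ C (1/2 + 2)`.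
Claim: `Φ t ≤ S₀/(2 y)` for `y ≥ 1/2`.  Let `ε > 0`, `F = (S₀/2)/y + ε y^2`, `D = Φ - F`.  If `D > 0` at some `t₁` with `Im t₁ ≥ 1/2`: choose `Y > Im t₁` with `C (y + 1/y) ≤ ε y^2` for `y ≥ Y`.  `D` attains its maximum over the compact set
`{0 ≤ x ≤ 1, 1/2 ≤ y ≤ Y}` at some `τ`; by periodicity this is the maximum over `{y ≥ 1/2}` (`D ≤ 0` for `y ≥ Y`); `D τ > 0`, so `Im τ > 1/2` (`D ≤ 0` for `y = 1/2`).  Choose `i` with `Φ τ = PP (u i) τ`; in a small ball around `τ`: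
`PP (u i) - F ≤ D ≤ D τ = PP (u i) τ - F τ`.  `P_max`: `PP (u i) τ ≤ F τ`, i.e. `D τ ≤ 0`.  Contradiction.  Let `ε → 0`.
For `Im t = 1/2` take `g` from `exists_fd`: `Φ t = Φ (g t) ≤ S₀/(2 √3/2) = S₀/√3`.  So `S₀ ≤ S₀/√3`, `S₀ ≤ 0`, so `Φ = 0` for `y ≥ 1/2`, and for all `t` by `exists_fd`.
-/

namespace Pool.Agent.Helper2.LN2

open Pool.Agent.Helper2.LN

theorem PP_zero {ι : Type} [Finite ι] (u : ι → ℂ → ℂ) (hu : ∀ i, DifferentiableOn ℂ (u i) HH)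
    (hl : ∀ i, ∀ t ∈ HH, 2 * u i t ∉ Lat t)
    (inv : ∀ (i : ι) (a b c d : ℤ), a * d - b * c = 1 → ∃ j, ∀ t ∈ HH,
      PP (u i) (((a : ℂ) * t + b) / (c * t + d)) = PP (u j) t) :
    ∀ i, ∀ t ∈ HH, PP (u i) t = 0 := by
  sorry

end Pool.Agent.Helper2.LN2
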