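import Pool.Agent.Helper2.LN2.EDefs

/-!
# LN2-P1 (MP_730da0_ag): the second derivative test for `PP`

Paper proof.  `P = y |u'|^2 - 2 Im u Re u' + (Im u)^2 / y`, `y = Im t`, `v = u' - Im u / y`, `g = u''` (`u` is analytic).  With `Re u' = r`, `Im u' = i`, `Im u = b`, `Re g = g₁`, `Im g = g₂`, `u''' = h`:
along `x`: `b_x = i`, `r_x = g₁`, `i_x = g₂`, `y_x = 0`; along `y`: `b_y = r`, `r_y = -g₂`, `i_y = g₁`, `y_y = 1` (and second derivatives of `r, i` are harmonic conjugate pairs: `r_xx + r_yy = 0`, `i_xx + i_yy = 0`, `b_xx + b_yy = 0`).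
`P = y (r^2 + i^2) - 2 b r + b^2/y`.
`Lap (y (r^2+i^2)) = y (4 |g|^2) + 2 ∂_y (r^2+i^2) = 4 y |g|^2 + 4 (-r g₂ + i g₁)`  [`Lap (r^2+i^2) = Lap |u'|^2 = 4 |g|^2`].
`Lap (-2 b r) = -4 (b_x r_x + b_y r_y) = -4 (i g₁ - r g₂)`.
`Lap (b^2/y) = (2 (i^2 + r^2))/y + 2 (2 b r)(-1/y^2) + b^2 (2/y^3) = 2 (i^2 + (r - b/y)^2)/y = 2 |v|^2/y`.
So `Lap P = 4 y |g|^2 + 2 |v|^2 / y ≥ 2 P / y^2`.  `F = c/y + ε y^2` has `F_yy = 2c/y^3 + 2ε = 2 F/y^2`.
`D = P - F` has a local maximum at `τ`: the functions `s ↦ D(τ + s)`, `s ↦ D(τ + i s)` of the real variable `s` have local maxima at `0`, so their second derivatives at `0` are `≤ 0` (else, with first derivative `0`, `isLocalMin_of_deriv_deriv_pos`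
gives a local minimum as well, the function is locally constant and its second derivative is `0`).  So `0 ≥ Lap D ≥ 2 (P - F)/y^2`, i.e. `P ≤ F` at `τ`.
In Lean: put `U1 = deriv u`, `U2 = deriv U1`, `U3 = deriv U2` (all differentiable on the ball) and compute `HasDerivAt` of the explicit real functions twice (in the `x`- and in the `y`-direction).
-/

namespace Pool.Agent.Helper2.LN2

open Pool.Agent.Helper2.LN

theorem P_max (u : ℂ → ℂ) (τ : ℂ) (r : ℝ) (hr : 0 < r) (hu : DifferentiableOn ℂ u (Metric.ball τ r))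
    (hH : Metric.ball τ r ⊆ HH) (c ε : ℝ) (hc : 0 ≤ c) (hε : 0 ≤ ε)
    (hmax : ∀ t ∈ Metric.ball τ r,
      PP u t - (c / t.im + ε * t.im ^ 2) ≤ PP u τ - (c / τ.im + ε * τ.im ^ 2)) :
    PP u τ ≤ c / τ.im + ε * τ.im ^ 2 := by
  sorry

end Pool.Agent.Helper2.LN2
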