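import Pool.Agent.Helper2.LN.CrossLem

/-!
# LN2-T1 (MP_730da0_ag): the system of the points

Paper proofs.  `F q = {q_0, .., q_(k-1)}`.  `perm`: clear.  `lift`: `w₀ = γ(a₀)_i`: take `a ↦ γ(a)_i`.  `uniq`: a section `s` over a preconnected `A` is `s a = γ(a)_i` for one `i`: the sets `{a : s a = γ(a)_i}` are closed, pairwise disjoint (`γ(a)`
is injective), finitely many and cover `A`, so they are clopen.
`pt_T`: on the convex set `segment`, `x ↦ x_l` is a section (`T_sec`).  `pt_val`: `base k j = j`-th point of the base, `srt q ∈ Ord k`, segment in `Ord k`: `pt_T`.  `pt_s`: one crossing `a → c` at position `i` with `a ∈ Ord k` (`exists_cross`, labels `l = i`,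
`m = i + 1`; see its statement): `T a c (a_j) = c_j`, `val (j) a = a_j` (`srt a = a`), `srt c = c ∘ swap` (`c_(i+1)` is left of `c_i`): `c_j = val (swap j) c`; `crossProp_s`, `val_inj`.
-/

namespace Pool.Agent.Helper2.LN2

open Pool.Agent.Helper2.LN

/-- The system of the points of the configuration. -/
def ptSys (k : ℕ) : Sys k ℂ where
  F := fun q => Set.range q
  perm := by
    sorry
  lift := by
    sorry
  uniq := by
    sorry

theorem pt_T {k : ℕ} (a c : Fin k → ℂ) (h : segment ℝ a c ⊆ Conf k) (l : Fin k) :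
    (ptSys k).T a c (a l) = c l := by
  sorry

theorem pt_val {k : ℕ} (q : Fin k → ℂ) (hq : q ∈ Gen k) (j : Fin k) :
    (ptSys k).val ⟨base k j, ⟨j, rfl⟩⟩ q = srt q j := by
  sorry

theorem pt_s {k : ℕ} (i : ℕ) (hi : i + 1 < k) (j : Fin k) :
    (((ptSys k).s i ⟨base k j, ⟨j, rfl⟩⟩ : (ptSys k).F (base k)) : ℂ) =
      base k (Equiv.swap ⟨i, by omega⟩ ⟨i + 1, hi⟩ j) := by
  sorry

end Pool.Agent.Helper2.LN2
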