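import Pool.Agent.Helper2.LN2.CoshLift

/-!
# LN2-U1 (MP_730da0_ag): the logarithmic derivative at a puncture

Paper proof.  `punct`: translate to `a = 0`.  `H = {s : Re s < ρ}`, `ρ = log r`: convex, open.  `v(e^s)` is holomorphic and nonvanishing on `H`: `v(e^s) = e^(l s)` (`exists_log_on_convex`), and `l/(2πi)` omits the integers (`v ≠ 1`): `l/(2πi) = cosh² G`
(`exists_cosh`).  `landau_bound` on the ball of radius `ρ - Re s` around `s`: `‖G'(s)‖ ≤ C/(ρ - Re s)`.
Growth: let `s = ρ - τ + iθ`, `τ ≥ 1`, `|θ| ≤ π`.  `‖G(ρ-1+iθ) - G(ρ-1)‖ ≤ C π` (mean value inequality on the vertical segment) and `‖G(ρ-τ+iθ) - G(ρ-1+iθ)‖ ≤ C log τ` (the function `x ↦ G(ρ - e^x + iθ)`, `0 ≤ x ≤ log τ`, has derivative of norm `≤ C`).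
So `‖G(s)‖ ≤ C₁ + C log τ`, `‖sinh(2G)‖ ≤ e^(2‖G‖) ≤ C₂ τ^(2C)`.
`d/ds v(e^s) = e^s v'(e^s) = l'(s) v(e^s)`, so with `x = e^s` (`s` = the principal logarithm of `x`): `x v'(x)/v(x) = l'(s) = 2πi sinh(2G) G'(s)` (`cosh_deriv`), `‖x v'(x)/v(x)‖ ≤ C₃ (ρ - log‖x‖)^(2C)` for `‖x‖ ≤ r/e`.  This is
`o(1/‖x‖)` as `x → 0`: removable singularity (`Complex.differentiableOn_update_limUnder_of_isLittleO`).
`punct_inf`: apply `punct` to `w ↦ v(1/w)` on `0 < ‖w‖ < 1/R`: `w (d/dw) v(1/w) / v(1/w) = - (1/w) v'(1/w)/v(1/w)` is bounded near `0`, so `‖v'(x)/v(x)‖ ≤ C/‖x‖` for large `‖x‖`.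
-/

namespace Pool.Agent.Helper2.LN2

open Pool.Agent.Helper2.LN

theorem norm_cosh_le (z : ℂ) : ‖Complex.cosh z‖ ≤ Real.exp ‖z‖ := by
  have h1 : Complex.cosh z = (Complex.exp z + Complex.exp (-z)) / 2 := rfl
  rw [h1, norm_div]
  have h2 : ‖Complex.exp z‖ ≤ Real.exp ‖z‖ := Complex.norm_exp_le_exp_norm z
  have h3 : ‖Complex.exp (-z)‖ ≤ Real.exp ‖z‖ := by
    have := Complex.norm_exp_le_exp_norm (-z)
    rwa [norm_neg] at this
  have h4 := norm_add_le (Complex.exp z) (Complex.exp (-z))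
  have h5 : ‖(2 : ℂ)‖ = 2 := by simp
  rw [h5, div_le_iff₀ (by norm_num)]
  linarith

theorem punct_growth (v : ℂ → ℂ) (r : ℝ) (hr : 0 < r)
    (hv : DifferentiableOn ℂ v (Metric.ball 0 r \ {0}))
    (h0 : ∀ x ∈ Metric.ball (0 : ℂ) r \ {0}, v x ≠ 0)
    (h1 : ∀ x ∈ Metric.ball (0 : ℂ) r \ {0}, v x ≠ 1) :
    ∃ (C : ℝ) (K : ℕ), 0 ≤ C ∧ ∀ x : ℂ, x ≠ 0 → Real.log ‖x‖ ≤ Real.log r - 1 →
      ‖x * (deriv v x / v x)‖ ≤ C * (Real.log r - Real.log ‖x‖) ^ K := by
  obtain ⟨C0, hC0, hB⟩ := landau_bound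
  set ρ : ℝ := Real.log r with hρ
  have hrρ : Real.exp ρ = r := Real.exp_log hr
  set H : Set ℂ := {s : ℂ | s.re < ρ} with hH
  have hHo : IsOpen H := isOpen_lt Complex.continuous_re continuous_const
  have hHc : Convex ℝ H := convex_halfSpace_re_lt ρ
  have hexp : ∀ s ∈ H, Complex.exp s ∈ Metric.ball (0 : ℂ) r \ {0} := by
    intro s hs
    refine ⟨?_, fun h => Complex.exp_ne_zero s h⟩
    rw [mem_ball_zero_iff, Complex.norm_exp, ← hrρ]
    exact Real.exp_lt_exp.2 hs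
  have hDo : IsOpen (Metric.ball (0 : ℂ) r \ {0}) := Metric.isOpen_ball.sdiff isClosed_singleton
  have hu : DifferentiableOn ℂ (fun s => v (Complex.exp s)) H :=
    hv.comp Complex.differentiable_exp.differentiableOn hexp
  have ht0 : ((ρ - 1 : ℝ) : ℂ) ∈ H := by
    show ((ρ - 1 : ℝ) : ℂ).re < ρ
    rw [Complex.ofReal_re]; linarith
  obtain ⟨l, hl, hle, -⟩ := Pool.Agent.Helper93.LN.exists_log_on_convex hHc hHo hu
    (fun z hz => h0 _ (hexp z hz)) ht0
    (l0 := Complex.log (v (Complex.exp ((ρ - 1 : ℝ) : ℂ))))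
    (Complex.exp_log (h0 _ (hexp _ ht0)))
  have hpi : (2 * Real.pi * Complex.I : ℂ) ≠ 0 := Complex.two_pi_I_ne_zero
  set f : ℂ → ℂ := fun s => l s / (2 * Real.pi * Complex.I) with hf
  have hfd : DifferentiableOn ℂ f H := hl.div_const _
  have hfn : ∀ z ∈ H, ∀ m : ℤ, f z ≠ m := by
    intro z hz m hm
    have hm' : l z / (2 * Real.pi * Complex.I) = m := hm
    rw [div_eq_iff hpi] at hm'
    apply h1 _ (hexp z hz)
    have := hle z hz
    rw [← this, Complex.exp_eq_one_iff]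
    exact ⟨m, hm'⟩
  obtain ⟨G, hG, hGf⟩ := exists_cosh H hHc hHo f hfd hfn
  have hGd : ∀ s ∈ H, ‖deriv G s‖ ≤ C0 / (ρ - s.re) := by
    intro s hs
    have hs' : s.re < ρ := hs
    have hsub : Metric.ball s (ρ - s.re) ⊆ H := by
      intro z hz
      rw [mem_ball_iff_norm] at hz
      have h2 := Complex.abs_re_le_norm (z - s)
      rw [Complex.sub_re] at h2
      have h3 := le_abs_self (z.re - s.re)
      show z.re < ρ
      linarith
    exact hB G s (ρ - s.re) (by linarith) (hG.mono hsub)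
      (fun z hz m => by rw [hGf z (hsub hz)]; exact hfn z (hsub hz) m)
  have hGder : ∀ s ∈ H, HasDerivAt G (deriv G s) s := fun s hs =>
    (hG.differentiableAt (hHo.mem_nhds hs)).hasDerivAt
  -- vertical segment
  have hvert : ∀ θ : ℝ, |θ| ≤ Real.pi →
      ‖G (((ρ - 1 : ℝ) : ℂ) + θ * Complex.I) - G ((ρ - 1 : ℝ) : ℂ)‖ ≤ C0 * Real.pi := by
    intro θ hθ
    have hconv : Convex ℝ {s : ℂ | s.re ≤ ρ - 1} := convex_halfSpace_re_le (ρ - 1)
    have hsub : ∀ s ∈ {s : ℂ | s.re ≤ ρ - 1}, s ∈ H := by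
      intro s hs
      have : s.re ≤ ρ - 1 := hs
      show s.re < ρ
      linarith
    have h2 := hconv.norm_image_sub_le_of_norm_hasDerivWithin_le (f := G) (f' := deriv G) (C := C0)
      (x := ((ρ - 1 : ℝ) : ℂ)) (y := ((ρ - 1 : ℝ) : ℂ) + θ * Complex.I)
      (fun s hs => (hGder s (hsub s hs)).hasDerivWithinAt)
      (fun s hs => by
        have h3 := hGd s (hsub s hs)
        have h4 : s.re ≤ ρ - 1 := hs
        refine h3.trans ?_
        rw [div_le_iff₀ (by linarith)]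
        nlinarith)
      (by show ((ρ - 1 : ℝ) : ℂ).re ≤ ρ - 1; rw [Complex.ofReal_re])
      (by
        show (((ρ - 1 : ℝ) : ℂ) + θ * Complex.I).re ≤ ρ - 1
        simp)
    refine h2.trans ?_
    have h5 : ‖((ρ - 1 : ℝ) : ℂ) + θ * Complex.I - ((ρ - 1 : ℝ) : ℂ)‖ = |θ| := by
      rw [add_sub_cancel_left, norm_mul, Complex.norm_I, mul_one, Complex.norm_real,
        Real.norm_eq_abs]
    rw [h5]
    exact mul_le_mul_of_nonneg_left hθ hC0.le
  -- horizontal half line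
  have hhor : ∀ θ τ : ℝ, 1 ≤ τ →
      ‖G (((ρ - τ : ℝ) : ℂ) + θ * Complex.I) - G (((ρ - 1 : ℝ) : ℂ) + θ * Complex.I)‖ ≤
        C0 * Real.log τ := by
    intro θ τ hτ
    have hmem : ∀ x : ℝ, ((ρ - Real.exp x : ℝ) : ℂ) + θ * Complex.I ∈ H := by
      intro x
      show (((ρ - Real.exp x : ℝ) : ℂ) + θ * Complex.I).re < ρ
      have := Real.exp_pos x
      simp only [Complex.add_re, Complex.ofReal_re, Complex.mul_re, Complex.I_re, mul_zero,
        Complex.ofReal_im, Complex.I_im, mul_one, sub_self, add_zero]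
      linarith
    have hder : ∀ x ∈ (Set.univ : Set ℝ), HasDerivWithinAt
        (fun x : ℝ => G (((ρ - Real.exp x : ℝ) : ℂ) + θ * Complex.I))
        (deriv G (((ρ - Real.exp x : ℝ) : ℂ) + θ * Complex.I) * ((-Real.exp x : ℝ) : ℂ))
        Set.univ x := by
      intro x _
      have h2 : HasDerivAt (fun x : ℝ => ((ρ - Real.exp x : ℝ) : ℂ) + θ * Complex.I)
          (((-Real.exp x : ℝ) : ℂ)) x := by
        have h3 : HasDerivAt (fun x : ℝ => ρ - Real.exp x) (-Real.exp x) x := by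
          simpa using (Real.hasDerivAt_exp x).const_sub ρ
        exact h3.ofReal_comp.add_const _
      exact ((hGder _ (hmem x)).comp_of_eq x h2 rfl).hasDerivWithinAt
    have h2 := convex_univ.norm_image_sub_le_of_norm_hasDerivWithin_le (C := C0)
      (x := (0 : ℝ)) (y := Real.log τ) hder
      (fun x _ => by
        rw [norm_mul, Complex.norm_real, Real.norm_eq_abs, abs_neg, abs_of_pos (Real.exp_pos x)]
        have h3 := hGd _ (hmem x)
        have h4 : (((ρ - Real.exp x : ℝ) : ℂ) + θ * Complex.I).re = ρ - Real.exp x := by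
          rw [Complex.add_re, Complex.ofReal_re, Complex.re_ofReal_mul, Complex.I_re, mul_zero,
            add_zero]
        rw [h4] at h3
        have h5 : ρ - (ρ - Real.exp x) = Real.exp x := by ring
        rw [h5, le_div_iff₀ (Real.exp_pos x)] at h3
        exact h3) (Set.mem_univ _) (Set.mem_univ _)
    have hτ0 : 0 < τ := by linarith
    have h6 : Real.exp (Real.log τ) = τ := Real.exp_log hτ0
    have h7 : 0 ≤ Real.log τ := Real.log_nonneg hτ
    simp only [h6, Real.exp_zero, sub_zero, Real.norm_eq_abs, abs_of_nonneg h7] at h2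
    exact h2
  have hgrow : ∀ θ τ : ℝ, |θ| ≤ Real.pi → 1 ≤ τ →
      ‖G (((ρ - τ : ℝ) : ℂ) + θ * Complex.I)‖ ≤
        ‖G ((ρ - 1 : ℝ) : ℂ)‖ + C0 * Real.pi + C0 * Real.log τ := by
    intro θ τ hθ hτ
    have h2 := hvert θ hθ
    have h3 := hhor θ τ hτ
    have h4 : G (((ρ - τ : ℝ) : ℂ) + θ * Complex.I) =
        (G (((ρ - τ : ℝ) : ℂ) + θ * Complex.I) - G (((ρ - 1 : ℝ) : ℂ) + θ * Complex.I)) +
        ((G (((ρ - 1 : ℝ) : ℂ) + θ * Complex.I) - G ((ρ - 1 : ℝ) : ℂ)) + G ((ρ - 1 : ℝ) : ℂ)) := by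
      ring
    rw [h4]
    refine (norm_add_le _ _).trans ?_
    have h5 := norm_add_le (G (((ρ - 1 : ℝ) : ℂ) + θ * Complex.I) - G ((ρ - 1 : ℝ) : ℂ))
      (G ((ρ - 1 : ℝ) : ℂ))
    linarith
  obtain ⟨K, hK⟩ := exists_nat_ge (2 * C0)
  set A : ℝ := 2 * (‖G ((ρ - 1 : ℝ) : ℂ)‖ + C0 * Real.pi) with hA
  refine ⟨2 * Real.pi * (4 * Real.exp A * C0), K, by positivity, ?_⟩
  intro x hx hxr
  set τ : ℝ := ρ - Real.log ‖x‖ with hτ
  have hτ1 : 1 ≤ τ := by rw [hτ]; linarith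
  set s : ℂ := Complex.log x with hs
  have hsx : Complex.exp s = x := Complex.exp_log hx
  have hsre : s.re = ρ - τ := by rw [hs, Complex.log_re, hτ]; ring
  have hsim : s.im = Complex.arg x := Complex.log_im x
  have hseq : s = ((ρ - τ : ℝ) : ℂ) + (Complex.arg x : ℝ) * Complex.I := by
    have h2 := Complex.re_add_im s
    rw [hsre, hsim] at h2
    exact h2.symm
  have hsH : s ∈ H := by show s.re < ρ; rw [hsre]; linarith
  have hGs : ‖G s‖ ≤ ‖G ((ρ - 1 : ℝ) : ℂ)‖ + C0 * Real.pi + C0 * Real.log τ := by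
    rw [hseq]; exact hgrow _ _ (Complex.abs_arg_le_pi x) hτ1
  have hlogτ : 0 ≤ Real.log τ := Real.log_nonneg hτ1
  have hE : Real.exp (2 * ‖G s‖) ≤ Real.exp A * τ ^ K := by
    have h2 : 2 * ‖G s‖ ≤ A + K * Real.log τ := by
      rw [hA]; nlinarith
    refine (Real.exp_le_exp.2 h2).trans ?_
    rw [Real.exp_add, Real.exp_nat_mul, Real.exp_log (by linarith)]
  have hfs : ‖f s‖ ≤ Real.exp (2 * ‖G s‖) := by
    rw [← hGf s hsH, norm_pow]
    have h2 := norm_cosh_le (G s)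
    have h3 : Real.exp (2 * ‖G s‖) = Real.exp ‖G s‖ ^ 2 := by
      rw [← Real.exp_nat_mul]; norm_num
    rw [h3]
    exact pow_le_pow_left₀ (norm_nonneg _) h2 2
  have h1E : 1 ≤ Real.exp (2 * ‖G s‖) := Real.one_le_exp (by positivity)
  obtain ⟨hd1, hd2⟩ := cosh_deriv H hHo f G hG hGf s hsH
  have hder : deriv f s = deriv l s / (2 * Real.pi * Complex.I) := deriv_div_const _
  have hderl : deriv l s = 2 * Real.pi * Complex.I * deriv f s := by
    rw [hder]; field_simp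
  have hGs' : ‖deriv G s‖ ≤ C0 := by
    refine (hGd s hsH).trans ?_
    rw [hsre, div_le_iff₀ (by linarith)]
    nlinarith
  have hnorm : ‖(2 * Real.pi * Complex.I : ℂ)‖ = 2 * Real.pi := by
    rw [norm_mul, norm_mul, Complex.norm_I, Complex.norm_real, Real.norm_eq_abs,
      abs_of_pos Real.pi_pos]
    simp
  have hkey : x * (deriv v x / v x) = deriv l s := by
    have hvx : DifferentiableAt ℂ v x := by
      apply hv.differentiableAt
      rw [← hsx]
      exact hDo.mem_nhds (hexp s hsH)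
    have h2 : HasDerivAt (fun z => v (Complex.exp z)) (deriv v x * Complex.exp s) s := by
      have h3 : HasDerivAt v (deriv v x) (Complex.exp s) := by rw [hsx]; exact hvx.hasDerivAt
      exact h3.comp s (Complex.hasDerivAt_exp s)
    have h4 : HasDerivAt (fun z => Complex.exp (l z)) (Complex.exp (l s) * deriv l s) s :=
      ((hl.differentiableAt (hHo.mem_nhds hsH)).hasDerivAt).cexp
    have h5 : (fun z => v (Complex.exp z)) =ᶠ[nhds s] fun z => Complex.exp (l z) := by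
      filter_upwards [hHo.mem_nhds hsH] with w hw
      exact (hle w hw).symm
    have h6 : HasDerivAt (fun z => v (Complex.exp z)) (Complex.exp (l s) * deriv l s) s :=
      h4.congr_of_eventuallyEq h5
    have h7 := h2.unique h6
    have h8 : Complex.exp (l s) = v x := by rw [hle s hsH, hsx]
    have h9 : v x ≠ 0 := by rw [← h8]; exact Complex.exp_ne_zero _
    rw [hsx, h8] at h7
    field_simp
    linear_combination h7
  rw [hkey, hderl, norm_mul, hnorm, hd1, norm_mul]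
  have h10 : ‖Complex.sinh (2 * G s)‖ ≤ 4 * (Real.exp A * τ ^ K) := by linarith
  have h11 : ‖Complex.sinh (2 * G s)‖ * ‖deriv G s‖ ≤ 4 * (Real.exp A * τ ^ K) * C0 :=
    mul_le_mul h10 hGs' (norm_nonneg _) (by positivity)
  calc 2 * Real.pi * (‖Complex.sinh (2 * G s)‖ * ‖deriv G s‖)
      ≤ 2 * Real.pi * (4 * (Real.exp A * τ ^ K) * C0) :=
        mul_le_mul_of_nonneg_left h11 (by positivity)
    _ = 2 * Real.pi * (4 * Real.exp A * C0) * τ ^ K := by ring

theorem punct_zero (v : ℂ → ℂ) (r : ℝ) (hr : 0 < r)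
    (hv : DifferentiableOn ℂ v (Metric.ball 0 r \ {0}))
    (h0 : ∀ x ∈ Metric.ball (0 : ℂ) r \ {0}, v x ≠ 0)
    (h1 : ∀ x ∈ Metric.ball (0 : ℂ) r \ {0}, v x ≠ 1) :
    ∃ H : ℂ → ℂ, DifferentiableOn ℂ H (Metric.ball 0 r) ∧
      ∀ x ∈ Metric.ball (0 : ℂ) r \ {0}, x * (deriv v x / v x) = H x := by
  obtain ⟨C, K, hC, hb⟩ := punct_growth v r hr hv h0 h1
  have hDo : IsOpen (Metric.ball (0 : ℂ) r \ {0}) := Metric.isOpen_ball.sdiff isClosed_singleton
  set f : ℂ → ℂ := fun x => x * (deriv v x / v x) with hf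
  have hfd : DifferentiableOn ℂ f (Metric.ball (0 : ℂ) r \ {0}) :=
    differentiableOn_id.mul ((hv.deriv hDo).div hv h0)
  have hf0 : f 0 = 0 := by rw [hf]; simp
  have hlog : Filter.Tendsto (fun z : ℂ => Real.log r - Real.log ‖z‖) (nhdsWithin 0 {0}ᶜ)
      Filter.atTop := by
    have h2 : Filter.Tendsto (fun z : ℂ => Real.log ‖z‖) (nhdsWithin 0 {0}ᶜ) Filter.atBot := by
      refine Real.tendsto_log_nhdsNE_zero.comp ?_
      have h3 := tendsto_norm_nhdsNE_zero (E := ℂ)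
      exact h3.mono_right (nhdsWithin_mono _ (fun y hy => ne_of_gt hy))
    have h4 := Filter.tendsto_atTop_add_const_left (nhdsWithin (0 : ℂ) {0}ᶜ) (Real.log r)
      (Filter.tendsto_neg_atBot_atTop.comp h2)
    simpa [sub_eq_add_neg, Function.comp_def] using h4
  have hsmall : ∀ᶠ z in nhdsWithin (0 : ℂ) {0}ᶜ, Real.log ‖z‖ ≤ Real.log r - 1 := by
    filter_upwards [hlog.eventually_ge_atTop 1] with z hz
    linarith
  have hne : ∀ᶠ z in nhdsWithin (0 : ℂ) {0}ᶜ, z ≠ 0 := by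
    filter_upwards [self_mem_nhdsWithin] with z hz
    exact hz
  have ho : (fun z => f z - f 0) =o[nhdsWithin 0 {0}ᶜ] fun z => (z - 0 : ℂ)⁻¹ := by
    rw [Asymptotics.isLittleO_iff_tendsto']
    · have hlim : Filter.Tendsto
          (fun z : ℂ => C * r * ((Real.log r - Real.log ‖z‖) ^ K *
            Real.exp (-(Real.log r - Real.log ‖z‖)))) (nhdsWithin 0 {0}ᶜ) (nhds 0) := by
        have h2 := (Real.tendsto_pow_mul_exp_neg_atTop_nhds_zero K).comp hlog
        have h3 := h2.const_mul (C * r)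
        rw [mul_zero] at h3
        exact h3
      refine squeeze_zero_norm' ?_ hlim
      filter_upwards [hsmall, hne] with z hz hz0
      rw [hf0, sub_zero, sub_zero, div_inv_eq_mul, norm_mul]
      have h4 := hb z hz0 hz
      have h5 : Real.exp (-(Real.log r - Real.log ‖z‖)) = ‖z‖ / r := by
        rw [neg_sub, Real.exp_sub, Real.exp_log (norm_pos_iff.2 hz0), Real.exp_log hr]
      rw [h5]
      have h6 : C * r * ((Real.log r - Real.log ‖z‖) ^ K * (‖z‖ / r)) =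
          C * (Real.log r - Real.log ‖z‖) ^ K * ‖z‖ := by
        field_simp
      rw [h6]
      exact mul_le_mul_of_nonneg_right h4 (norm_nonneg _)
    · filter_upwards [hne] with z hz0 hz
      rw [sub_zero, inv_eq_zero] at hz
      exact absurd hz hz0
  have hd := Complex.differentiableOn_update_limUnder_of_isLittleO
    (Metric.ball_mem_nhds (0 : ℂ) hr) hfd ho
  refine ⟨_, hd, ?_⟩
  intro x hx
  rw [Function.update_of_ne hx.2]

theorem punct (v : ℂ → ℂ) (a : ℂ) (r : ℝ) (hr : 0 < r) (hv : DifferentiableOn ℂ v (Metric.ball a r \ {a}))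
    (h0 : ∀ x ∈ Metric.ball a r \ {a}, v x ≠ 0) (h1 : ∀ x ∈ Metric.ball a r \ {a}, v x ≠ 1) :
    ∃ H : ℂ → ℂ, DifferentiableOn ℂ H (Metric.ball a r) ∧
      ∀ x ∈ Metric.ball a r \ {a}, (x - a) * (deriv v x / v x) = H x := by
  have hm : ∀ x ∈ Metric.ball (0 : ℂ) r \ {0}, x + a ∈ Metric.ball a r \ {a} := by
    intro x hx
    refine ⟨?_, ?_⟩
    · rw [mem_ball_iff_norm, add_sub_cancel_right]
      exact mem_ball_zero_iff.1 hx.1
    · intro h
      apply hx.2
      have : x + a = a := h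
      simpa using this
  obtain ⟨H, hH, hHe⟩ := punct_zero (fun x => v (x + a)) r hr
    (hv.comp ((differentiable_id.add_const a).differentiableOn) hm)
    (fun x hx => h0 _ (hm x hx)) (fun x hx => h1 _ (hm x hx))
  refine ⟨fun x => H (x - a), ?_, ?_⟩
  · refine hH.comp ((differentiable_id.sub_const a).differentiableOn) ?_
    intro x hx
    rw [mem_ball_zero_iff]
    exact mem_ball_iff_norm.1 hx
  · intro x hx
    have h2 : x - a ∈ Metric.ball (0 : ℂ) r \ {0} := by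
      refine ⟨?_, ?_⟩
      · rw [mem_ball_zero_iff]
        exact mem_ball_iff_norm.1 hx.1
      · intro h
        exact hx.2 (sub_eq_zero.1 h)
    have h3 := hHe (x - a) h2
    rw [deriv_comp_add_const] at h3
    rw [sub_add_cancel] at h3
    exact h3

theorem punct_inf (v : ℂ → ℂ) (R : ℝ) (hR : 0 < R) (hv : DifferentiableOn ℂ v {x | R < ‖x‖})
    (h0 : ∀ x, R < ‖x‖ → v x ≠ 0) (h1 : ∀ x, R < ‖x‖ → v x ≠ 1) :
    Filter.Tendsto (fun x => deriv v x / v x) (Filter.cocompact ℂ) (nhds 0) := by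
  have hm : ∀ x ∈ Metric.ball (0 : ℂ) (1 / R) \ {0}, R < ‖x⁻¹‖ := by
    intro x hx
    have h2 : ‖x‖ < 1 / R := mem_ball_zero_iff.1 hx.1
    have h3 : 0 < ‖x‖ := norm_pos_iff.2 hx.2
    rw [norm_inv, lt_inv_comm₀ hR h3]
    rwa [one_div] at h2
  have hDo : IsOpen {x : ℂ | R < ‖x‖} := isOpen_lt continuous_const continuous_norm
  obtain ⟨H, hH, hHe⟩ := punct_zero (fun x => v x⁻¹) (1 / R) (by positivity)
    (hv.comp (fun x hx => ((differentiableAt_inv hx.2).differentiableWithinAt)) hm)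
    (fun x hx => h0 _ (hm x hx)) (fun x hx => h1 _ (hm x hx))
  have hHc : ContinuousAt H 0 :=
    (hH.differentiableAt (Metric.ball_mem_nhds (0 : ℂ) (by positivity))).continuousAt
  have hinv : Filter.Tendsto (fun x : ℂ => x⁻¹) (Filter.cocompact ℂ) (nhds 0) := by
    rw [← Metric.cobounded_eq_cocompact]
    exact Filter.tendsto_inv₀_cobounded
  have hlim : Filter.Tendsto (fun x : ℂ => -(x⁻¹ * H x⁻¹)) (Filter.cocompact ℂ) (nhds 0) := by
    have h2 := (hinv.mul (hHc.tendsto.comp hinv)).neg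
    rw [zero_mul, neg_zero] at h2
    exact h2
  refine hlim.congr' ?_
  have hlarge : ∀ᶠ x : ℂ in Filter.cocompact ℂ, R < ‖x‖ := by
    rw [← Metric.cobounded_eq_cocompact]
    exact tendsto_norm_cobounded_atTop.eventually_gt_atTop R
  filter_upwards [hlarge] with x hx
  have hx0 : x ≠ 0 := by
    intro h
    rw [h, norm_zero] at hx
    linarith
  have hxm : x⁻¹ ∈ Metric.ball (0 : ℂ) (1 / R) \ {0} := by
    refine ⟨?_, ?_⟩
    · rw [mem_ball_zero_iff, norm_inv, one_div]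
      exact (inv_lt_inv₀ (by linarith) hR).2 hx
    · intro h
      exact (inv_ne_zero hx0) h
  have h3 := hHe x⁻¹ hxm
  have h4 : HasDerivAt (fun y : ℂ => v y⁻¹) (deriv v x * -((x⁻¹) ^ 2)⁻¹) x⁻¹ := by
    have h5 : HasDerivAt v (deriv v x) (x⁻¹)⁻¹ := by
      rw [inv_inv]
      exact (hv.differentiableAt (hDo.mem_nhds hx)).hasDerivAt
    exact h5.comp x⁻¹ (hasDerivAt_inv (inv_ne_zero hx0))
  rw [h4.deriv, inv_inv] at h3
  have h6 : v x ≠ 0 := h0 x hx
  rw [← h3]
  field_simp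

end Pool.Agent.Helper2.LN2
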