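import Pool.Agent.Helper2.LN2.EJoint
import Pool.Agent.Helper2.LN2.EInj
import Pool.Agent.Helper2.LN2.EHol

/-!
# LN2-L2 (MP_730da0_ag): the family `qf`

Paper proofs.  Write every point as `a + b t` with real `a, b` (`rep`), `mem_Lat_iff`.
* `EE_rep`: for real `a, b` the condition `a + b t ∈ EE k t` does not depend on `t ∈ HH`: it says `2a, 2b ∈ ℤ`, or `b ∈ ℤ` and `a ∓ 1/j ∈ ℤ` for some `4 ≤ j < k`.
* `qf_conf`: the five kinds of arguments `1/2, t/2, (1+t)/2, p, 1/j` are not in `Lat t`, and no two are equal up to sign modulo `Lat t` (`2 p ∉ Lat t`; `1/i ∓ 1/j ∉ ℤ` for `4 ≤ i < j`: `0 < 1/i ± 1/j < 1`), so by `wp_inj` the values are distinct.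
* `isOpen_EE`: the complement is a finite intersection of sets as in `isOpen_off`, `isOpen_off2` (preimages under `(p, t) ↦ (p ∓ 1/j, t)`).  `EE_countable`: `Lat_countable`.
* `qf_cont`: `wp_joint`; `qf_hol`: `wp_hol_comp` with constant `τ = t` (components `0, 1, 2, ≥ 4` are constant).
* `qf_torsion`: `2 z ∈ Lat t`, `z ∉ Lat t`: `z = (m + n t)/2` with `(m, n)` not both even; `wp z t` is `wp (1/2) t`, `wp (t/2) t` or `wp ((1+t)/2) t` by `wp_add`.
* `qf_leaf`: `a, b` rational, `N` a common denominator of `1/2`, `a`, `b`, `1/j` (`4 ≤ j < k`), e.g. `N = 2 a.den b.den k!`; `L j` the numerators.  `Adm`: `qf_conf` (with `EE_rep`), `qf_torsion`; the arguments are not in `Lat t`.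
-/

namespace Pool.Agent.Helper2.LN2

open Pool.Agent.Helper2.LN

private theorem not_int {x : ℝ} (h0 : 0 < x) (h1 : x < 1) : ¬ ∃ m : ℤ, x = m := by
  rintro ⟨m, rfl⟩
  have h2 : 0 < m := by exact_mod_cast h0
  have h3 : m < 1 := by exact_mod_cast h1
  omega

private theorem not_int' {x : ℝ} (h0 : -1 < x) (h1 : x < 0) : ¬ ∃ m : ℤ, x = m := by
  rintro ⟨m, rfl⟩
  have h2 : -1 < m := by exact_mod_cast h0
  have h3 : m < 0 := by exact_mod_cast h1
  omega

private theorem notL_a {t : ℂ} (ht : t ∈ HH) (a b : ℝ) {z : ℂ} (hz : z = (a : ℂ) + b * t)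
    (h : ¬ ∃ m : ℤ, a = m) : z ∉ Lat t := by
  rw [hz, mem_Lat_iff ht]
  exact fun h' => h h'.1

private theorem notL_b {t : ℂ} (ht : t ∈ HH) (a b : ℝ) {z : ℂ} (hz : z = (a : ℂ) + b * t)
    (h : ¬ ∃ m : ℤ, b = m) : z ∉ Lat t := by
  rw [hz, mem_Lat_iff ht]
  exact fun h' => h h'.2

/-- the condition in real coordinates -/
private def EP (k : ℕ) (a b : ℝ) : Prop :=
  ((∃ m : ℤ, 2 * a = m) ∧ ∃ n : ℤ, 2 * b = n) ∨ ∃ j : ℕ, 4 ≤ j ∧ j < k ∧
    (((∃ m : ℤ, a - 1 / (j : ℝ) = m) ∧ ∃ n : ℤ, b = n) ∨ ((∃ m : ℤ, a + 1 / (j : ℝ) = m) ∧ ∃ n : ℤ, b = n))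

private theorem EE_iff (k : ℕ) {t : ℂ} (ht : t ∈ HH) (a b : ℝ) : (a : ℂ) + b * t ∈ EE k t ↔ EP k a b := by
  have h1 : (2 * ((a : ℂ) + b * t) ∈ Lat t) ↔ ((∃ m : ℤ, 2 * a = m) ∧ ∃ n : ℤ, 2 * b = n) := by
    rw [← mem_Lat_iff ht (2 * a) (2 * b)]
    have : 2 * ((a : ℂ) + b * t) = ((2 * a : ℝ) : ℂ) + ((2 * b : ℝ) : ℂ) * t := by push_cast; ring
    rw [this]
  have h2 : ∀ j : ℕ, ((a : ℂ) + b * t - 1 / (j : ℂ) ∈ Lat t) ↔
      ((∃ m : ℤ, a - 1 / (j : ℝ) = m) ∧ ∃ n : ℤ, b = n) := by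
    intro j
    rw [← mem_Lat_iff ht (a - 1 / (j : ℝ)) b]
    have : (a : ℂ) + b * t - 1 / (j : ℂ) = ((a - 1 / (j : ℝ) : ℝ) : ℂ) + (b : ℂ) * t := by push_cast; ring
    rw [this]
  have h3 : ∀ j : ℕ, ((a : ℂ) + b * t + 1 / (j : ℂ) ∈ Lat t) ↔
      ((∃ m : ℤ, a + 1 / (j : ℝ) = m) ∧ ∃ n : ℤ, b = n) := by
    intro j
    rw [← mem_Lat_iff ht (a + 1 / (j : ℝ)) b]
    have : (a : ℂ) + b * t + 1 / (j : ℂ) = ((a + 1 / (j : ℝ) : ℝ) : ℂ) + (b : ℂ) * t := by push_cast; ring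
    rw [this]
  unfold EE EP
  rw [Set.mem_setOf_eq, h1]
  simp only [h2, h3]

theorem EE_rep (k : ℕ) {t t' : ℂ} (ht : t ∈ HH) (ht' : t' ∈ HH) (a b : ℝ) :
    (a : ℂ) + b * t ∈ EE k t ↔ (a : ℂ) + b * t' ∈ EE k t' := by
  rw [EE_iff k ht, EE_iff k ht']

/-- the arguments of the components -/
private noncomputable def ar (p t : ℂ) (j : ℕ) : ℂ :=
  if j = 0 then 1 / 2 else if j = 1 then t / 2 else if j = 2 then (1 + t) / 2 else if j = 3 then p else 1 / (j : ℂ)

private theorem qf_ar (k : ℕ) (p t : ℂ) (j : Fin k) : qf k p t j = wp (ar p t j) t := by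
  unfold qf ar
  split_ifs <;> rfl

private theorem two_ar_lt {p t : ℂ} {j : ℕ} (hj : j < 3) : 2 * ar p t j ∈ Lat t := by
  unfold ar
  interval_cases j
  · simpa using Lat_one t
  · simp only [if_neg one_ne_zero, if_true]
    have : 2 * (t / 2) = t := by ring
    rw [this]
    exact Lat_self t
  · norm_num
    have : 2 * ((1 + t) / 2) = 1 + t := by ring
    rw [this]
    exact Lat_add (Lat_one t) (Lat_self t)

private theorem two_p {k : ℕ} {p t : ℂ} (hp : p ∉ EE k t) : 2 * p ∉ Lat t := fun h => hp (Or.inl h)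

private theorem inv_bd {j : ℕ} (hj : 4 ≤ j) : 0 < 1 / (j : ℝ) ∧ 1 / (j : ℝ) ≤ 1 / 4 := by
  have h : (4 : ℝ) ≤ j := by exact_mod_cast hj
  constructor
  · positivity
  · exact one_div_le_one_div_of_le (by norm_num) h

private theorem ar_ge {p t : ℂ} {j : ℕ} (hj : 4 ≤ j) : ar p t j = ((1 / (j : ℝ) : ℝ) : ℂ) + ((0 : ℝ) : ℂ) * t := by
  unfold ar
  rw [if_neg (by omega), if_neg (by omega), if_neg (by omega), if_neg (by omega)]
  push_cast
  ring

private theorem ar_0 {p t : ℂ} : ar p t 0 = ((1 / 2 : ℝ) : ℂ) + ((0 : ℝ) : ℂ) * t := by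
  unfold ar
  push_cast
  simp

private theorem ar_1 {p t : ℂ} : ar p t 1 = ((0 : ℝ) : ℂ) + ((1 / 2 : ℝ) : ℂ) * t := by
  unfold ar
  push_cast
  simp
  ring

private theorem ar_2 {p t : ℂ} : ar p t 2 = ((1 / 2 : ℝ) : ℂ) + ((1 / 2 : ℝ) : ℂ) * t := by
  unfold ar
  push_cast
  norm_num
  ring

private theorem ar_3 {p t : ℂ} : ar p t 3 = p := by
  unfold ar
  norm_num

private theorem ar_notL {k : ℕ} {p t : ℂ} (ht : t ∈ HH) (hp : p ∉ EE k t) (j : ℕ) : ar p t j ∉ Lat t := by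
  rcases Nat.lt_or_ge j 4 with h | h
  · interval_cases j
    · exact notL_a ht _ _ ar_0 (not_int (by norm_num) (by norm_num))
    · exact notL_b ht _ _ ar_1 (not_int (by norm_num) (by norm_num))
    · exact notL_b ht _ _ ar_2 (not_int (by norm_num) (by norm_num))
    · rw [ar_3]
      intro h
      apply two_p hp
      rw [two_mul]
      exact Lat_add h h
  · have h1 := inv_bd h
    exact notL_a ht _ _ (ar_ge h) (not_int h1.1 (by linarith [h1.2]))

private theorem ar_3_side {k : ℕ} {p t : ℂ} (hp : p ∉ EE k t) {i : ℕ} (hi : i < 3) :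
    ar p t i - ar p t 3 ∉ Lat t ∧ ar p t i + ar p t 3 ∉ Lat t := by
  have h2 := two_ar_lt (p := p) (t := t) hi
  rw [ar_3]
  constructor
  · intro h
    apply two_p hp
    have h3 := Lat_sub h2 (Lat_add h h)
    have : 2 * ar p t i - (ar p t i - p + (ar p t i - p)) = 2 * p := by ring
    rwa [this] at h3
  · intro h
    apply two_p hp
    have h3 := Lat_sub (Lat_add h h) h2
    have : ar p t i + p + (ar p t i + p) - 2 * ar p t i = 2 * p := by ring
    rwa [this] at h3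

private theorem ar_lt {k : ℕ} {p t : ℂ} (ht : t ∈ HH) (hp : p ∉ EE k t) {i j : ℕ} (hij : i < j) (hj : j < k) :
    ar p t i - ar p t j ∉ Lat t ∧ ar p t i + ar p t j ∉ Lat t := by
  rcases Nat.lt_or_ge j 4 with h | h
  · rcases Nat.lt_or_ge j 3 with h3 | h3
    · have h4 : (i = 0 ∧ j = 1) ∨ (i = 0 ∧ j = 2) ∨ (i = 1 ∧ j = 2) := by omega
      rcases h4 with ⟨rfl, rfl⟩ | ⟨rfl, rfl⟩ | ⟨rfl, rfl⟩
      · constructor
        · exact notL_b ht (1 / 2) (-(1 / 2)) (by rw [ar_0, ar_1]; push_cast; ring)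
            (not_int' (by norm_num) (by norm_num))
        · exact notL_b ht (1 / 2) (1 / 2) (by rw [ar_0, ar_1]; push_cast; ring)
            (not_int (by norm_num) (by norm_num))
      · constructor
        · exact notL_b ht 0 (-(1 / 2)) (by rw [ar_0, ar_2]; push_cast; ring)
            (not_int' (by norm_num) (by norm_num))
        · exact notL_b ht 1 (1 / 2) (by rw [ar_0, ar_2]; push_cast; ring)
            (not_int (by norm_num) (by norm_num))
      · constructor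
        · exact notL_a ht (-(1 / 2)) 0 (by rw [ar_1, ar_2]; push_cast; ring)
            (not_int' (by norm_num) (by norm_num))
        · exact notL_a ht (1 / 2) 1 (by rw [ar_1, ar_2]; push_cast; ring)
            (not_int (by norm_num) (by norm_num))
    · have : j = 3 := by omega
      subst this
      exact ar_3_side hp hij
  · have hb := inv_bd h
    have hc := ar_ge (p := p) (t := t) h
    rcases Nat.lt_or_ge i 4 with h4 | h4
    · interval_cases i
      · constructor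
        · exact notL_a ht (1 / 2 - 1 / (j : ℝ)) 0 (by rw [ar_0, hc]; push_cast; ring)
            (not_int (by linarith [hb.1, hb.2]) (by linarith [hb.1, hb.2]))
        · exact notL_a ht (1 / 2 + 1 / (j : ℝ)) 0 (by rw [ar_0, hc]; push_cast; ring)
            (not_int (by linarith [hb.1, hb.2]) (by linarith [hb.1, hb.2]))
      · constructor
        · exact notL_b ht (-(1 / (j : ℝ))) (1 / 2) (by rw [ar_1, hc]; push_cast; ring)
            (not_int (by norm_num) (by norm_num))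
        · exact notL_b ht (1 / (j : ℝ)) (1 / 2) (by rw [ar_1, hc]; push_cast; ring)
            (not_int (by norm_num) (by norm_num))
      · constructor
        · exact notL_b ht (1 / 2 - 1 / (j : ℝ)) (1 / 2) (by rw [ar_2, hc]; push_cast; ring)
            (not_int (by norm_num) (by norm_num))
        · exact notL_b ht (1 / 2 + 1 / (j : ℝ)) (1 / 2) (by rw [ar_2, hc]; push_cast; ring)
            (not_int (by norm_num) (by norm_num))
      · rw [ar_3]
        have he : ar p t j = 1 / (j : ℂ) := by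
          rw [hc]
          push_cast
          ring
        rw [he]
        exact ⟨fun hh => hp (Or.inr ⟨j, h, hj, Or.inl hh⟩), fun hh => hp (Or.inr ⟨j, h, hj, Or.inr hh⟩)⟩
    · have hd := inv_bd h4
      have he := ar_ge (p := p) (t := t) h4
      have hlt : 1 / (j : ℝ) < 1 / (i : ℝ) := by
        apply one_div_lt_one_div_of_lt
        · exact_mod_cast (by omega : 0 < i)
        · exact_mod_cast hij
      constructor
      · exact notL_a ht (1 / (i : ℝ) - 1 / (j : ℝ)) 0 (by rw [he, hc]; push_cast; ring)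
          (not_int (by linarith) (by linarith [hb.1, hd.2]))
      · exact notL_a ht (1 / (i : ℝ) + 1 / (j : ℝ)) 0 (by rw [he, hc]; push_cast; ring)
          (not_int (by linarith [hb.1, hd.1]) (by linarith [hb.2, hd.2]))

theorem qf_conf {k : ℕ} {t : ℂ} (ht : t ∈ HH) {p : ℂ} (hp : p ∉ EE k t) : qf k p t ∈ Conf k := by
  intro i j hij
  rw [qf_ar, qf_ar] at hij
  by_contra hne
  have hne' : (i : ℕ) ≠ j := fun h => hne (Fin.ext h)
  rcases wp_inj ht (ar_notL ht hp i) (ar_notL ht hp j) hij with h | h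
  · rcases lt_or_gt_of_ne hne' with h1 | h1
    · exact (ar_lt ht hp h1 j.2).1 h
    · apply (ar_lt ht hp h1 i.2).1
      have := Lat_neg h
      rwa [neg_sub] at this
  · rcases lt_or_gt_of_ne hne' with h1 | h1
    · exact (ar_lt ht hp h1 j.2).2 h
    · apply (ar_lt ht hp h1 i.2).2
      rwa [add_comm] at h

theorem isOpen_EE (k : ℕ) : IsOpen {x : ℂ × ℂ | x.2 ∈ HH ∧ x.1 ∉ EE k x.2} := by
  have key : {x : ℂ × ℂ | x.2 ∈ HH ∧ x.1 ∉ EE k x.2} = {x : ℂ × ℂ | x.2 ∈ HH ∧ 2 * x.1 ∉ Lat x.2} ∩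
      ⋂ j ∈ Finset.Ico 4 k, ((fun x : ℂ × ℂ => (x.1 - 1 / (j : ℂ), x.2)) ⁻¹' {x : ℂ × ℂ | x.2 ∈ HH ∧ x.1 ∉ Lat x.2} ∩
        (fun x : ℂ × ℂ => (x.1 + 1 / (j : ℂ), x.2)) ⁻¹' {x : ℂ × ℂ | x.2 ∈ HH ∧ x.1 ∉ Lat x.2}) := by
    ext ⟨p, t⟩
    simp only [Set.mem_setOf_eq, Set.mem_inter_iff, Set.mem_iInter, Set.mem_preimage, Finset.mem_Ico, EE, not_or,
      not_exists, not_and]
    constructor
    · rintro ⟨h1, h2, h3⟩
      exact ⟨⟨h1, h2⟩, fun j hj => ⟨⟨h1, (h3 j hj.1 hj.2).1⟩, ⟨h1, (h3 j hj.1 hj.2).2⟩⟩⟩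
    · rintro ⟨⟨h1, h2⟩, h3⟩
      exact ⟨h1, h2, fun j hj hj' => ⟨(h3 j ⟨hj, hj'⟩).1.2, (h3 j ⟨hj, hj'⟩).2.2⟩⟩
  rw [key]
  refine isOpen_off2.inter (isOpen_biInter_finset fun j _ => ?_)
  exact (isOpen_off.preimage (by fun_prop)).inter (isOpen_off.preimage (by fun_prop))

theorem EE_countable (k : ℕ) (t : ℂ) : (EE k t).Countable := by
  have key : EE k t ⊆ ((fun p : ℂ => 2 * p) ⁻¹' Lat t) ∪
      ⋃ j : ℕ, (((fun p : ℂ => p - 1 / (j : ℂ)) ⁻¹' Lat t) ∪ ((fun p : ℂ => p + 1 / (j : ℂ)) ⁻¹' Lat t)) := by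
    rintro p (h | ⟨j, -, -, h⟩)
    · exact Or.inl h
    · refine Or.inr (Set.mem_iUnion.2 ⟨j, ?_⟩)
      rcases h with h | h
      · exact Or.inl h
      · exact Or.inr h
  refine Set.Countable.mono key (Set.Countable.union ?_ (Set.countable_iUnion fun j => Set.Countable.union ?_ ?_))
  · exact (Lat_countable t).preimage (fun x y h => by simpa using h)
  · exact (Lat_countable t).preimage (fun x y h => by simpa using h)
  · exact (Lat_countable t).preimage (fun x y h => by simpa using h)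

private theorem ar_cont (j : ℕ) : Continuous (fun x : ℂ × ℂ => ar x.1 x.2 j) := by
  unfold ar
  split_ifs <;> fun_prop

theorem qf_cont (k : ℕ) : ContinuousOn (fun x : ℂ × ℂ => qf k x.1 x.2) {x : ℂ × ℂ | x.2 ∈ HH ∧ x.1 ∉ EE k x.2} := by
  rw [continuousOn_pi]
  intro j x hx
  apply ContinuousAt.continuousWithinAt
  have h1 : (fun x : ℂ × ℂ => qf k x.1 x.2 j) = (fun y : ℂ × ℂ => wp y.1 y.2) ∘ (fun x : ℂ × ℂ => (ar x.1 x.2 j, x.2)) := by
    funext x
    exact qf_ar k x.1 x.2 j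
  rw [h1]
  apply ContinuousAt.comp
  · exact (wp_joint hx.1 (ar_notL hx.1 hx.2 j)).continuousAt
  · exact ((ar_cont j).prodMk continuous_snd).continuousAt

theorem qf_hol (k : ℕ) {t : ℂ} (ht : t ∈ HH) : DifferentiableOn ℂ (fun p => qf k p t) (EE k t)ᶜ := by
  rw [differentiableOn_pi]
  intro j
  unfold qf
  split_ifs
  · exact differentiableOn_const _
  · exact differentiableOn_const _
  · exact differentiableOn_const _
  · refine (wp_diff ht).mono ?_
    intro p hp hp'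
    apply two_p hp
    rw [two_mul]
    exact Lat_add hp' hp'
  · exact differentiableOn_const _

theorem qf_torsion {k : ℕ} (hk : 4 ≤ k) {t : ℂ} (ht : t ∈ HH) (p z : ℂ) (hz : 2 * z ∈ Lat t) (hz' : z ∉ Lat t) :
    ∃ j, qf k p t j = wp z t := by
  obtain ⟨m, n, h⟩ := hz
  have hm : m = 2 * (m / 2) + m % 2 := (Int.mul_ediv_add_emod m 2).symm
  have hn : n = 2 * (n / 2) + n % 2 := (Int.mul_ediv_add_emod n 2).symm
  have hl : ((m / 2 : ℤ) : ℂ) + ((n / 2 : ℤ) : ℂ) * t ∈ Lat t := ⟨_, _, rfl⟩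
  have hz2 : z = (((m % 2 : ℤ) : ℂ) + ((n % 2 : ℤ) : ℂ) * t) / 2 +
      (((m / 2 : ℤ) : ℂ) + ((n / 2 : ℤ) : ℂ) * t) := by
    have h1 : (m : ℂ) = 2 * ((m / 2 : ℤ) : ℂ) + ((m % 2 : ℤ) : ℂ) := by exact_mod_cast congrArg (fun x : ℤ => (x : ℂ)) hm
    have h2 : (n : ℂ) = 2 * ((n / 2 : ℤ) : ℂ) + ((n % 2 : ℤ) : ℂ) := by exact_mod_cast congrArg (fun x : ℤ => (x : ℂ)) hn
    have h3 : z = (2 * z) / 2 := by ring
    rw [h3, h, h1, h2]
    ring
  have hm2 : m % 2 = 0 ∨ m % 2 = 1 := Int.emod_two_eq_zero_or_one m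
  have hn2 : n % 2 = 0 ∨ n % 2 = 1 := Int.emod_two_eq_zero_or_one n
  rcases hm2 with h1 | h1 <;> rcases hn2 with h2 | h2
  · exfalso
    apply hz'
    rw [hz2, h1, h2]
    simpa using hl
  · refine ⟨⟨1, by omega⟩, ?_⟩
    rw [hz2, wp_add ht _ _ hl, h1, h2]
    simp [qf]
  · refine ⟨⟨0, by omega⟩, ?_⟩
    rw [hz2, wp_add ht _ _ hl, h1, h2]
    simp [qf]
  · refine ⟨⟨2, by omega⟩, ?_⟩
    rw [hz2, wp_add ht _ _ hl, h1, h2]
    simp [qf]

theorem qf_leaf {k : ℕ} (hk : 4 ≤ k) (a b : ℚ) {t₀ : ℂ} (ht₀ : t₀ ∈ HH) (h : (a : ℂ) + b * t₀ ∉ EE k t₀) :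
    ∃ (N : ℕ) (L : Fin k → ℤ × ℤ), 0 < N ∧ Adm k N L ∧ ∀ t ∈ HH, qL k N L t = qf k (a + b * t) t := by
  have hE : ∀ t ∈ HH, (a : ℂ) + b * t ∉ EE k t := by
    intro t ht h'
    apply h
    have := (EE_rep k ht ht₀ (a : ℝ) (b : ℝ)).1 (by simpa using h')
    simpa using this
  have hfac : 0 < k.factorial := Nat.factorial_pos k
  have had : 0 < a.den := a.den_pos
  have hbd : 0 < b.den := b.den_pos
  set M : ℕ := a.den * (b.den * k.factorial) with hM
  have hMpos : 0 < M := by positivity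
  let L : Fin k → ℤ × ℤ := fun j =>
    if (j : ℕ) = 0 then ((M : ℤ), 0) else if (j : ℕ) = 1 then (0, (M : ℤ)) else
      if (j : ℕ) = 2 then ((M : ℤ), (M : ℤ)) else
        if (j : ℕ) = 3 then (a.num * (2 * (b.den * k.factorial) : ℕ), b.num * (2 * (a.den * k.factorial) : ℕ)) else
          (((2 * (a.den * (b.den * (k.factorial / (j : ℕ))))) : ℕ), 0)
  have hMc : (M : ℂ) ≠ 0 := by exact_mod_cast hMpos.ne'
  have hadc : (a.den : ℂ) ≠ 0 := by exact_mod_cast had.ne'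
  have hbdc : (b.den : ℂ) ≠ 0 := by exact_mod_cast hbd.ne'
  have hfc : (k.factorial : ℂ) ≠ 0 := by exact_mod_cast hfac.ne'
  have hMe : (M : ℂ) = a.den * (b.den * k.factorial) := by rw [hM]; push_cast; ring
  have harg : ∀ (t : ℂ) (j : Fin k), (((L j).1 : ℂ) + (L j).2 * t) / ((2 * M : ℕ) : ℂ) = ar (a + b * t) t j := by
    intro t j
    unfold ar
    by_cases h0 : (j : ℕ) = 0
    · simp only [L, h0, if_true]
      push_cast
      field_simp
      ring
    by_cases h1 : (j : ℕ) = 1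
    · simp only [L, h1, if_neg one_ne_zero, if_true]
      push_cast
      field_simp
      ring
    by_cases h2 : (j : ℕ) = 2
    · simp only [L, h2, if_neg two_ne_zero, if_true, OfNat.ofNat_ne_one, if_false]
      push_cast
      field_simp
    by_cases h3 : (j : ℕ) = 3
    · simp only [L, if_neg h0, if_neg h1, if_neg h2, if_pos h3]
      have ha : (a : ℂ) = a.num / a.den := by exact_mod_cast (Rat.cast_def (K := ℂ) a)
      have hb : (b : ℂ) = b.num / b.den := by exact_mod_cast (Rat.cast_def (K := ℂ) b)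
      rw [ha, hb]
      push_cast
      rw [hMe]
      field_simp
    · simp only [L, if_neg h0, if_neg h1, if_neg h2, if_neg h3]
      have hj4 : 4 ≤ (j : ℕ) := by omega
      have hdvd : (j : ℕ) ∣ k.factorial := Nat.dvd_factorial (by omega) (le_of_lt j.2)
      have hjc : ((j : ℕ) : ℂ) ≠ 0 := by exact_mod_cast (by omega : (j : ℕ) ≠ 0)
      have hq : ((k.factorial / (j : ℕ) : ℕ) : ℂ) = k.factorial / (j : ℕ) := by
        rw [Nat.cast_div hdvd hjc]
      rw [Int.cast_natCast, Nat.cast_mul, Nat.cast_mul, Nat.cast_mul, hq, Nat.cast_mul, hMe]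
      push_cast
      field_simp
      ring
  have hq : ∀ t, qL k (2 * M) L t = qf k (a + b * t) t := by
    intro t
    funext j
    rw [qf_ar]
    unfold qL
    rw [harg t j]
  refine ⟨2 * M, L, by omega, ?_, fun t _ => hq t⟩
  intro t ht
  refine ⟨?_, ?_, ?_⟩
  · rw [hq t]
    exact qf_conf ht (hE t ht)
  · intro j
    rw [harg t j]
    exact ar_notL ht (hE t ht) j
  · intro z hz hz'
    rw [hq t]
    exact qf_torsion hk ht _ z hz hz'

end Pool.Agent.Helper2.LN2
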