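import Pool.Agent.Helper2.LN2.ELat

/-!
# LN2-L3 (MP_730da0_ag): two complex structures

Paper proof.  `T = tmap t₁ t₂` is the real-linear map with `T 1 = 1`, `T t₁ = t₂`.  Let `z` be in the ball, `c₁ = φ₁'(z)`, `c₂ = φ₂'(T z)`.  For `h ∈ ℂ` and real `s` near `0`: `φ₂ (T z + s T h) = T (φ₁ (z + s h))`; derivative at `s = 0`: `c₂ T h = T (c₁ h)`.
`h = 1`: `c₂ = T c₁`; write `c₁ = r + s t₁` (`rep`), so `c₂ = r + s t₂`.  `h = t₁`: `c₂ t₂ = T (r t₁ + s t₁²)`, `t₁² = 2 Re t₁ · t₁ - |t₁|²`, so `r t₂ + s t₂² = r t₂ + s (2 Re t₁ · t₂ - |t₁|²)`: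
`s (t₂² - 2 Re t₁ · t₂ + |t₁|²) = s (t₂ - t₁)(t₂ - conj t₁) = 0`.  `t₂ ≠ t₁`, and `t₂ ≠ conj t₁` (imaginary parts), so `s = 0`: `φ₁'` is real on the ball.  A holomorphic real-valued function on a ball is constant `c`, and `φ₁ - c z` has derivative `0`.
-/

namespace Pool.Agent.Helper2.LN2

open Pool.Agent.Helper2.LN

/-- The real-linear map with `1 ↦ 1`, `t₁ ↦ t₂`. -/
noncomputable def tmap (t₁ t₂ z : ℂ) : ℂ := ((z.re - z.im / t₁.im * t₁.re : ℝ) : ℂ) + ((z.im / t₁.im : ℝ) : ℂ) * t₂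

theorem tmap_rep {t₁ : ℂ} (h1 : t₁ ∈ HH) (t₂ : ℂ) (a b : ℝ) : tmap t₁ t₂ (a + b * t₁) = a + b * t₂ := by
  sorry

theorem tmap_cont (t₁ t₂ : ℂ) : Continuous (tmap t₁ t₂) := by
  sorry

theorem two_struct {t₁ t₂ : ℂ} (h1 : t₁ ∈ HH) (h2 : t₂ ∈ HH) (hne : t₁ ≠ t₂) (φ₁ φ₂ : ℂ → ℂ) (p : ℂ) (r : ℝ)
    (hr : 0 < r) (d1 : DifferentiableOn ℂ φ₁ (Metric.ball p r))
    (d2 : ∀ z ∈ Metric.ball p r, DifferentiableAt ℂ φ₂ (tmap t₁ t₂ z))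
    (h : ∀ z ∈ Metric.ball p r, φ₂ (tmap t₁ t₂ z) = tmap t₁ t₂ (φ₁ z)) :
    ∃ (c : ℝ) (κ : ℂ), ∀ z ∈ Metric.ball p r, φ₁ z = κ + c * z := by
  sorry

end Pool.Agent.Helper2.LN2
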