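import Pool.Agent.Helper2.LN2.Leaf
import Pool.Agent.Helper2.LN2.QF
import Pool.Agent.Helper2.LN2.TwoStr

/-!
# LN2-L4 (MP_730da0_ag): sections of `p ↦ S.F (qf k p t₁)` are locally affine

Paper proof.  `D = {(p, t) : t ∈ HH, p ∉ EE k t}` is open (`isOpen_EE`).  Choose `r, δ > 0` with `ball p₁ (2r) ×ˢ ball t₁ δ ⊆ D`, `ball t₁ δ ⊆ HH`, and `t₂ ∈ ball t₁ δ`, `t₂ ≠ t₁`, so near `t₁` that `‖tmap t₁ t z - z‖ < r` for all `z ∈ ball p₁ r` and all `t` on the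
segment `[t₁, t₂]` (`tmap t₁ t z - z = b (t - t₁)`, `|b| = |Im z|/Im t₁`).  Let `p₀ ∈ ball p₁ r`, `w ∈ S.F (qf k p₀ t₁)`.
Put `A = ball p₁ (2r) ×ˢ ball t₁ δ` (convex, open; simply connected, locally path connected).  `S.lift`: a continuous section `ω(p, t) ∈ S.F (qf k p t)` on `A` with `ω(p₀, t₁) = w` (`qf_cont`, `qf_conf`).  `ω(p, t) ≠ wp z t` for `2 z ∈ Lat t`, `z ∉ Lat t`
(`qf_torsion`, `ES.avoid`).  `wp_surj`, `wp_lift`: `U` continuous on `A` with `2 U ∉ Lat t`, `wp (U (p, t)) t = ω(p, t)`.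
For `i = 1, 2`: `φ_i = U(., t_i)` is holomorphic on `ball p₁ (2r)`: `ω(., t_i)` is holomorphic by `ES.hol` along `p ↦ qf k p t_i` (`qf_hol`), then `wp_hol_lift` with constant `τ = t_i`.
Claim `φ₂ (T z) = T (φ₁ z)` for `z ∈ ball p₁ r`, `T = tmap t₁ t₂`.  For `z = a + b t₁` with rational `a, b`: `Ω = {t ∈ ball t₁ δ : a + b t ∈ ball p₁ (2r)}` is open, convex and contains `t₁` and `t₂`; `u t = U(a + b t, t)` is continuous on `Ω`,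
`wp (u t) t ∈ S.F (qf k (a + b t) t) = S.F (qL k N L t)` (`qf_leaf`).  `leaf_affine`: `u t = α + β t` with real `α, β`: `φ₁ z = α + β t₁`, `φ₂ (T z) = α + β t₂ = T (φ₁ z)` (`tmap_rep`).
Such `z` are dense in the ball (`rep`, density of the rationals), both sides are continuous: all `z`.
`two_struct` (ball of radius `r`): `φ₁ z = κ + c z` on `ball p₁ r`.  So `wp (κ + c z) t₁ = ω(z, t₁) ∈ S.F (qf k z t₁)`, `2 (κ + c z) ∉ Lat t₁`, and `wp (κ + c p₀) t₁ = w`.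
-/

namespace Pool.Agent.Helper2.LN2

open Pool.Agent.Helper2.LN

theorem T5 {k : ℕ} (hk : 4 ≤ k) (S : Sys k ℂ) (hS : ES S) {t₁ p₁ : ℂ} (ht : t₁ ∈ HH) (hp : p₁ ∉ EE k t₁) :
    ∃ r : ℝ, 0 < r ∧ (∀ p ∈ Metric.ball p₁ r, p ∉ EE k t₁) ∧
      ∀ p₀ ∈ Metric.ball p₁ r, ∀ w ∈ S.F (qf k p₀ t₁), ∃ (c : ℝ) (κ : ℂ), wp (κ + c * p₀) t₁ = w ∧
        ∀ p ∈ Metric.ball p₁ r, 2 * (κ + c * p) ∉ Lat t₁ ∧ wp (κ + c * p) t₁ ∈ S.F (qf k p t₁) := by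
  sorry

end Pool.Agent.Helper2.LN2
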