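import Pool.Agent.Helper2.LN2.ConfLog

/-!
# LN2-U4 (MP_730da0_ag): equivariant injective maps are affine

`V_abc(q) = (X_a - X_b)/(X_a - X_c)` for distinct `a, b, c`: never `0`, `1` (`1 - V_abc = V_cba`), `V_acb = 1/V_abc`, `V_abc(q ∘ π) = V_(πa πb πc)(q)`.  `conf_logder`: constants `M(abc; d, i)`, `d ≠ i`.  Write `∂_d` for the derivative in `q_d`.
Uniqueness: if `∑_(i ≠ d) m_i/(q_d - q_i) = ∑_(i ≠ d) m'_i/(q_d - q_i)` for all `q ∈ Conf k` then `m = m'` (`partial_unique` for one `q`, all `x = q_d`).  So `M(acb; d, i) = -M(abc; d, i)` and (equivariance, `update_comp`)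
`M(abc; d, i) = M(πa πb πc; πd, πi)`.
STEP 1 (`units_indep`): `∂_d V_abc = 0` for `d ∉ {a, b, c}`.  With `π = (b c)`: `M(abc; d, i) = M(acb; d, π i) = -M(abc; d, π i)`: so `M(abc; d, i) = 0` for `i ∉ {b, c}` and `M(abc; d, b) = -M(abc; d, c) = n`.  With `π = (a c)`: `M(cba; d, b) = n`, `M(cba; d, a) = -n`,
the others `0`.  So with `x = q_d`, `V = V_abc`: `∂_d V = n V (q_b - q_c)/((x - q_b)(x - q_c))` and, as `V_cba = 1 - V`: `-∂_d V = n (1 - V)(q_b - q_a)/((x - q_b)(x - q_a))`.  Suppose `n ≠ 0`; adding: `V (q_b - q_c)(x - q_a) = (V - 1)(q_b - q_a)(x - q_c)` for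
`x = q_d`; the same holds for `x = q_d'` with another `d' ∉ {a, b, c}` (`k ≥ 5`; `M(abc; d', b) = M(abc; d, b)` by `π = (d d')`).  Subtract: `V (q_b - q_c)(q_d - q_d') = (V - 1)(q_b - q_a)(q_d - q_d')`, so `V (q_b - q_c) = (V - 1)(q_b - q_a)`,
which is not `0`, so `q_d - q_a = q_d - q_c`: contradiction.
STEP 2.  `x = q_a`.  `∂_a V_abc = V (s/(x - q_b) - s/(x - q_c))`, `s = M(abc; a, b)` (as before, `π = (b c)`).  For `V_cba = 1 - V`: `M(cba; a, i) = 0` for `i ∉ {a, b, c}`: `V_cba` does not depend on `q_i` (STEP 1: derivative `0` on the connected set of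
admissible `q_i`), so `∂_a V_cba` at `q` and at `update q i y` is the same, and `M/(x - q_i) = M/(x - y)`.  So `-∂_a V = (1 - V)(t/(x - q_b) + t'/(x - q_c))`.  Adding and clearing denominators, with `l(x) = t (x - q_c) + t' (x - q_b)`:
`V(x) (s (q_b - q_c) - l(x)) = -l(x)` for all `x ≠ q_b, q_c` [also for `x = q_i`, `i ∉ {a, b, c}`, as one may first move `q_i`].
`s ≠ 0`: if `t + t' = 0` then `l` is the constant `t (q_b - q_c)`; if `s (q_b - q_c) = l` then `l = 0`, `s = 0`, contradiction; else `V` is constant in `x` and `s = 0`, contradiction.  If `t + t' ≠ 0`, `l` has a zero `x₀`; `x₀ ≠ q_b, q_c` gives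
`V(x₀) s (q_b - q_c) = 0`, contradiction; so `l = t' (x - q_b)` or `l = t (x - q_c)`.  In the same way the zero `x₁` of `s (q_b - q_c) - l(x)` is `q_b` or `q_c` (else `l(x₁) = 0 = s (q_b - q_c)`).  So `l = t'(x - q_b)`, `t' = -s`,
`V = (x - q_b)/(x - q_c)`, or `l = t (x - q_c)`, `t = s`, `V = (x - q_c)/(x - q_b)`.  (`s, t, t'` do not depend on the triple, by equivariance, nor on `q`: so one and the same case holds for all triples and all `q`.)
Second case for all triples: `1 - V_abc = V_cba`: `1 - (q_a - q_c)/(q_a - q_b) = (q_c - q_a)/(q_c - q_b)`; at `(q_a, q_b, q_c) = (0, 1, 2)`: `-1 ≠ 2`.  [`1 - (-2)/(-1) = -1`, `2/1 = 2`.]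
`s = 0` for all triples: `∂_a V_abc = 0`; `V_cba = 1 - V_abc` gives `∂_c V_abc = 0`; `V_acb = 1/V_abc`, `V_bca = 1 - V_acb` give `∂_b V_abc = 0`.  So `V_abc` is a constant `c` on the connected `Conf k`; `π = (b c)`: `c = 1/c`, `π = (a c)`: `c = 1 - c`:
`c = 1/2`, `c = 1/c` contradiction.
So `V_abc = (q_a - q_b)/(q_a - q_c)` for all triples: `(X_a - X_b)/(q_a - q_b)` does not depend on the pair: `y`.
-/

namespace Pool.Agent.Helper2.LN2

open Pool.Agent.Helper2.LN

/-- Hypotheses on `X`. -/
structure Eqv {k : ℕ} (X : (Fin k → ℂ) → (Fin k → ℂ)) : Prop where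
  cont : ContinuousOn X (Conf k)
  inj : ∀ q ∈ Conf k, Function.Injective (X q)
  eqv : ∀ q ∈ Conf k, ∀ π : Equiv.Perm (Fin k), X (q ∘ π) = X q ∘ π
  hol : ∀ q ∈ Conf k, ∀ d l, DifferentiableOn ℂ (fun x => X (Function.update q d x) l) {x | Function.update q d x ∈ Conf k}

/-- `(X_a - X_b)/(X_a - X_c)`. -/
noncomputable def VV {k : ℕ} (X : (Fin k → ℂ) → (Fin k → ℂ)) (a b c : Fin k) (q : Fin k → ℂ) : ℂ :=
  (X q a - X q b) / (X q a - X q c)


private theorem comp_mem' {k : ℕ} {q : Fin k → ℂ} (hq : q ∈ Conf k) (π : Equiv.Perm (Fin k)) : q ∘ π ∈ Conf k :=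
  Function.Injective.comp hq π.injective

private theorem VV_eqv' {k : ℕ} {X : (Fin k → ℂ) → (Fin k → ℂ)} (hX : Eqv X) (a b c : Fin k)
    (π : Equiv.Perm (Fin k)) {q : Fin k → ℂ} (hq : q ∈ Conf k) :
    VV X a b c (q ∘ π) = VV X (π a) (π b) (π c) q := by
  unfold VV
  rw [hX.eqv q hq π]
  rfl

private theorem sub_ne' {k : ℕ} {X : (Fin k → ℂ) → (Fin k → ℂ)} (hX : Eqv X) {a b : Fin k} (hab : a ≠ b)
    {q : Fin k → ℂ} (hq : q ∈ Conf k) : X q a - X q b ≠ 0 := by
  intro h
  exact hab (hX.inj q hq (sub_eq_zero.mp h))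

private theorem VV_ne_zero' {k : ℕ} {X : (Fin k → ℂ) → (Fin k → ℂ)} (hX : Eqv X) {a b c : Fin k}
    (hab : a ≠ b) (hac : a ≠ c) {q : Fin k → ℂ} (hq : q ∈ Conf k) : VV X a b c q ≠ 0 :=
  div_ne_zero (sub_ne' hX hab hq) (sub_ne' hX hac hq)

private theorem VV_inv' {k : ℕ} {X : (Fin k → ℂ) → (Fin k → ℂ)} (a b c : Fin k) (q : Fin k → ℂ) :
    VV X a c b q = (VV X a b c q)⁻¹ := by
  unfold VV
  rw [inv_div]

private theorem VV_one_sub' {k : ℕ} {X : (Fin k → ℂ) → (Fin k → ℂ)} (hX : Eqv X) {a b c : Fin k}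
    (hac : a ≠ c) {q : Fin k → ℂ} (hq : q ∈ Conf k) : VV X a b c q + VV X c b a q = 1 := by
  unfold VV
  have h2 := sub_ne' hX hac hq
  have h3 := sub_ne' hX hac.symm hq
  have h4 : X q c - X q a = -(X q a - X q c) := by ring
  rw [h4, div_neg]
  field_simp
  ring

private theorem isOpen_line' {k : ℕ} {q : Fin k → ℂ} (d : Fin k) :
    IsOpen {x | Function.update q d x ∈ Conf k} :=
  (isOpen_Conf k).preimage (update_diff q d).continuous

private theorem preconn_line' {k : ℕ} {q : Fin k → ℂ} (hq : q ∈ Conf k) (d : Fin k) :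
    IsPreconnected {x | Function.update q d x ∈ Conf k} := by
  have h1 : {x | Function.update q d x ∈ Conf k} = (((Finset.univ.erase d).image q : Finset ℂ) : Set ℂ)ᶜ := by
    ext x
    simp only [Set.mem_ofPred_eq, update_mem hq, Set.mem_compl_iff, Finset.coe_image, Set.mem_image,
      Finset.mem_coe, Finset.mem_erase, Finset.mem_univ, and_true, not_exists, not_and]
    constructor
    · intro h i hi hix
      exact h i hi hix.symm
    · intro h i hi hix
      exact h i hi hix.symm
  rw [h1]
  have h2 : 1 < Module.rank ℝ ℂ := by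
    rw [Complex.rank_real_complex]
    norm_num
  exact ((Finset.countable_toSet _).isPathConnected_compl_of_one_lt_rank h2).isConnected.isPreconnected

private theorem diff_line' {k : ℕ} {X : (Fin k → ℂ) → (Fin k → ℂ)} (hX : Eqv X) {a b c : Fin k}
    (hac : a ≠ c) {q : Fin k → ℂ} (hq : q ∈ Conf k) (d : Fin k) :
    DifferentiableOn ℂ (fun x => VV X a b c (Function.update q d x)) {x | Function.update q d x ∈ Conf k} := by
  unfold VV
  exact ((hX.hol q hq d a).sub (hX.hol q hq d b)).div ((hX.hol q hq d a).sub (hX.hol q hq d c))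
    (fun x hx => sub_ne' hX hac hx)

private theorem self_mem' {k : ℕ} {q : Fin k → ℂ} (hq : q ∈ Conf k) (d : Fin k) :
    q d ∈ {x | Function.update q d x ∈ Conf k} := by
  simp only [Set.mem_ofPred_eq, Function.update_eq_self]
  exact hq

private theorem deriv_addV' {k : ℕ} {X : (Fin k → ℂ) → (Fin k → ℂ)} (hX : Eqv X) {a b c : Fin k}
    (hac : a ≠ c) {q : Fin k → ℂ} (hq : q ∈ Conf k) (d : Fin k) :
    deriv (fun x => VV X a b c (Function.update q d x)) (q d) +
      deriv (fun x => VV X c b a (Function.update q d x)) (q d) = 0 := by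
  have hn : {x | Function.update q d x ∈ Conf k} ∈ nhds (q d) :=
    (isOpen_line' d).mem_nhds (self_mem' hq d)
  have h1 := (diff_line' hX (b := b) hac hq d).differentiableAt hn
  have h2 := (diff_line' hX (b := b) hac.symm hq d).differentiableAt hn
  rw [← _root_.deriv_add h1 h2]
  have h3 : (fun x => VV X a b c (Function.update q d x)) + (fun x => VV X c b a (Function.update q d x))
      =ᶠ[nhds (q d)] fun _ => (1 : ℂ) := by
    filter_upwards [hn] with x hx
    exact VV_one_sub' hX hac hx
  rw [h3.deriv_eq]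
  simp

private theorem sum_two' {k : ℕ} (m : Fin k → ℂ) {d b c : Fin k} (hdb : d ≠ b) (hbc : b ≠ c) (hdc : d ≠ c)
    (hm : ∀ i, i ≠ d → i ≠ b → i ≠ c → m i = 0) (q : Fin k → ℂ) :
    ∑ i ∈ Finset.univ.erase d, m i / (q d - q i) = m b / (q d - q b) + m c / (q d - q c) := by
  refine Finset.sum_eq_add b c hbc ?_ ?_ ?_
  · intro i hi h
    rw [hm i (Finset.ne_of_mem_erase hi) h.1 h.2, zero_div]
  · intro h
    exact absurd (Finset.mem_erase.mpr ⟨hdb.symm, Finset.mem_univ _⟩) h
  · intro h
    exact absurd (Finset.mem_erase.mpr ⟨hdc.symm, Finset.mem_univ _⟩) h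

private theorem conf_ne' {k : ℕ} {q : Fin k → ℂ} (hq : q ∈ Conf k) {a b : Fin k} (hab : a ≠ b) :
    q a - q b ≠ 0 := by
  intro h
  exact hab (hq (sub_eq_zero.mp h))

/-- uniqueness of the constants. -/
private theorem uniq' {k : ℕ} (d : Fin k) (m m' : Fin k → ℂ)
    (h : ∀ q ∈ Conf k, ∑ i ∈ Finset.univ.erase d, m i / (q d - q i) =
      ∑ i ∈ Finset.univ.erase d, m' i / (q d - q i)) : ∀ i, i ≠ d → m i = m' i := by
  classical
  obtain ⟨q, hq⟩ : ∃ q : Fin k → ℂ, q ∈ Conf k := (conf_connected k).nonempty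
  have hinj : Function.Injective q := hq
  have : Nonempty (Fin k) := ⟨d⟩
  have hsum : ∀ (n : Fin k → ℂ) (x : ℂ), ∑ a ∈ (Finset.univ.erase d).image q,
      n (Function.invFun q a) / (x - a) = ∑ i ∈ Finset.univ.erase d, n i / (x - q i) := by
    intro n x
    rw [Finset.sum_image (fun i _ j _ hij => hinj hij)]
    refine Finset.sum_congr rfl fun i _ => ?_
    rw [Function.leftInverse_invFun hinj i]
  have key := partial_unique ((Finset.univ.erase d).image q) (fun a => m (Function.invFun q a))
    (fun a => m' (Function.invFun q a)) (by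
      intro x hx
      have hx' : Function.update q d x ∈ Conf k := by
        rw [update_mem hq]
        intro i hi hxi
        exact hx (Finset.mem_image.mpr ⟨i, Finset.mem_erase.mpr ⟨hi, Finset.mem_univ _⟩, hxi.symm⟩)
      have h1 := h _ hx'
      have h2 : ∀ n : Fin k → ℂ, ∑ i ∈ Finset.univ.erase d,
          n i / (Function.update q d x d - Function.update q d x i) =
          ∑ i ∈ Finset.univ.erase d, n i / (x - q i) := by
        intro n
        refine Finset.sum_congr rfl fun i hi => ?_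
        rw [Function.update_self, Function.update_of_ne (Finset.ne_of_mem_erase hi)]
      rw [h2, h2] at h1
      rw [hsum, hsum]
      exact h1)
  intro i hi
  have h3 := key (q i) (Finset.mem_image.mpr ⟨i, Finset.mem_erase.mpr ⟨hi, Finset.mem_univ _⟩, rfl⟩)
  simp only [Function.leftInverse_invFun hinj i] at h3
  exact h3

/-- The constants of `VV`. -/
theorem units_M {k : ℕ} (X : (Fin k → ℂ) → (Fin k → ℂ)) (hX : Eqv X) :
    ∃ M : Fin k → Fin k → Fin k → Fin k → Fin k → ℂ,
      (∀ a b c, a ≠ b → b ≠ c → a ≠ c → ∀ q ∈ Conf k, ∀ d,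
        deriv (fun x => VV X a b c (Function.update q d x)) (q d) =
          VV X a b c q * ∑ i ∈ Finset.univ.erase d, M a b c d i / (q d - q i)) ∧
      (∀ a b c, a ≠ b → b ≠ c → a ≠ c → ∀ d i, d ≠ i → M a c b d i = - M a b c d i) ∧
      ∀ a b c, a ≠ b → b ≠ c → a ≠ c → ∀ (π : Equiv.Perm (Fin k)) d i, d ≠ i →
        M (π a) (π b) (π c) (π d) (π i) = M a b c d i := by
  classical
  have hex : ∀ a b c : Fin k, ∃ m : Fin k → Fin k → ℂ, a ≠ b → b ≠ c → a ≠ c → ∀ q ∈ Conf k, ∀ d,
      deriv (fun x => VV X a b c (Function.update q d x)) (q d) =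
        VV X a b c q * ∑ i ∈ Finset.univ.erase d, m d i / (q d - q i) := by
    intro a b c
    by_cases habc : a ≠ b ∧ b ≠ c ∧ a ≠ c
    · obtain ⟨hab, hbc, hac⟩ := habc
      have hcont : ContinuousOn (VV X a b c) (Conf k) := by
        have hc : ∀ l, ContinuousOn (fun q => X q l) (Conf k) := fun l =>
          (continuous_apply l).comp_continuousOn hX.cont
        unfold VV
        exact ((hc a).sub (hc b)).div ((hc a).sub (hc c)) (fun q hq => sub_ne' hX hac hq)
      obtain ⟨m, hm⟩ := conf_logder (VV X a b c) hcont (fun q hq => VV_ne_zero' hX hab hac hq)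
        (fun q hq h1 => by
          have h2 := VV_one_sub' hX (b := b) hac hq
          rw [h1] at h2
          have h3 : VV X c b a q = 0 := by linear_combination h2
          exact VV_ne_zero' hX hbc.symm hac.symm hq h3)
        (fun q hq d => diff_line' hX hac hq d)
      exact ⟨m, fun _ _ _ => hm⟩
    · refine ⟨fun _ _ => 0, fun h1 h2 h3 => absurd ⟨h1, h2, h3⟩ habc⟩
  choose M hM using hex
  refine ⟨M, hM, ?_, ?_⟩
  · intro a b c hab hbc hac d i hdi
    refine uniq' d (fun i => M a c b d i) (fun i => - M a b c d i) ?_ i hdi.symm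
    intro q hq
    have hn : {x | Function.update q d x ∈ Conf k} ∈ nhds (q d) :=
      (isOpen_line' d).mem_nhds (self_mem' hq d)
    have h1 := ((diff_line' hX (b := b) hac hq d).differentiableAt hn).hasDerivAt
    have hV := VV_ne_zero' hX hab hac hq
    have hV' : (fun x => VV X a b c (Function.update q d x)) (q d) ≠ 0 := by
      simp only [Function.update_eq_self]
      exact hV
    have h2 : deriv (fun x => VV X a c b (Function.update q d x)) (q d) =
        -(deriv (fun x => VV X a b c (Function.update q d x)) (q d)) / (VV X a b c q) ^ 2 := by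
      have h3 : (fun x => VV X a c b (Function.update q d x)) =
          (fun x => VV X a b c (Function.update q d x))⁻¹ := by
        funext x
        rw [Pi.inv_apply]
        exact VV_inv' a b c _
      rw [h3, (h1.inv hV').deriv]
      simp only [Function.update_eq_self]
    rw [hM a c b hac hbc.symm hab q hq d, hM a b c hab hbc hac q hq d, VV_inv' a b c q] at h2
    simp only [neg_div, Finset.sum_neg_distrib]
    field_simp at h2
    rw [h2]
  · intro a b c hab hbc hac π d i hdi
    refine uniq' d (fun i => M (π a) (π b) (π c) (π d) (π i)) (fun i => M a b c d i) ?_ i hdi.symm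
    intro q' hq'
    obtain ⟨q, hq, rfl⟩ : ∃ q ∈ Conf k, q ∘ π = q' :=
      ⟨q' ∘ π.symm, comp_mem' hq' π.symm, by funext j; simp⟩
    have hfun : (fun x => VV X (π a) (π b) (π c) (Function.update q (π d) x)) =ᶠ[nhds (q (π d))]
        fun x => VV X a b c (Function.update (q ∘ π) d x) := by
      filter_upwards [(isOpen_line' (π d)).mem_nhds (self_mem' hq (π d))] with x hx
      rw [update_comp, VV_eqv' hX a b c π hx]
    have h1 := hfun.deriv_eq
    have h2 := hM a b c hab hbc hac (q ∘ π) (comp_mem' hq π) d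
    rw [Function.comp_apply] at h2
    rw [h2, hM (π a) (π b) (π c) (π.injective.ne hab) (π.injective.ne hbc) (π.injective.ne hac) q hq (π d),
      VV_eqv' hX a b c π hq] at h1
    have h3 := mul_left_cancel₀ (VV_ne_zero' hX (π.injective.ne hab) (π.injective.ne hac) hq) h1
    refine Eq.trans ?_ h3
    simp only [Function.comp_apply]
    refine Finset.sum_equiv π (fun i => ?_) (fun i _ => rfl)
    simp only [Finset.mem_erase, Finset.mem_univ, and_true, ne_eq, EmbeddingLike.apply_eq_iff_eq]

/-- STEP 1. -/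
theorem units_indep {k : ℕ} (hk : 5 ≤ k) (X : (Fin k → ℂ) → (Fin k → ℂ)) (hX : Eqv X) (a b c d : Fin k)
    (hab : a ≠ b) (hbc : b ≠ c) (hac : a ≠ c) (hda : d ≠ a) (hdb : d ≠ b) (hdc : d ≠ c) :
    ∀ q ∈ Conf k, ∀ x, Function.update q d x ∈ Conf k → VV X a b c (Function.update q d x) = VV X a b c q := by
  classical
  obtain ⟨M, hder, hinv, heqv⟩ := units_M X hX
  -- the constants outside
  have hout : ∀ a b c d i : Fin k, a ≠ b → b ≠ c → a ≠ c → d ≠ a → d ≠ b → d ≠ c → i ≠ d → i ≠ b → i ≠ c →
      M a b c d i = 0 := by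
    intro a b c d i hab hbc hac hda hdb hdc hid hib hic
    have h1 := heqv a b c hab hbc hac (Equiv.swap b c) d i hid.symm
    rw [Equiv.swap_apply_of_ne_of_ne hab hac, Equiv.swap_apply_left, Equiv.swap_apply_right,
      Equiv.swap_apply_of_ne_of_ne hdb hdc, Equiv.swap_apply_of_ne_of_ne hib hic] at h1
    have h2 := hinv a b c hab hbc hac d i hid.symm
    rw [h1] at h2
    have h3 : (2 : ℂ) * M a b c d i = 0 := by linear_combination h2
    simpa using h3
  have hbcn : ∀ a b c d : Fin k, a ≠ b → b ≠ c → a ≠ c → d ≠ a → d ≠ b → d ≠ c →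
      M a b c d c = - M a b c d b := by
    intro a b c d hab hbc hac hda hdb hdc
    have h1 := heqv a b c hab hbc hac (Equiv.swap b c) d b hdb
    rw [Equiv.swap_apply_of_ne_of_ne hab hac, Equiv.swap_apply_left, Equiv.swap_apply_right,
      Equiv.swap_apply_of_ne_of_ne hdb hdc] at h1
    have h2 := hinv a b c hab hbc hac d c hdc
    rw [h1] at h2
    linear_combination h2
  have hca : ∀ d : Fin k, d ≠ a → d ≠ b → d ≠ c → M c b a d b = M a b c d b := by
    intro d hda hdb hdc
    have h1 := heqv a b c hab hbc hac (Equiv.swap a c) d b hdb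
    rwa [Equiv.swap_apply_left, Equiv.swap_apply_right, Equiv.swap_apply_of_ne_of_ne hab.symm hbc,
      Equiv.swap_apply_of_ne_of_ne hda hdc] at h1
  -- the relation at one point
  have hrel : ∀ d : Fin k, d ≠ a → d ≠ b → d ≠ c → ∀ q ∈ Conf k,
      M a b c d b * (VV X a b c q * (q b - q c) * (q d - q a) +
        (1 - VV X a b c q) * (q b - q a) * (q d - q c)) = 0 := by
    intro d hda hdb hdc q hq
    have h1 := deriv_addV' hX (b := b) hac hq d
    rw [hder a b c hab hbc hac q hq d, hder c b a hbc.symm hab.symm hac.symm q hq d,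
      sum_two' (M a b c d) hdb hbc hdc
        (fun i h2 h3 h4 => hout a b c d i hab hbc hac hda hdb hdc h2 h3 h4),
      sum_two' (M c b a d) hdb hab.symm hda
        (fun i h2 h3 h4 => hout c b a d i hbc.symm hab.symm hac.symm hdc hdb hda h2 h3 h4),
      hbcn a b c d hab hbc hac hda hdb hdc,
      hbcn c b a d hbc.symm hab.symm hac.symm hdc hdb hda, hca d hda hdb hdc] at h1
    have h2 : VV X c b a q = 1 - VV X a b c q := by
      linear_combination VV_one_sub' hX (b := b) hac hq
    rw [h2] at h1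
    have h3 := conf_ne' hq hda
    have h4 := conf_ne' hq hdb
    have h5 := conf_ne' hq hdc
    field_simp at h1
    linear_combination h1
  -- another index
  have hn0 : M a b c d b = 0 := by
    by_contra hn
    obtain ⟨d', hd'⟩ : ∃ d' : Fin k, d' ∉ ({a, b, c, d} : Finset (Fin k)) := by
      by_contra hcon
      push Not at hcon
      have h1 : (Finset.univ : Finset (Fin k)) ⊆ {a, b, c, d} := fun i _ => hcon i
      have h2 := Finset.card_le_card h1
      rw [Finset.card_univ, Fintype.card_fin] at h2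
      have h3 : ({a, b, c, d} : Finset (Fin k)).card ≤ 4 := Finset.card_le_four
      omega
    simp only [Finset.mem_insert, Finset.mem_singleton, not_or] at hd'
    obtain ⟨hd'a, hd'b, hd'c, hd'd⟩ := hd'
    have heq : M a b c d' b = M a b c d b := by
      have h1 := heqv a b c hab hbc hac (Equiv.swap d d') d b hdb
      rwa [Equiv.swap_apply_left, Equiv.swap_apply_of_ne_of_ne hda.symm (Ne.symm hd'a),
        Equiv.swap_apply_of_ne_of_ne hdb.symm (Ne.symm hd'b),
        Equiv.swap_apply_of_ne_of_ne hdc.symm (Ne.symm hd'c)] at h1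
    obtain ⟨q, hq⟩ : ∃ q : Fin k → ℂ, q ∈ Conf k := (conf_connected k).nonempty
    have h1 := hrel d hda hdb hdc q hq
    have h2 := hrel d' hd'a hd'b hd'c q hq
    rw [heq] at h2
    have h1' := (mul_eq_zero.mp h1).resolve_left hn
    have h2' := (mul_eq_zero.mp h2).resolve_left hn
    have h3 : (q d - q d') * (VV X a b c q * (q b - q c) + (1 - VV X a b c q) * (q b - q a)) = 0 := by
      linear_combination h1' - h2'
    have h4 := (mul_eq_zero.mp h3).resolve_left (conf_ne' hq (Ne.symm hd'd))
    have h5 : VV X a b c q * ((q b - q c) * (q a - q c)) = 0 := by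
      linear_combination (q d - q c) * h4 - h1'
    exact mul_ne_zero (VV_ne_zero' hX hab hac hq) (mul_ne_zero (conf_ne' hq hbc) (conf_ne' hq hac)) h5
  intro q hq x hx
  have hU : IsOpen {x | Function.update q d x ∈ Conf k} := isOpen_line' d
  have hzero : Set.EqOn (deriv fun x => VV X a b c (Function.update q d x)) 0
      {x | Function.update q d x ∈ Conf k} := by
    intro y hy
    have h1 := hder a b c hab hbc hac (Function.update q d y) hy d
    simp only [Function.update_idem, Function.update_self] at h1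
    rw [h1, Pi.zero_apply]
    have h2 : ∑ i ∈ Finset.univ.erase d, M a b c d i / (y - Function.update q d y i) = 0 := by
      refine Finset.sum_eq_zero fun i hi => ?_
      have hid : i ≠ d := Finset.ne_of_mem_erase hi
      by_cases hib : i = b
      · rw [hib, hn0, zero_div]
      · by_cases hic : i = c
        · rw [hic, hbcn a b c d hab hbc hac hda hdb hdc, hn0, neg_zero, zero_div]
        · rw [hout a b c d i hab hbc hac hda hdb hdc hid hib hic, zero_div]
    rw [h2, mul_zero]
  have h1 := hU.is_const_of_deriv_eq_zero (preconn_line' hq d) (diff_line' hX (b := b) hac hq d) hzero hx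
    (self_mem' hq d)
  simpa only [Function.update_eq_self] using h1

end Pool.Agent.Helper2.LN2
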